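import Mathlib

/-!
# A branch group with an automorphism which is not induced by the tree

`L` is the group of all automorphisms `g` of the binary rooted tree (vertices: lists of Booleans) which
act on the four vertices of level two as a translation of the Klein four group: `g [a, b] = [a + s, b + t]`.
So `L = Aut T ≀ V₄`, with `V₄` regular on the second level. The block systems `{a = 0}, {a = 1}` and
`{b = 0}, {b = 1}` of the second level are interchanged by the homeomorphism `a b r ↦ b a r` of the boundary,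
which normalises `L`; this gives an automorphism `φ` of `L` which does not come from an automorphism of the tree.
-/

set_option autoImplicit false

namespace Pool.Agent.U747.Branch

open List

abbrev X := List Bool

/-- interchange of the first two letters -/
def sw : X → X
  | a :: b :: r => b :: a :: r
  | l => l

@[simp] theorem sw_cons (a b : Bool) (r : X) : sw (a :: b :: r) = b :: a :: r := rfl

/-- the elements of `L` -/
def Good (g : Equiv.Perm X) : Prop :=
  (∀ v w : X, v <+: w ↔ g v <+: g w) ∧ (∀ v : X, (g v).length = v.length) ∧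
    ∃ s t : Bool, ∀ a b : Bool, g [a, b] = [xor a s, xor b t]

theorem Good.one : Good 1 := by
  refine ⟨fun v w => Iff.rfl, fun v => rfl, false, false, fun a b => by simp⟩

theorem Good.mul {g h : Equiv.Perm X} (hg : Good g) (hh : Good h) : Good (g * h) := by
  obtain ⟨p1, l1, s1, t1, e1⟩ := hg
  obtain ⟨p2, l2, s2, t2, e2⟩ := hh
  refine ⟨fun v w => (p2 v w).trans (p1 _ _), fun v => (l1 _).trans (l2 _), xor s2 s1, xor t2 t1,
    fun a b => ?_⟩
  rw [Equiv.Perm.mul_apply, e2, e1]
  simp

theorem Good.inv {g : Equiv.Perm X} (hg : Good g) : Good g⁻¹ := by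
  obtain ⟨p1, l1, s1, t1, e1⟩ := hg
  refine ⟨fun v w => ?_, fun v => ?_, s1, t1, fun a b => ?_⟩
  · rw [p1 (g⁻¹ v) (g⁻¹ w)]
    simp
  · rw [← l1 (g⁻¹ v)]
    simp
  · rw [Equiv.Perm.inv_eq_iff_eq, e1]
    simp

/-- the group `L` -/
def L : Subgroup (Equiv.Perm X) where
  carrier := {g | Good g}
  mul_mem' := fun ha hb => Good.mul ha hb
  one_mem' := Good.one
  inv_mem' := fun ha => Good.inv ha

theorem mem_L {g : Equiv.Perm X} : g ∈ L ↔ Good g := Iff.rfl

/-- the second coordinate of the translation -/
def tt (g : Equiv.Perm X) : Bool := (g [false, false]).getD 1 false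

theorem Good.exists {g : Equiv.Perm X} (hg : Good g) : ∃ s : Bool, ∀ a b : Bool, ∀ r : X,
    ∃ r' : X, g (a :: b :: r) = xor a s :: xor b (tt g) :: r' := by
  obtain ⟨p, l, s, t, e⟩ := hg
  have ht : tt g = t := by simp [tt, e]
  refine ⟨s, fun a b r => ?_⟩
  have h : g [a, b] <+: g (a :: b :: r) := (p _ _).1 ⟨r, rfl⟩
  rw [e] at h
  obtain ⟨r', hr'⟩ := h
  exact ⟨r', by rw [← hr', ht]; rfl⟩

theorem Good.single {g : Equiv.Perm X} (hg : Good g) {s : Bool}
    (hs : ∀ a b : Bool, ∀ r : X, ∃ r' : X, g (a :: b :: r) = xor a s :: xor b (tt g) :: r')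
    (a : Bool) : g [a] = [xor a s] := by
  obtain ⟨p, l, -⟩ := hg
  obtain ⟨r', hr'⟩ := hs a false []
  have h : g [a] <+: g [a, false] := (p _ _).1 ⟨[false], rfl⟩
  rw [hr'] at h
  have hl := l [a]
  rcases hx : g [a] with _ | ⟨y, _ | ⟨z, w⟩⟩
  · rw [hx] at hl; simp at hl
  · rw [hx] at h
    obtain ⟨u, hu⟩ := h
    simp only [List.cons_append, List.cons.injEq] at hu
    rw [hu.1]
  · rw [hx] at hl; simp at hl

theorem Good.nil {g : Equiv.Perm X} (hg : Good g) : g [] = [] := by
  have := hg.2.1 []
  exact List.eq_nil_of_length_eq_zero this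

/-- the twisted action -/
def P (g : Equiv.Perm X) : X → X
  | [] => []
  | [a] => [xor a (tt g)]
  | a :: b :: r => sw (g (b :: a :: r))

theorem P_one (x : X) : P 1 x = x := by
  rcases x with _ | ⟨a, _ | ⟨b, r⟩⟩ <;> simp [P, tt]

theorem tt_mul {g h : Equiv.Perm X} (hg : Good g) (hh : Good h) : tt (g * h) = xor (tt h) (tt g) := by
  obtain ⟨s, hs⟩ := hg.exists
  obtain ⟨s', hs'⟩ := hh.exists
  obtain ⟨r', hr'⟩ := hs' false false []
  obtain ⟨r'', hr''⟩ := hs (xor false s') (xor false (tt h)) r'
  show (g (h [false, false])).getD 1 false = _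
  rw [hr', hr'']
  simp

theorem P_mul {g h : Equiv.Perm X} (hg : Good g) (hh : Good h) (x : X) :
    P (g * h) x = P g (P h x) := by
  rcases x with _ | ⟨a, _ | ⟨b, r⟩⟩
  · rfl
  · simp only [P, tt_mul hg hh, Bool.xor_assoc]
  · obtain ⟨s', hs'⟩ := hh.exists
    obtain ⟨r', hr'⟩ := hs' b a r
    show sw (g (h (b :: a :: r))) = P g (sw (h (b :: a :: r)))
    rw [hr']
    rfl

instance act : MulAction L X where
  smul g x := P g.1 x
  one_smul x := P_one x
  mul_smul g h x := P_mul g.2 h.2 x

theorem smul_def (g : L) (x : X) : g • x = P g.1 x := rfl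

/-- `φ` as a homomorphism to the permutations -/
def phi0 : L →* Equiv.Perm X := MulAction.toPermHom L X

theorem phi0_apply (g : L) (x : X) : phi0 g x = P g.1 x := rfl

theorem P_prefix {g : Equiv.Perm X} (hg : Good g) {v w : X} (h : v <+: w) : P g v <+: P g w := by
  obtain ⟨s, hs⟩ := hg.exists
  rcases v with _ | ⟨a, _ | ⟨b, r⟩⟩
  · exact List.nil_prefix
  · obtain ⟨u, rfl⟩ := h
    rcases u with _ | ⟨b, u⟩
    · simp
    · obtain ⟨r', hr'⟩ := hs b a u
      show [xor a (tt g)] <+: sw (g (b :: a :: u))
      rw [hr']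
      exact ⟨xor b s :: r', rfl⟩
  · obtain ⟨u, rfl⟩ := h
    show sw (g (b :: a :: r)) <+: sw (g (b :: a :: (r ++ u)))
    have h1 : g (b :: a :: r) <+: g (b :: a :: (r ++ u)) := (hg.1 _ _).1 ⟨u, rfl⟩
    obtain ⟨r', hr'⟩ := hs b a r
    obtain ⟨u', hu'⟩ := h1
    rw [← hu', hr']
    exact ⟨u', rfl⟩

theorem P_length {g : Equiv.Perm X} (hg : Good g) (v : X) : (P g v).length = v.length := by
  rcases v with _ | ⟨a, _ | ⟨b, r⟩⟩
  · rfl
  · rfl
  · obtain ⟨s, hs⟩ := hg.exists
    obtain ⟨r', hr'⟩ := hs b a r
    have h1 := hg.2.1 (b :: a :: r)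
    show (sw (g (b :: a :: r))).length = _
    rw [hr'] at h1 ⊢
    simpa using h1

theorem phi0_mem (g : L) : phi0 g ∈ L := by
  have hg : Good g.1 := g.2
  refine ⟨fun v w => ⟨fun h => P_prefix hg h, fun h => ?_⟩, fun v => P_length hg v, ?_⟩
  · have h1 : P g⁻¹.1 (phi0 g v) <+: P g⁻¹.1 (phi0 g w) := P_prefix (g⁻¹).2 h
    have h2 : ∀ x, P g⁻¹.1 (phi0 g x) = x := by
      intro x
      show g⁻¹ • g • x = x
      rw [inv_smul_smul]
    rwa [h2, h2] at h1
  · obtain ⟨p, l, s, t, e⟩ := hg
    refine ⟨t, s, fun a b => ?_⟩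
    show sw (g.1 [b, a]) = _
    rw [e]
    rfl

/-- `φ` as an endomorphism of `L` -/
def phi1 : L →* L := phi0.codRestrict L phi0_mem

theorem phi1_phi1 (g : L) : phi1 (phi1 g) = g := by
  have hg : Good g.1 := g.2
  obtain ⟨s, hs⟩ := hg.exists
  have h0 : (phi1 g).1 [false, false] = [tt g.1, s] := by
    obtain ⟨r', hr'⟩ := hs false false []
    have hl := hg.2.1 [false, false]
    have h1 : r' = [] := by
      rw [hr'] at hl
      simpa using hl
    show sw (g.1 [false, false]) = _
    rw [hr', h1]
    simp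
  apply Subtype.ext
  apply Equiv.ext
  intro x
  show P (phi1 g).1 x = g.1 x
  rcases x with _ | ⟨a, _ | ⟨b, r⟩⟩
  · exact hg.nil.symm
  · rw [hg.single hs]
    show [xor a (((phi1 g).1 [false, false]).getD 1 false)] = _
    rw [h0]
    rfl
  · show sw (sw (g.1 (a :: b :: r))) = _
    obtain ⟨r', hr'⟩ := hs a b r
    rw [hr']
    rfl

/-- the automorphism `φ` -/
def phi : L ≃* L :=
  { phi1 with
    invFun := phi1
    left_inv := phi1_phi1
    right_inv := phi1_phi1 }

theorem phi_apply (g : L) (x : X) : (phi g).1 x = P g.1 x := rfl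

/-! ### The translations -/

/-- translation by a mask -/
def mask : (ℕ → Bool) → X → X
  | _, [] => []
  | c, a :: r => xor a (c 0) :: mask (fun n => c (n + 1)) r

theorem mask_mask (c : ℕ → Bool) (x : X) : mask c (mask c x) = x := by
  induction x generalizing c with
  | nil => rfl
  | cons a r ih => simp [mask, ih]

theorem mask_length (c : ℕ → Bool) (x : X) : (mask c x).length = x.length := by
  induction x generalizing c with
  | nil => rfl
  | cons a r ih => simp [mask, ih]

theorem mask_prefix (c : ℕ → Bool) {v w : X} (h : v <+: w) : mask c v <+: mask c w := by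
  obtain ⟨u, rfl⟩ := h
  induction v generalizing c with
  | nil => exact List.nil_prefix
  | cons a r ih =>
    obtain ⟨z, hz⟩ := ih (fun n => c (n + 1))
    exact ⟨z, by simp [mask, hz]⟩

def maskPerm (c : ℕ → Bool) : Equiv.Perm X := ⟨mask c, mask c, mask_mask c, mask_mask c⟩

theorem maskPerm_mem (c : ℕ → Bool) : maskPerm c ∈ L := by
  refine ⟨fun v w => ⟨fun h => mask_prefix c h, fun h => ?_⟩, fun v => mask_length c v, c 0, c 1,
    fun a b => rfl⟩
  have := mask_prefix c h
  change mask c (mask c v) <+: mask c (mask c w) at this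
  rwa [mask_mask, mask_mask] at this

theorem exists_mask (v w : X) (h : v.length = w.length) : ∃ c, mask c v = w := by
  induction v generalizing w with
  | nil => exact ⟨fun _ => false, by simpa [mask] using (List.eq_nil_of_length_eq_zero h.symm).symm⟩
  | cons a r ih =>
    rcases w with _ | ⟨b, w⟩
    · simp at h
    · obtain ⟨c, hc⟩ := ih w (by simpa using h)
      refine ⟨fun n => if n = 0 then xor a b else c (n - 1), ?_⟩
      simp only [mask, if_true, Nat.add_sub_cancel, Nat.add_eq_zero_iff, one_ne_zero, and_false,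
        if_false]
      rw [hc]
      simp

theorem transitive (v w : X) (h : v.length = w.length) : ∃ g ∈ L, g v = w := by
  obtain ⟨c, hc⟩ := exists_mask v w h
  exact ⟨maskPerm c, maskPerm_mem c, hc⟩

/-! ### No tree automorphism induces `φ` -/

theorem prefix_length {σ : Equiv.Perm X} (hσ : ∀ v w : X, v <+: w ↔ σ v <+: σ w) (a : Bool) :
    (σ [a]).length = 1 := by
  have hnil : σ [] = [] := by
    have h : σ [] <+: σ (σ⁻¹ []) := (hσ _ _).1 List.nil_prefix
    rw [show σ (σ⁻¹ []) = [] from σ.apply_symm_apply []] at h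
    exact List.prefix_nil.1 h
  have h0 : (σ [a]) ≠ [] := by
    intro h
    rw [← hnil] at h
    simpa using σ.injective h
  rcases hx : σ [a] with _ | ⟨b, r⟩
  · exact absurd hx h0
  · have h1 : [b] <+: σ [a] := by rw [hx]; exact ⟨r, rfl⟩
    have h2 : σ⁻¹ [b] <+: [a] := by
      rw [hσ]
      simpa using h1
    have h3 : σ⁻¹ [b] ≠ [] := by
      intro h
      have h5 : σ (σ⁻¹ [b]) = [b] := σ.apply_symm_apply [b]
      rw [h, hnil] at h5
      simp at h5
    have h4 : σ⁻¹ [b] = [a] := by
      obtain ⟨u, hu⟩ := h2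
      rcases hy : σ⁻¹ [b] with _ | ⟨y, z⟩
      · exact absurd hy h3
      · rw [hy] at hu
        simp only [List.cons_append, List.cons.injEq, List.append_eq_nil_iff] at hu
        rw [hu.1, hu.2.1]
    have h5 : σ [a] = [b] := by rw [← h4]; simp
    rw [← hx, h5]
    rfl

theorem no_sigma (σ : Equiv.Perm X) (hσ : ∀ v w : X, v <+: w ↔ σ v <+: σ w)
    (h : ∀ g : L, (phi g).1 = σ * g.1 * σ⁻¹) : False := by
  -- the translation by `(1, 0)`
  let g0 : L := ⟨maskPerm (fun n => decide (n = 0)), maskPerm_mem _⟩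
  have h1 := h g0
  have h2 : ∀ a : Bool, (phi g0).1 [a] = [a] := by
    intro a
    rw [phi_apply]
    show [xor a ((mask (fun n => decide (n = 0)) [false, false]).getD 1 false)] = [a]
    simp [mask]
  have h3 : ∀ a : Bool, g0.1 [a] = [!a] := by
    intro a
    show mask (fun n => decide (n = 0)) [a] = [!a]
    simp [mask]
  have hl := prefix_length hσ false
  obtain ⟨b, hb⟩ := List.length_eq_one_iff.1 hl
  have h4 : (phi g0).1 [b] = σ [true] := by
    rw [h1]
    show σ (g0.1 (σ⁻¹ [b])) = _
    rw [← hb]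
    have : σ⁻¹ (σ [false]) = [false] := by simp
    rw [this, h3]
    rfl
  rw [h2, ← hb] at h4
  have := σ.injective h4
  simp at this

/-! ### The rigid stabilisers have finite index -/

/-- The generators of the rigid stabiliser of level `n`. -/
def S (n : ℕ) : Set (Equiv.Perm X) :=
  {g | g ∈ L ∧ ∃ u : X, u.length = n ∧ ∀ v : X, ¬ u <+: v → g v = v}

/-- the vertices below `F` -/
def D (F : Finset X) (v : X) : Prop := ∃ u ∈ F, u <+: v

open Classical in
/-- the part of `g` below `F` -/
noncomputable def part (g : Equiv.Perm X) (F : Finset X) (h : ∀ v, D F v ↔ D F (g v)) :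
    Equiv.Perm X where
  toFun v := if D F v then g v else v
  invFun v := if D F v then g.symm v else v
  left_inv v := by
    by_cases hv : D F v
    · simp only [hv, if_true, (h v).1 hv, Equiv.symm_apply_apply]
    · simp only [hv, if_false]
  right_inv v := by
    by_cases hv : D F v
    · have : D F (g.symm v) := by
        rw [h, Equiv.apply_symm_apply]; exact hv
      simp only [hv, if_true, this, Equiv.apply_symm_apply]
    · simp only [hv, if_false]

theorem part_pos {g : Equiv.Perm X} {F : Finset X} {h : ∀ v, D F v ↔ D F (g v)} {v : X}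
    (hv : D F v) : part g F h v = g v := by
  classical
  exact if_pos hv

theorem part_neg {g : Equiv.Perm X} {F : Finset X} {h : ∀ v, D F v ↔ D F (g v)} {v : X}
    (hv : ¬ D F v) : part g F h v = v := by
  classical
  exact if_neg hv

/-- `g` fixes all vertices up to level `N` -/
def Fix (g : Equiv.Perm X) (N : ℕ) : Prop := ∀ v : X, v.length ≤ N → g v = v

theorem D_iff {g : Equiv.Perm X} (hg : Good g) {N : ℕ} (hf : Fix g N) {F : Finset X}
    (hF : ∀ u ∈ F, u.length ≤ N) (v : X) : D F v ↔ D F (g v) := by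
  constructor
  · rintro ⟨u, hu, h⟩
    refine ⟨u, hu, ?_⟩
    have := (hg.1 _ _).1 h
    rwa [hf u (hF u hu)] at this
  · rintro ⟨u, hu, h⟩
    refine ⟨u, hu, ?_⟩
    rw [hg.1, hf u (hF u hu)]
    exact h

theorem part_mem {g : Equiv.Perm X} (hg : Good g) {N : ℕ} (hN : 2 ≤ N) (hf : Fix g N)
    {F : Finset X} (hF : ∀ u ∈ F, u.length ≤ N) :
    part g F (D_iff hg hf hF) ∈ L := by
  refine ⟨fun v w => ?_, fun v => ?_, false, false, fun a b => ?_⟩
  · by_cases hv : D F v
    · rw [part_pos hv]
      by_cases hw : D F w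
      · rw [part_pos hw]
        exact hg.1 v w
      · rw [part_neg hw]
        constructor
        · intro h
          obtain ⟨u, hu, h1⟩ := hv
          exact absurd ⟨u, hu, h1.trans h⟩ hw
        · intro h
          obtain ⟨u, hu, h1⟩ := (D_iff hg hf hF v).1 hv
          exact absurd ⟨u, hu, h1.trans h⟩ hw
    · rw [part_neg hv]
      by_cases hw : D F w
      · rw [part_pos hw]
        obtain ⟨u, hu, h1⟩ := hw
        have h2 : u <+: g w := by
          have := (hg.1 _ _).1 h1
          rwa [hf u (hF u hu)] at this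
        constructor
        · intro h
          rcases List.prefix_or_prefix_of_prefix h h1 with h3 | h3
          · exact h3.trans h2
          · exact absurd ⟨u, hu, h3⟩ hv
        · intro h
          rcases List.prefix_or_prefix_of_prefix h h2 with h3 | h3
          · exact h3.trans h1
          · exact absurd ⟨u, hu, h3⟩ hv
      · rw [part_neg hw]
  · by_cases hv : D F v
    · rw [part_pos hv]; exact hg.2.1 v
    · rw [part_neg hv]
  · have h1 : part g F (D_iff hg hf hF) [a, b] = [a, b] := by
      by_cases hv : D F [a, b]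
      · rw [part_pos hv]; exact hf _ (by simpa using hN)
      · rw [part_neg hv]
    rw [h1]
    simp

theorem part_closure {g : Equiv.Perm X} (hg : Good g) {N n : ℕ} (hN : 2 ≤ N) (hn : n ≤ N)
    (hf : Fix g N) (F : Finset X) (hF : ∀ u ∈ F, u.length = n) :
    part g F (D_iff hg hf (fun u hu => (hF u hu).le.trans hn)) ∈ Subgroup.closure (S n) := by
  classical
  induction F using Finset.induction_on with
  | empty =>
    have : part g ∅ (D_iff hg hf (fun u hu => (hF u hu).le.trans hn)) = 1 := by
      apply Equiv.ext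
      intro v
      exact part_neg (fun h => by obtain ⟨u, hu, -⟩ := h; simp at hu)
    rw [this]
    exact one_mem _
  | insert u F hu ih =>
    have hF' : ∀ u ∈ F, u.length = n := fun v hv => hF v (Finset.mem_insert_of_mem hv)
    have hul : u.length = n := hF u (Finset.mem_insert_self _ _)
    have hu1 : ∀ v ∈ ({u} : Finset X), v.length ≤ N := by
      intro v hv
      rw [Finset.mem_singleton] at hv
      rw [hv, hul]; exact hn
    have key : part g (insert u F) (D_iff hg hf (fun u hu => (hF u hu).le.trans hn)) =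
        part g {u} (D_iff hg hf hu1) *
          part g F (D_iff hg hf (fun u hu => (hF' u hu).le.trans hn)) := by
      apply Equiv.ext
      intro v
      rw [Equiv.Perm.mul_apply]
      by_cases hv : D F v
      · have h1 : D (insert u F) v := by
          obtain ⟨w, hw, h⟩ := hv
          exact ⟨w, Finset.mem_insert_of_mem hw, h⟩
        rw [part_pos h1, part_pos hv, part_neg]
        rintro ⟨w, hw, h⟩
        rw [Finset.mem_singleton] at hw
        subst hw
        obtain ⟨w', hw', h'⟩ := (D_iff hg hf (fun u hu => (hF' u hu).le.trans hn) v).1 hv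
        have h2 : w = w' := by
          rcases List.prefix_or_prefix_of_prefix h h' with h3 | h3
          · exact h3.eq_of_length (by rw [hul, hF' w' hw'])
          · exact (h3.eq_of_length (by rw [hul, hF' w' hw'])).symm
        rw [h2] at hu
        exact hu hw'
      · rw [part_neg hv]
        by_cases hv2 : u <+: v
        · rw [part_pos ⟨u, Finset.mem_insert_self _ _, hv2⟩,
            part_pos ⟨u, Finset.mem_singleton_self _, hv2⟩]
        · rw [part_neg, part_neg]
          · rintro ⟨w, hw, h⟩
            rw [Finset.mem_singleton] at hw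
            rw [hw] at h
            exact hv2 h
          · rintro ⟨w, hw, h⟩
            rcases Finset.mem_insert.1 hw with h3 | h3
            · rw [h3] at h; exact hv2 h
            · exact hv ⟨w, h3, h⟩
    rw [key]
    refine mul_mem (Subgroup.subset_closure ⟨part_mem hg hN hf hu1, u, hul, fun v hv => ?_⟩) (ih hF')
    refine part_neg ?_
    rintro ⟨w, hw, h⟩
    rw [Finset.mem_singleton] at hw
    rw [hw] at h
    exact hv h

theorem mem_closure_of_fix {g : Equiv.Perm X} (hg : Good g) {N n : ℕ} (hN : 2 ≤ N) (hn : n ≤ N)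
    (hf : Fix g N) : g ∈ Subgroup.closure (S n) := by
  have h := part_closure hg hN hn hf (List.finite_length_eq Bool n).toFinset (by
    intro u hu
    rw [Set.Finite.mem_toFinset] at hu
    exact hu)
  convert h using 1
  apply Equiv.ext
  intro v
  by_cases hv : v.length < n
  · by_cases hD : D (List.finite_length_eq Bool n).toFinset v
    · rw [part_pos hD]
    · rw [part_neg hD]
      exact hf v (hv.le.trans hn)
  · rw [part_pos]
    refine ⟨v.take n, ?_, List.take_prefix n v⟩
    rw [Set.Finite.mem_toFinset]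
    show (v.take n).length = n
    rw [List.length_take]
    omega

/-- the action on level `N` -/
def rho (N : ℕ) : L →* Equiv.Perm (List.Vector Bool N) where
  toFun g :=
    { toFun := fun v => ⟨g.1 v.1, by rw [(show Good g.1 from g.2).2.1, v.2]⟩
      invFun := fun v => ⟨g⁻¹.1 v.1, by rw [(show Good g⁻¹.1 from (g⁻¹).2).2.1, v.2]⟩
      left_inv := fun v => Subtype.ext (g.1.symm_apply_apply v.1)
      right_inv := fun v => Subtype.ext (g.1.apply_symm_apply v.1) }
  map_one' := rfl
  map_mul' g h := rfl

theorem fix_of_rho {N : ℕ} {g : L} (h : rho N g = 1) : Fix g.1 N := by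
  intro v hv
  have hg : Good g.1 := g.2
  -- extend `v` to level `N`
  obtain ⟨w, hw⟩ : ∃ w, w = v ++ List.replicate (N - v.length) false := ⟨_, rfl⟩
  have hwl : w.length = N := by
    rw [hw, List.length_append, List.length_replicate]
    omega
  have h1 : g.1 w = w := by
    have h2 := congrArg (fun f => (f ⟨w, hwl⟩ : List.Vector Bool N)) h
    exact congrArg Subtype.val h2
  have h3 : v <+: w := by rw [hw]; exact List.prefix_append _ _
  have h4 : g.1 v <+: w := by
    have := (hg.1 _ _).1 h3
    rwa [h1] at this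
  rcases List.prefix_or_prefix_of_prefix h4 h3 with h5 | h5
  · exact h5.eq_of_length (hg.2.1 v)
  · exact (h5.eq_of_length (hg.2.1 v).symm).symm

/-! ### Transport to another model of the tree -/

theorem transport {V : Type} (e : V ≃ X) :
    ¬ (∀ L' : Subgroup (Equiv.Perm V),
      (∀ g ∈ L', ∀ v w : V, e v <+: e w ↔ e (g v) <+: e (g w)) →
      (∀ v w : V, (e v).length = (e w).length → ∃ g ∈ L', g v = w) →
      (∀ n : ℕ, ((Subgroup.closure {g : Equiv.Perm V | g ∈ L' ∧ ∃ u : V, (e u).length = n ∧
        ∀ v : V, ¬ e u <+: e v → g v = v}).subgroupOf L').index ≠ 0) →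
      ∀ φ : L' ≃* L', ∃ σ : Equiv.Perm V, (∀ v w : V, e v <+: e w ↔ e (σ v) <+: e (σ w)) ∧
        ∀ g : L', (φ g).1 = σ * g.1 * σ⁻¹) := by
  intro H
  let c : Equiv.Perm V ≃* Equiv.Perm X :=
    { Equiv.permCongr e with
      map_mul' := fun g h => by
        apply Equiv.ext
        intro x
        simp [Equiv.permCongr_apply] }
  have hc : ∀ (g : Equiv.Perm V) (x : X), c g x = e (g (e.symm x)) := fun g x => rfl
  have hcs : ∀ (g : Equiv.Perm X) (v : V), c.symm g v = e.symm (g (e v)) := fun g x => rfl
  let L' : Subgroup (Equiv.Perm V) := L.comap c.toMonoidHom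
  have hL' : ∀ g, g ∈ L' ↔ c g ∈ L := fun g => Iff.rfl
  let ψ : L' ≃* L :=
    { toFun := fun g => ⟨c g.1, g.2⟩
      invFun := fun g => ⟨c.symm g.1, by rw [hL', MulEquiv.apply_symm_apply]; exact g.2⟩
      left_inv := fun g => Subtype.ext (c.symm_apply_apply g.1)
      right_inv := fun g => Subtype.ext (c.apply_symm_apply g.1)
      map_mul' := fun g h => Subtype.ext (map_mul c g.1 h.1) }
  have A1 : ∀ g ∈ L', ∀ v w : V, e v <+: e w ↔ e (g v) <+: e (g w) := by
    intro g hg v w
    have hg' : Good (c g) := hg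
    have := hg'.1 (e v) (e w)
    simpa [hc] using this
  have A2 : ∀ v w : V, (e v).length = (e w).length → ∃ g ∈ L', g v = w := by
    intro v w h
    obtain ⟨g, hg, hgv⟩ := transitive (e v) (e w) h
    refine ⟨c.symm g, by rw [hL', MulEquiv.apply_symm_apply]; exact hg, ?_⟩
    rw [hcs, hgv, Equiv.symm_apply_apply]
  have A3 : ∀ n : ℕ, ((Subgroup.closure {g : Equiv.Perm V | g ∈ L' ∧ ∃ u : V, (e u).length = n ∧
        ∀ v : V, ¬ e u <+: e v → g v = v}).subgroupOf L').index ≠ 0 := by
    intro n
    have hfin : ((rho (n + 2)).comp ψ.toMonoidHom).ker.FiniteIndex := inferInstance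
    have hle : ((rho (n + 2)).comp ψ.toMonoidHom).ker ≤
        (Subgroup.closure {g : Equiv.Perm V | g ∈ L' ∧ ∃ u : V, (e u).length = n ∧
          ∀ v : V, ¬ e u <+: e v → g v = v}).subgroupOf L' := by
      intro g hg
      have h0 : rho (n + 2) (ψ g) = 1 := hg
      have hf := fix_of_rho h0
      have hm := mem_closure_of_fix (ψ g).2 (n := n) (by omega) (by omega) hf
      rw [Subgroup.mem_subgroupOf]
      have h3 : c.symm (ψ g).1 ∈ (Subgroup.closure (S n)).map c.symm.toMonoidHom :=
        ⟨_, hm, rfl⟩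
      rw [MonoidHom.map_closure] at h3
      have h4 : c.symm (ψ g).1 = g.1 := c.symm_apply_apply g.1
      rw [h4] at h3
      refine Subgroup.closure_mono ?_ h3
      rintro _ ⟨x, ⟨hx, u, hu, hv⟩, rfl⟩
      refine ⟨?_, e.symm u, by rw [Equiv.apply_symm_apply]; exact hu, fun v hv' => ?_⟩
      · show c (c.symm x) ∈ L
        rw [MulEquiv.apply_symm_apply]; exact hx
      · show e.symm (x (e v)) = v
        rw [hv (e v) (by rwa [Equiv.apply_symm_apply] at hv'), Equiv.symm_apply_apply]
    have := Subgroup.finiteIndex_of_le hle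
    exact this.index_ne_zero
  obtain ⟨σ, h1, h2⟩ := H L' A1 A2 A3 (ψ.trans (phi.trans ψ.symm))
  refine no_sigma (c σ) (fun v w => ?_) (fun g => ?_)
  · have := h1 (e.symm v) (e.symm w)
    simpa [hc] using this
  · have h3 := h2 (ψ.symm g)
    have h4 : ((ψ.trans (phi.trans ψ.symm)) (ψ.symm g)).1 = c.symm (phi g).1 := by
      show (ψ.symm (phi (ψ (ψ.symm g)))).1 = _
      rw [MulEquiv.apply_symm_apply]
      rfl
    rw [h4] at h3
    have h5 : (phi g).1 = c (σ * (ψ.symm g).1 * σ⁻¹) := by
      rw [← h3, MulEquiv.apply_symm_apply]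
    have h6 : c (ψ.symm g).1 = g.1 := c.apply_symm_apply g.1
    rw [h5, map_mul, map_mul, map_inv, h6]

end Pool.Agent.U747.Branch
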