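import Pool.Agent.U747.KS
import Pool.Agent.U747.Branch

/-!
# The automorphism group of the binary rooted tree is commensurable with its cube
-/

set_option autoImplicit false

namespace Pool.Agent.U747.Comm

/-- vertices of the binary rooted tree: finite words, ordered by the prefix relation; the level is
the length -/
abbrev X := List Bool

/-- automorphisms of the rooted tree -/
def AutT : Subgroup (Equiv.Perm X) where
  carrier := {g | (∀ v w : X, v <+: w ↔ g v <+: g w) ∧ ∀ v : X, (g v).length = v.length}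
  mul_mem' := fun {a b} ha hb => ⟨fun v w => (hb.1 v w).trans (ha.1 _ _),
    fun v => (ha.2 _).trans (hb.2 v)⟩
  one_mem' := ⟨fun _ _ => Iff.rfl, fun _ => rfl⟩
  inv_mem' := fun {a} ha => ⟨fun v w => by
    rw [ha.1 (a⁻¹ v) (a⁻¹ w)]
    simp, fun v => by
    have := ha.2 (a⁻¹ v)
    simp at this
    exact this.symm⟩

/-- the topology of pointwise convergence (the set of vertices is discrete) -/
instance topPerm : TopologicalSpace (Equiv.Perm X) :=
  TopologicalSpace.induced (fun g => (g : X → X)) (@Pi.topologicalSpace X (fun _ => X) (fun _ => ⊥))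

/-- the rigid vertex stabiliser `rist_U(u)` -/
def rist (U : Subgroup (Equiv.Perm X)) (u : X) : Subgroup (Equiv.Perm X) where
  carrier := {g | g ∈ U ∧ ∀ v : X, ¬ u <+: v → g v = v}
  mul_mem' := fun {a b} ha hb => ⟨U.mul_mem ha.1 hb.1, fun v hv => by
    rw [Equiv.Perm.mul_apply, hb.2 v hv, ha.2 v hv]⟩
  one_mem' := ⟨U.one_mem, fun _ _ => rfl⟩
  inv_mem' := fun {a} ha => ⟨U.inv_mem ha.1, fun v hv => by
    rw [Equiv.Perm.inv_eq_iff_eq, ha.2 v hv]⟩

/-- the rigid level stabiliser `rist_U(m)`, generated by the rigid stabilisers of the vertices of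
level `m` -/
def ristLevel (U : Subgroup (Equiv.Perm X)) (m : ℕ) : Subgroup (Equiv.Perm X) :=
  ⨆ u : {u : X // u.length = m}, rist U u

section graft

variable {ι : Type} (a : ι → X)

open Classical in
/-- act by `f i` below `a i` -/
noncomputable def gr (f : ι → X → X) (x : X) : X :=
  if h : ∃ i, a i <+: x then a h.choose ++ f h.choose (x.drop (a h.choose).length) else x

variable {a}

theorem gr_app (ha : ∀ i j, a i <+: a j → i = j) (f : ι → X → X) (i : ι) (r : X) :
    gr a f (a i ++ r) = a i ++ f i r := by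
  have h : ∃ j, a j <+: a i ++ r := ⟨i, r, rfl⟩
  have hc : h.choose = i := by
    rcases List.prefix_or_prefix_of_prefix h.choose_spec (List.prefix_append (a i) r) with h1 | h1
    · exact ha _ _ h1
    · exact (ha _ _ h1).symm
  unfold gr
  rw [dif_pos h, hc, List.drop_left]

theorem gr_neg (f : ι → X → X) {x : X} (h : ∀ i, ¬ a i <+: x) : gr a f x = x := by
  unfold gr
  rw [dif_neg (by push Not; exact h)]

theorem gr_cases (a : ι → X) (x : X) : (∃ i r, x = a i ++ r) ∨ (∀ i, ¬ a i <+: x) := by
  by_cases h : ∃ i, a i <+: x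
  · obtain ⟨i, r, hr⟩ := h
    exact Or.inl ⟨i, r, hr.symm⟩
  · push Not at h
    exact Or.inr h

theorem gr_comp (ha : ∀ i j, a i <+: a j → i = j) (f g : ι → X → X) (x : X) :
    gr a f (gr a g x) = gr a (fun i => f i ∘ g i) x := by
  rcases gr_cases a x with ⟨i, r, rfl⟩ | h
  · rw [gr_app ha, gr_app ha, gr_app ha]
    rfl
  · rw [gr_neg g h, gr_neg f h, gr_neg _ h]

theorem gr_id (ha : ∀ i j, a i <+: a j → i = j) (x : X) : gr a (fun _ => id) x = x := by
  rcases gr_cases a x with ⟨i, r, rfl⟩ | h
  · rw [gr_app ha]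
    rfl
  · rw [gr_neg _ h]

/-- the graft as a permutation -/
noncomputable def grPerm (ha : ∀ i j, a i <+: a j → i = j) (f : ι → Equiv.Perm X) :
    Equiv.Perm X where
  toFun := gr a (fun i => f i)
  invFun := gr a (fun i => (f i).symm)
  left_inv x := by
    rw [gr_comp ha]
    have : (fun i => ((f i).symm : X → X) ∘ (f i : X → X)) = fun _ => id := by
      funext i
      exact (f i).symm_comp_self
    rw [this, gr_id ha]
  right_inv x := by
    rw [gr_comp ha]
    have : (fun i => (f i : X → X) ∘ ((f i).symm : X → X)) = fun _ => id := by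
      funext i
      exact (f i).self_comp_symm
    rw [this, gr_id ha]

theorem gr_prefix (ha : ∀ i j, a i <+: a j → i = j) {f : ι → Equiv.Perm X}
    (hf : ∀ i, f i ∈ AutT) {v w : X} (h : v <+: w) :
    gr a (fun i => f i) v <+: gr a (fun i => f i) w := by
  rcases gr_cases a v with ⟨i, r, rfl⟩ | hv
  · obtain ⟨s, rfl⟩ := h
    rw [List.append_assoc, gr_app ha, gr_app ha, List.prefix_append_right_inj]
    exact ((hf i).1 _ _).1 (List.prefix_append _ _)
  · rw [gr_neg _ hv]
    rcases gr_cases a w with ⟨j, s, rfl⟩ | hw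
    · rw [gr_app ha]
      rcases List.prefix_or_prefix_of_prefix h (List.prefix_append (a j) s) with h1 | h1
      · exact h1.trans (List.prefix_append _ _)
      · exact absurd h1 (hv j)
    · rw [gr_neg _ hw]
      exact h

theorem gr_length (ha : ∀ i j, a i <+: a j → i = j) {f : ι → Equiv.Perm X}
    (hf : ∀ i, f i ∈ AutT) (v : X) : (gr a (fun i => f i) v).length = v.length := by
  rcases gr_cases a v with ⟨i, r, rfl⟩ | hv
  · rw [gr_app ha, List.length_append, List.length_append, (hf i).2]
  · rw [gr_neg _ hv]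

theorem grPerm_mem (ha : ∀ i j, a i <+: a j → i = j) {f : ι → Equiv.Perm X}
    (hf : ∀ i, f i ∈ AutT) : grPerm ha f ∈ AutT := by
  refine ⟨fun v w => ⟨fun h => gr_prefix ha hf h, fun h => ?_⟩, fun v => gr_length ha hf v⟩
  have h1 := gr_prefix ha (f := fun i => (f i)⁻¹) (fun i => AutT.inv_mem (hf i)) h
  have h2 : ∀ x, gr a (fun i => ((f i)⁻¹ : Equiv.Perm X)) ((grPerm ha f) x) = x :=
    fun x => (grPerm ha f).left_inv x
  rwa [h2, h2] at h1

/-- the graft homomorphism -/
noncomputable def grHom (ha : ∀ i j, a i <+: a j → i = j) : (ι → AutT) →* AutT where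
  toFun f := ⟨grPerm ha (fun i => (f i).1), grPerm_mem ha (fun i => (f i).2)⟩
  map_one' := by
    apply Subtype.ext
    ext1 x
    exact gr_id ha x
  map_mul' f g := by
    apply Subtype.ext
    ext1 x
    exact (gr_comp ha (fun i => (f i).1) (fun i => (g i).1) x).symm

theorem grHom_app (ha : ∀ i j, a i <+: a j → i = j) (f : ι → AutT) (i : ι) (r : X) :
    (grHom ha f).1 (a i ++ r) = a i ++ (f i).1 r :=
  gr_app ha (fun i => (f i).1) i r

theorem grHom_neg (ha : ∀ i j, a i <+: a j → i = j) (f : ι → AutT) {x : X}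
    (h : ∀ i, ¬ a i <+: x) : (grHom ha f).1 x = x := gr_neg (fun i => (f i).1) h

theorem grHom_inj (ha : ∀ i j, a i <+: a j → i = j) : Function.Injective (grHom ha) := by
  intro f g h
  funext i
  apply Subtype.ext
  ext1 r
  have h1 : (grHom ha f).1 (a i ++ r) = (grHom ha g).1 (a i ++ r) := by rw [h]
  rw [grHom_app, grHom_app] at h1
  exact List.append_cancel_left h1

/-! sections -/

theorem app_of_fix {g : Equiv.Perm X} (hg : g ∈ AutT) {u : X} (hu : g u = u) (r : X) :
    g (u ++ r) = u ++ (g (u ++ r)).drop u.length := by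
  have h1 : u <+: g (u ++ r) := by
    have := (hg.1 u (u ++ r)).1 (List.prefix_append _ _)
    rwa [hu] at this
  obtain ⟨s, hs⟩ := h1
  rw [← hs, List.drop_left]

/-- the section at a fixed vertex -/
def sec (g : Equiv.Perm X) (u : X) (r : X) : X := (g (u ++ r)).drop u.length

theorem app_sec {g : Equiv.Perm X} (hg : g ∈ AutT) {u : X} (hu : g u = u) (r : X) :
    g (u ++ r) = u ++ sec g u r := app_of_fix hg hu r

theorem inv_fix {g : Equiv.Perm X} {u : X} (hu : g u = u) : g⁻¹ u = u := by
  rw [Equiv.Perm.inv_eq_iff_eq, hu]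

theorem sec_sec {g h : Equiv.Perm X} (hh : h ∈ AutT) {u : X}
    (hu' : h u = u) (r : X) : sec g u (sec h u r) = sec (g * h) u r := by
  unfold sec
  rw [← app_of_fix hh hu' r]
  rfl

theorem sec_one (u r : X) : sec 1 u r = r := by
  unfold sec
  simp

/-- the section as a permutation -/
def secPerm {g : Equiv.Perm X} (hg : g ∈ AutT) {u : X} (hu : g u = u) : Equiv.Perm X where
  toFun := sec g u
  invFun := sec g⁻¹ u
  left_inv r := by
    rw [sec_sec hg hu, inv_mul_cancel, sec_one]
  right_inv r := by
    rw [sec_sec (AutT.inv_mem hg) (inv_fix hu), mul_inv_cancel, sec_one]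

theorem secPerm_mem {g : Equiv.Perm X} (hg : g ∈ AutT) {u : X} (hu : g u = u) :
    secPerm hg hu ∈ AutT := by
  constructor
  · intro v w
    change v <+: w ↔ sec g u v <+: sec g u w
    have h1 := hg.1 (u ++ v) (u ++ w)
    rw [app_sec hg hu, app_sec hg hu, List.prefix_append_right_inj,
      List.prefix_append_right_inj] at h1
    exact h1
  · intro v
    change (sec g u v).length = v.length
    have h1 := hg.2 (u ++ v)
    rw [app_sec hg hu, List.length_append, List.length_append] at h1
    omega

theorem mem_range (ha : ∀ i j, a i <+: a j → i = j)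
    (hc : ∀ x, (∃ i, a i <+: x) ∨ ∃ i, x <+: a i) {g : AutT} :
    g ∈ (grHom ha).range ↔ ∀ i, g.1 (a i) = a i := by
  constructor
  · rintro ⟨f, rfl⟩ i
    have := grHom_app ha f i []
    rw [List.append_nil] at this
    rw [this]
    have h2 := (f i).2.2 []
    rw [List.length_nil] at h2
    rw [List.eq_nil_of_length_eq_zero h2, List.append_nil]
  · intro h
    refine ⟨fun i => ⟨secPerm g.2 (h i), secPerm_mem g.2 (h i)⟩, ?_⟩
    apply Subtype.ext
    ext1 x
    rcases gr_cases a x with ⟨i, r, rfl⟩ | hx
    · rw [grHom_app]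
      exact (app_sec g.2 (h i) r).symm
    · rw [grHom_neg ha _ hx]
      rcases hc x with ⟨i, hi⟩ | ⟨i, hi⟩
      · exact absurd hi (hx i)
      · have h1 : g.1 x <+: a i := by
          have := (g.2.1 x (a i)).1 hi
          rwa [h i] at this
        have h2 := g.2.2 x
        exact (List.prefix_of_prefix_length_le hi h1 h2.ge).eq_of_length h2.symm

end graft

/-! ### Levels -/

/-- the vertices of level `m` -/
abbrev Lev (m : ℕ) := {u : X // u.length = m}

theorem lev_free (m : ℕ) : ∀ i j : Lev m, i.1 <+: j.1 → i = j := fun i j h =>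
  Subtype.ext (h.eq_of_length (i.2.trans j.2.symm))

theorem lev_complete (m : ℕ) (x : X) : (∃ i : Lev m, i.1 <+: x) ∨ ∃ i : Lev m, x <+: i.1 := by
  rcases le_total m x.length with h | h
  · exact Or.inl ⟨⟨x.take m, by simp [h]⟩, List.take_prefix _ _⟩
  · exact Or.inr ⟨⟨x ++ List.replicate (m - x.length) false, by simp [h]⟩, List.prefix_append _ _⟩

instance (m : ℕ) : Fintype (Lev m) := Fintype.ofEquiv (List.Vector Bool m) (Equiv.refl _)

theorem card_lev (m : ℕ) : Fintype.card (Lev m) = 2 ^ m := by
  have : Fintype.card (Lev m) = Fintype.card (List.Vector Bool m) :=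
    Fintype.card_congr (Equiv.refl _)
  rw [this, card_vector, Fintype.card_bool]

/-- an element supported below `u` fixes `u` -/
theorem fix_self {g : Equiv.Perm X} (hg : g ∈ AutT) {u : X} (h : ∀ v, ¬ u <+: v → g v = v) :
    g u = u := by
  by_contra hne
  have h1 : ¬ u <+: g⁻¹ u := by
    intro hp
    have hl : (g⁻¹ u).length = u.length := (AutT.inv_mem hg).2 u
    have := hp.eq_of_length hl.symm
    apply hne
    nth_rewrite 1 [this]
    simp
  have h2 : g (g⁻¹ u) = g⁻¹ u := h _ h1
  have h3 : g (g⁻¹ u) = u := g.apply_symm_apply u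
  exact h1 (by rw [← h2, h3])

theorem ristLevel_eq (m : ℕ) :
    ristLevel AutT m = ((grHom (lev_free m)).range).map AutT.subtype := by
  classical
  apply le_antisymm
  · refine iSup_le (fun u g hg => ?_)
    refine ⟨⟨g, hg.1⟩, ?_, rfl⟩
    refine (mem_range (lev_free m) (lev_complete m)).2 (fun i => ?_)
    change g i.1 = i.1
    by_cases hi : u.1 <+: i.1
    · have := lev_free m u i hi
      rw [← this]
      exact fix_self hg.1 hg.2
    · exact hg.2 _ hi
  · rintro _ ⟨_, ⟨f, rfl⟩, rfl⟩
    let H : Subgroup (Lev m → AutT) :=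
      (ristLevel AutT m).comap (AutT.subtype.comp (grHom (lev_free m)))
    change f ∈ H
    refine Subgroup.pi_mem_of_mulSingle_mem f (fun i => ?_)
    change ((grHom (lev_free m)) (Pi.mulSingle i (f i))).1 ∈ ristLevel AutT m
    refine Subgroup.mem_iSup_of_mem i ⟨((grHom (lev_free m)) (Pi.mulSingle i (f i))).2, ?_⟩
    intro v hv
    rcases gr_cases (fun j : Lev m => j.1) v with ⟨j, r, rfl⟩ | hx
    · rw [grHom_app]
      have hj : j ≠ i := by
        rintro rfl
        exact hv (List.prefix_append _ _)
      rw [Pi.mulSingle_eq_of_ne hj]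
      rfl
    · exact grHom_neg (lev_free m) _ hx

/-- `rist_U(m) ≅ U^(2^m)` for `U = Aut T` -/
noncomputable def ristEquiv (m : ℕ) : (Lev m → AutT) ≃* ristLevel AutT m :=
  ((grHom (lev_free m)).ofInjective (grHom_inj (lev_free m))).trans
    ((((grHom (lev_free m)).range).equivMapOfInjective AutT.subtype
      AutT.subtype_injective).trans (MulEquiv.subgroupCongr (ristLevel_eq m).symm))

/-! ### `Aut T` is centreless and indecomposable -/

/-- flip the first letter -/
def flipFun : X → X
  | [] => []
  | b :: r => (!b) :: r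

theorem flip_flip (x : X) : flipFun (flipFun x) = x := by
  rcases x with _ | ⟨b, r⟩
  · rfl
  · simp [flipFun]

theorem flip_prefix {v w : X} (h : v <+: w) : flipFun v <+: flipFun w := by
  obtain ⟨s, rfl⟩ := h
  rcases v with _ | ⟨b, r⟩
  · exact List.nil_prefix
  · exact ⟨s, rfl⟩

/-- flip of the first letter, as an automorphism -/
def flip : AutT := ⟨⟨flipFun, flipFun, flip_flip, flip_flip⟩, by
  refine ⟨fun v w => ⟨fun h => flip_prefix h, fun h => ?_⟩, fun v => ?_⟩
  · have := flip_prefix h
    change flipFun (flipFun v) <+: flipFun (flipFun w) at this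
    rwa [flip_flip, flip_flip] at this
  · rcases v with _ | ⟨b, r⟩ <;> rfl⟩

theorem unit_free (u : X) : ∀ i j : Unit, (fun _ : Unit => u) i <+: (fun _ : Unit => u) j → i = j :=
  fun _ _ _ => rfl

/-- flip of the letter after `u` -/
noncomputable def flipAt (u : X) : AutT := grHom (unit_free u) (fun _ => flip)

theorem flipAt_app (u r : X) : (flipAt u).1 (u ++ r) = u ++ flipFun r :=
  grHom_app (unit_free u) (fun _ => flip) () r

theorem flipAt_neg {u x : X} (h : ¬ u <+: x) : (flipAt u).1 x = x :=
  grHom_neg (unit_free u) (fun _ => flip) (fun _ => h)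

theorem transitive (v w : X) (h : v.length = w.length) : ∃ g : AutT, g.1 v = w := by
  obtain ⟨c, hc⟩ := Branch.exists_mask v w h
  refine ⟨⟨Branch.maskPerm c, (Branch.maskPerm_mem c).1, (Branch.maskPerm_mem c).2.1⟩, hc⟩

theorem exists_move {g : AutT} (h : g ≠ 1) : ∃ v, g.1 v ≠ v := by
  by_contra hc
  push Not at hc
  exact h (Subtype.ext (Equiv.ext hc))

theorem cless : KS.Cless AutT := by
  intro z hz
  by_contra hne
  obtain ⟨v, hv⟩ := exists_move hne
  have h1 := hz (flipAt v)
  have h2 : z.1 ((flipAt v).1 (v ++ [false])) = (flipAt v).1 (z.1 (v ++ [false])) := by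
    have := congrArg (fun g : AutT => g.1 (v ++ [false])) h1
    exact this
  rw [flipAt_app, flipAt_neg] at h2
  · have h3 := z.1.injective h2
    have h4 := List.append_cancel_left h3
    simp [flipFun] at h4
  · intro hp
    have h3 : z.1 v <+: z.1 (v ++ [false]) := (z.2.1 _ _).1 (List.prefix_append _ _)
    apply hv
    have h4 := z.2.2 v
    exact (List.prefix_of_prefix_length_le h3 hp h4.le).eq_of_length h4

theorem trick {N : Subgroup AutT} (hN : N.Normal) {a : AutT} (ha : a ∈ N) {v : X}
    (hv : a.1 v ≠ v) {g : AutT} (hg : ∀ x, ¬ v <+: x → g.1 x = x) :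
    ∃ a' ∈ N, ∀ x, v <+: x → a'.1 x = g.1 x := by
  refine ⟨a * (g⁻¹ * a⁻¹ * g⁻¹⁻¹), N.mul_mem ha (hN.conj_mem _ (N.inv_mem ha) _), fun x hx => ?_⟩
  have hgv : g.1 v = v := fix_self g.2 hg
  have h1 : v <+: g.1 x := by
    have := (g.2.1 v x).1 hx
    rwa [hgv] at this
  rw [inv_inv]
  change a.1 (g⁻¹.1 (a⁻¹.1 (g.1 x))) = g.1 x
  have h2 : ¬ v <+: a⁻¹.1 (g.1 x) := by
    intro hp
    have h3 := (a.2.1 _ _).1 hp
    have h4 : a.1 (a⁻¹.1 (g.1 x)) = g.1 x := a.1.apply_symm_apply _
    rw [h4] at h3
    apply hv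
    have h5 := a.2.2 v
    exact (List.prefix_of_prefix_length_le h3 h1 h5.le).eq_of_length h5
  have h3 : g⁻¹.1 (a⁻¹.1 (g.1 x)) = a⁻¹.1 (g.1 x) := by
    have := hg _ h2
    have h4 : g⁻¹.1 (g.1 (a⁻¹.1 (g.1 x))) = a⁻¹.1 (g.1 x) := g.1.symm_apply_apply _
    rwa [this] at h4
  rw [h3]
  exact a.1.apply_symm_apply _

theorem no_commuting {M C : Subgroup AutT} (hM : M.Normal) (hC : C.Normal)
    (hcomm : ∀ a ∈ M, ∀ b ∈ C, a * b = b * a) {a b : AutT} (ha : a ∈ M) (hb : b ∈ C)
    {v w : X} (hv : a.1 v ≠ v) (hw : b.1 w ≠ w) (hl : v.length ≤ w.length) : False := by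
  obtain ⟨w', hw'⟩ : ∃ w', w' = v ++ List.replicate (w.length - v.length) false := ⟨_, rfl⟩
  have hlen : w.length = w'.length := by simp [hw', hl]
  obtain ⟨c, hc⟩ := transitive w w' hlen
  have hb' : c * b * c⁻¹ ∈ C := hC.conj_mem b hb c
  have hwb : (c * b * c⁻¹).1 w' ≠ w' := by
    intro h
    apply hw
    change c.1 (b.1 (c⁻¹.1 w')) = w' at h
    have h1 : c⁻¹.1 w' = w := by
      rw [← hc]
      exact c.1.symm_apply_apply _
    rw [h1, ← hc] at h
    exact c.1.injective h
  have hvw : v <+: w' := by rw [hw']; exact List.prefix_append _ _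
  have hg : ∀ x, ¬ v <+: x → (flipAt w').1 x = x := fun x hx =>
    flipAt_neg (fun h => hx (hvw.trans h))
  have hg' : ∀ x, ¬ w' <+: x → (flipAt (w' ++ [false])).1 x = x := fun x hx =>
    flipAt_neg (fun h => hx ((List.prefix_append _ _).trans h))
  obtain ⟨a1, ha1, e1⟩ := trick hM ha hv hg
  obtain ⟨b1, hb1, e2⟩ := trick hC hb' hwb hg'
  have h1 := congrArg (fun g : AutT => g.1 (w' ++ [false, false])) (hcomm a1 ha1 b1 hb1)
  change a1.1 (b1.1 (w' ++ [false, false])) = b1.1 (a1.1 (w' ++ [false, false])) at h1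
  rw [e2 _ (List.prefix_append _ _), e1 (w' ++ [false, false]) (hvw.trans (List.prefix_append _ _)),
    flipAt_app] at h1
  have h2 : (flipAt (w' ++ [false])).1 (w' ++ [false, false]) = w' ++ [false, true] := by
    have := flipAt_app (w' ++ [false]) [false]
    simpa [flipFun] using this
  rw [h2, e1 (w' ++ [false, true]) (hvw.trans (List.prefix_append _ _)), flipAt_app,
    e2 _ (List.prefix_append _ _)] at h1
  have h3 : (flipAt (w' ++ [false])).1 (w' ++ flipFun [false, false]) = w' ++ [true, false] := by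
    refine flipAt_neg ?_
    intro h
    rw [List.prefix_append_right_inj] at h
    simp [flipFun] at h
  rw [h3] at h1
  have h4 := List.append_cancel_left h1
  simp [flipFun] at h4

theorem indec : KS.Indec AutT := by
  intro M hM
  by_contra hne
  push Not at hne
  obtain ⟨h1, h2⟩ := hne
  have hMn : M.Normal := by
    refine ⟨fun x hx g => ?_⟩
    obtain ⟨m, hm, c, hc, rfl⟩ := hM g
    have h3 : x * c = c * x := Subgroup.mem_centralizer_iff.1 hc x hx
    have h4 : m * c * x * (m * c)⁻¹ = m * x * m⁻¹ := by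
      rw [mul_assoc m c x, ← h3]
      group
    rw [h4]
    exact M.mul_mem (M.mul_mem hm hx) (M.inv_mem hm)
  have hCn : (Subgroup.centralizer (M : Set AutT)).Normal := by
    refine ⟨fun x hx g => ?_⟩
    rw [Subgroup.mem_centralizer_iff] at hx ⊢
    intro y hy
    have h3 := hx (g⁻¹ * y * g⁻¹⁻¹) (hMn.conj_mem y hy g⁻¹)
    rw [inv_inv] at h3
    calc y * (g * x * g⁻¹) = g * ((g⁻¹ * y * g) * x) * g⁻¹ := by group
      _ = g * (x * (g⁻¹ * y * g)) * g⁻¹ := by rw [h3]
      _ = g * x * g⁻¹ * y := by group
  obtain ⟨a, ha, ha1⟩ : ∃ x ∈ M, x ≠ 1 := by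
    by_contra h
    push Not at h
    exact h1 (by rw [eq_bot_iff]; exact fun x hx => Subgroup.mem_bot.2 (h x hx))
  obtain ⟨b, hb, hb1⟩ : ∃ x ∈ Subgroup.centralizer (M : Set AutT), x ≠ 1 := by
    by_contra h
    push Not at h
    apply h2
    rw [eq_top_iff]
    intro g _
    obtain ⟨m, hm, c, hc, rfl⟩ := hM g
    rw [h c hc, mul_one]
    exact hm
  obtain ⟨v, hv⟩ := exists_move ha1
  obtain ⟨w, hw⟩ := exists_move hb1
  rcases le_total v.length w.length with hl | hl
  · exact no_commuting hMn hCn (fun x hx y hy => Subgroup.mem_centralizer_iff.1 hy x hx) ha hb hv hw hl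
  · exact no_commuting hCn hMn (fun x hx y hy => (Subgroup.mem_centralizer_iff.1 hx y hy).symm)
      hb ha hw hv hl

theorem nontriv : ∃ g : AutT, g ≠ 1 := by
  refine ⟨flip, fun h => ?_⟩
  have := congrArg (fun g : AutT => g.1 [false]) h
  change flipFun [false] = [false] at this
  simp [flipFun] at this

/-- `rist_U(m)` is not a cube -/
theorem no_cube (m : ℕ) (K : Type) [Group K] (e : ristLevel AutT m ≃* (Fin 3 → K)) : False := by
  classical
  have h1 := KS.three_dvd cless indec nontriv ((ristEquiv m).trans e)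
  rw [card_lev] at h1
  have := (Nat.Prime.dvd_of_dvd_pow Nat.prime_three h1)
  omega

/-! ### Topology -/

theorem cont_iff {Y : Type} [TopologicalSpace Y] (F : Y → Equiv.Perm X) :
    Continuous F ↔ ∀ x v : X, IsOpen {y | F y x = v} := by
  rw [continuous_induced_rng]
  let _ : TopologicalSpace X := ⊥
  have : DiscreteTopology X := ⟨rfl⟩
  rw [continuous_pi_iff]
  refine forall_congr' (fun x => ?_)
  rw [continuous_discrete_rng]
  rfl

theorem isOpen_eval (x v : X) : IsOpen {g : Equiv.Perm X | g x = v} :=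
  (cont_iff (fun g : Equiv.Perm X => g)).1 continuous_id x v

theorem isOpen_evalU (x v : X) : IsOpen {g : AutT | g.1 x = v} :=
  (isOpen_eval x v).preimage continuous_subtype_val

theorem isOpen_pred {Y : Type} [TopologicalSpace Y] (F : Y → Equiv.Perm X) (hF : Continuous F)
    (x : X) (P : X → Prop) : IsOpen {y | P (F y x)} := by
  have : {y | P (F y x)} = ⋃ v ∈ {v | P v}, {y | F y x = v} := by
    ext y
    simp
  rw [this]
  exact isOpen_biUnion (fun v _ => (cont_iff F).1 hF x v)

theorem isClosed_AutT : IsClosed (AutT : Set (Equiv.Perm X)) := by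
  have h : (AutT : Set (Equiv.Perm X)) =
      (⋂ v : X, ⋂ w : X, {g | (v <+: w ↔ g v <+: g w)}) ∩ ⋂ v : X, {g | (g v).length = v.length} := by
    ext g
    simp only [Set.mem_inter_iff, Set.mem_iInter]
    rfl
  rw [h]
  refine IsClosed.inter (isClosed_iInter (fun v => isClosed_iInter (fun w => ?_)))
    (isClosed_iInter (fun v => ?_))
  · rw [← isOpen_compl_iff]
    have : {g : Equiv.Perm X | (v <+: w ↔ g v <+: g w)}ᶜ =
        ⋃ u : X, {g | g v = u} ∩ {g | ¬ (v <+: w ↔ u <+: g w)} := by
      ext g
      simp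
    rw [this]
    refine isOpen_iUnion (fun u => (isOpen_eval v u).inter ?_)
    exact isOpen_pred (fun g => g) continuous_id w (fun z => ¬ (v <+: w ↔ u <+: z))
  · rw [← isOpen_compl_iff]
    exact isOpen_pred (fun g => g) continuous_id v (fun z => ¬ (z.length = v.length))

/-! ### Finite index -/

theorem finite_index (m : ℕ) : ((ristLevel AutT m).subgroupOf AutT).index ≠ 0 := by
  classical
  -- the action on the level
  let rho : AutT →* Equiv.Perm (Lev m) :=
    { toFun := fun g =>
        { toFun := fun v => ⟨g.1 v.1, by rw [g.2.2, v.2]⟩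
          invFun := fun v => ⟨g⁻¹.1 v.1, by rw [(g⁻¹).2.2, v.2]⟩
          left_inv := fun v => Subtype.ext (g.1.symm_apply_apply v.1)
          right_inv := fun v => Subtype.ext (g.1.apply_symm_apply v.1) }
      map_one' := rfl
      map_mul' := fun _ _ => rfl }
  have hker : rho.ker ≤ (ristLevel AutT m).subgroupOf AutT := by
    intro g hg
    rw [Subgroup.mem_subgroupOf, ristLevel_eq]
    refine ⟨g, (mem_range (lev_free m) (lev_complete m)).2 (fun i => ?_), rfl⟩
    have h1 : rho g i = i := by rw [MonoidHom.mem_ker.1 hg]; rfl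
    exact congrArg Subtype.val h1
  intro h0
  have h1 := Subgroup.index_dvd_of_le hker
  rw [h0, zero_dvd_iff, Subgroup.index_ker] at h1
  have : Finite rho.range := inferInstance
  exact Nat.card_pos.ne' h1

/-! ### `U` is commensurable with `U^3` -/

/-- the complete prefix code `0, 10, 11` -/
def code : Fin 3 → X := ![[false], [true, false], [true, true]]

theorem code_free : ∀ i j, code i <+: code j → i = j := by decide

theorem code_complete (x : X) : (∃ i, code i <+: x) ∨ ∃ i, x <+: code i := by
  rcases x with _ | ⟨a, x⟩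
  · exact Or.inr ⟨0, List.nil_prefix⟩
  · cases a
    · exact Or.inl ⟨0, x, rfl⟩
    · rcases x with _ | ⟨b, x⟩
      · exact Or.inr ⟨1, [false], rfl⟩
      · cases b
        · exact Or.inl ⟨1, x, rfl⟩
        · exact Or.inl ⟨2, x, rfl⟩

/-- two topological groups are commensurable: some open subgroups are topologically isomorphic -/
def Commensurable (A B : Type) [Group A] [TopologicalSpace A] [Group B] [TopologicalSpace B] :
    Prop :=
  ∃ (O : Subgroup A) (O' : Subgroup B), IsOpen (O : Set A) ∧ IsOpen (O' : Set B) ∧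
    Nonempty (O ≃ₜ* O')

/-- the open subgroup -/
noncomputable def O3 : Subgroup AutT := (grHom code_free).range

theorem isOpen_O3 : IsOpen (O3 : Set AutT) := by
  have : (O3 : Set AutT) = ⋂ i, {g : AutT | g.1 (code i) = code i} := by
    ext g
    rw [Set.mem_iInter]
    exact mem_range code_free code_complete
  rw [this]
  exact isOpen_iInter_of_finite (fun i => isOpen_evalU _ _)

theorem cont_grHom : Continuous (grHom code_free) := by
  refine Continuous.subtype_mk ?_ _
  rw [cont_iff]
  intro x v
  rcases gr_cases code x with ⟨i, r, rfl⟩ | hx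
  · have : {y : Fin 3 → AutT | grPerm code_free (fun i => (y i).1) (code i ++ r) = v} =
        {y : Fin 3 → AutT | code i ++ (y i).1 r = v} := by
      ext y
      have : grPerm code_free (fun i => (y i).1) (code i ++ r) = code i ++ (y i).1 r :=
        grHom_app code_free y i r
      show _ = _ ↔ _ = _
      rw [this]
    rw [this]
    exact isOpen_pred (fun y : Fin 3 → AutT => (y i).1)
      (continuous_subtype_val.comp (continuous_apply i)) r (fun z => code i ++ z = v)
  · have : {y : Fin 3 → AutT | grPerm code_free (fun i => (y i).1) x = v} =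
        {_y : Fin 3 → AutT | x = v} := by
      ext y
      have : grPerm code_free (fun i => (y i).1) x = x :=
        grHom_neg code_free y hx
      show _ = _ ↔ _ = _
      rw [this]
    rw [this]
    exact isOpen_const

/-- the isomorphism -/
noncomputable def e3 : (Fin 3 → AutT) ≃* O3 := (grHom code_free).ofInjective (grHom_inj code_free)

theorem e3_symm_app (g : O3) (i : Fin 3) (r : X) :
    code i ++ ((e3.symm g) i).1 r = g.1.1 (code i ++ r) := by
  have h1 : (e3 (e3.symm g)).1 = g.1 := by rw [MulEquiv.apply_symm_apply]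
  rw [← h1]
  exact (grHom_app code_free (e3.symm g) i r).symm

theorem cont_e3_symm : Continuous e3.symm := by
  refine continuous_pi (fun i => ?_)
  rw [Topology.IsInducing.subtypeVal.continuous_iff]
  change Continuous (fun g : O3 => ((e3.symm g) i).1)
  rw [cont_iff]
  intro r v
  have : {g : O3 | ((e3.symm g) i).1 r = v} = {g : O3 | g.1.1 (code i ++ r) = code i ++ v} := by
    ext g
    show _ = _ ↔ _ = _
    rw [← e3_symm_app]
    exact ⟨fun h => by rw [h], fun h => List.append_cancel_left h⟩
  rw [this]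
  exact (isOpen_evalU _ _).preimage continuous_subtype_val

theorem commensurable : Commensurable AutT (Fin 3 → AutT) := by
  refine ⟨O3, ⊤, isOpen_O3, isOpen_univ, ⟨?_⟩⟩
  exact
    { e3.symm.trans Subgroup.topEquiv.symm with
      continuous_toFun := by
        change Continuous (fun g : O3 => (⟨e3.symm g, trivial⟩ : (⊤ : Subgroup (Fin 3 → AutT))))
        exact Continuous.subtype_mk cont_e3_symm _
      continuous_invFun := by
        change Continuous (fun g : (⊤ : Subgroup (Fin 3 → AutT)) => e3 g.1)
        have h : Continuous (fun f : Fin 3 → AutT => e3 f) := by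
          rw [Topology.IsInducing.subtypeVal.continuous_iff]
          exact cont_grHom
        exact h.comp continuous_subtype_val }

/-- `U` is a profinite branch group on the binary rooted tree -/
structure IsProfiniteBranch (U : Subgroup (Equiv.Perm X)) : Prop where
  /-- it acts by automorphisms of the rooted tree -/
  le : U ≤ AutT
  /-- it is closed -/
  closed : IsClosed (U : Set (Equiv.Perm X))
  /-- it is transitive on every level -/
  trans : ∀ v w : X, v.length = w.length → ∃ g ∈ U, g v = w
  /-- all rigid level stabilisers have finite index -/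
  branch : ∀ m : ℕ, ((ristLevel U m).subgroupOf U).index ≠ 0

theorem isBranch : IsProfiniteBranch AutT where
  le := le_rfl
  closed := isClosed_AutT
  trans v w h := by
    obtain ⟨g, hg⟩ := transitive v w h
    exact ⟨g.1, g.2, hg⟩
  branch := finite_index

end Pool.Agent.U747.Comm
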