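import Mathlib

/-!
# Direct factors of powers of an indecomposable centreless group

If `L` is a nontrivial centreless directly indecomposable group, `I` a finite type and
`(I → L) ≃* (Fin 3 → K)`, then `3 ∣ card I`.
-/

set_option autoImplicit false

namespace Pool.Agent.U747.KS

variable {G H K L : Type} [Group G] [Group H] [Group K] [Group L]

/-- `M` is a direct factor (for a centreless group): `G = M C_G(M)` -/
def IsFac (M : Subgroup G) : Prop :=
  ∀ g : G, ∃ m ∈ M, ∃ c ∈ Subgroup.centralizer (M : Set G), g = m * c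

/-- minimal nontrivial direct factors -/
def IsAtm (M : Subgroup G) : Prop :=
  M ≠ ⊥ ∧ IsFac M ∧ ∀ N : Subgroup G, N ≤ M → IsFac N → N ≠ ⊥ → N = M

/-- trivial centre -/
def Cless (G : Type) [Group G] : Prop := ∀ z : G, (∀ g : G, z * g = g * z) → z = 1

theorem Cless.of_equiv (e : G ≃* H) (h : Cless G) : Cless H := by
  intro z hz
  have : e.symm z = 1 := h _ (fun g => by
    have := hz (e g)
    have := congrArg e.symm this
    simpa using this)
  simpa using congrArg e this

theorem Cless.pi {ι : Type} (h : Cless L) : Cless (ι → L) := by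
  classical
  intro z hz
  funext i
  refine h _ (fun g => ?_)
  have := congrFun (hz (Pi.mulSingle i g)) i
  simpa using this

theorem IsFac.map (e : G ≃* H) {M : Subgroup G} (h : IsFac M) : IsFac (M.map e.toMonoidHom) := by
  intro g
  obtain ⟨m, hm, c, hc, hg⟩ := h (e.symm g)
  refine ⟨e m, ⟨m, hm, rfl⟩, e c, ?_, ?_⟩
  · rw [Subgroup.mem_centralizer_iff] at hc ⊢
    rintro _ ⟨x, hx, rfl⟩
    have := congrArg e (hc x hx)
    simpa using this
  · have := congrArg e hg
    simpa using this

theorem map_symm_map (e : G ≃* H) (N : Subgroup H) :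
    (N.map e.symm.toMonoidHom).map e.toMonoidHom = N := by
  ext x
  constructor
  · rintro ⟨_, ⟨y, hy, rfl⟩, rfl⟩
    simpa using hy
  · intro hx
    exact ⟨e.symm x, ⟨x, hx, rfl⟩, by simp⟩

theorem map_eq_bot (e : G ≃* H) {N : Subgroup G} (h : N.map e.toMonoidHom = ⊥) : N = ⊥ := by
  rw [eq_bot_iff]
  intro x hx
  have : e x ∈ N.map e.toMonoidHom := ⟨x, hx, rfl⟩
  rw [h, Subgroup.mem_bot] at this
  rw [Subgroup.mem_bot]
  simpa using this

theorem IsAtm.map (e : G ≃* H) {M : Subgroup G} (h : IsAtm M) : IsAtm (M.map e.toMonoidHom) := by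
  obtain ⟨h1, h2, h3⟩ := h
  refine ⟨fun hb => h1 (map_eq_bot e hb), h2.map e, fun N hN hf hb => ?_⟩
  have h4 := h3 (N.map e.symm.toMonoidHom) ?_ (hf.map e.symm) (fun hb' => hb (map_eq_bot e.symm hb'))
  · rw [← h4, map_symm_map]
  · rintro _ ⟨y, hy, rfl⟩
    obtain ⟨x, hx, hxy⟩ := hN hy
    have : e.symm y = x := by rw [← hxy]; simp
    change e.symm y ∈ M
    rw [this]
    exact hx

/-- a double centraliser statement -/
theorem IsFac.cc (hG : Cless G) {M : Subgroup G} (h : IsFac M) {z : G}
    (hz : ∀ c ∈ Subgroup.centralizer (M : Set G), c * z = z * c) : z ∈ M := by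
  obtain ⟨m, hm, c, hc, rfl⟩ := h z
  have hc' := Subgroup.mem_centralizer_iff.1 hc
  have : c = 1 := by
    refine hG c (fun g => ?_)
    obtain ⟨m', hm', c', hc2, rfl⟩ := h g
    have hc2' := Subgroup.mem_centralizer_iff.1 hc2
    have e1 : m' * c = c * m' := hc' m' hm'
    have e2 : c' * (m * c) = m * c * c' := hz c' hc2
    have e3 : m * c' = c' * m := hc2' m hm
    have e4 : c' * c = c * c' := by
      have : m * (c' * c) = m * (c * c') := by
        rw [← mul_assoc, e3, mul_assoc, e2, mul_assoc]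
      exact mul_left_cancel this
    calc c * (m' * c') = (c * m') * c' := by group
      _ = m' * (c * c') := by rw [← e1]; group
      _ = m' * c' * c := by rw [← e4]; group
  rw [this, mul_one]
  exact hm

section pi

variable {ι : Type} [DecidableEq ι]

/-- the `i`-th coordinate subgroup -/
def hat (L : Type) [Group L] (i : ι) : Subgroup (ι → L) := (MonoidHom.mulSingle (fun _ : ι => L) i).range

theorem mem_hat {i : ι} {x : ι → L} : x ∈ hat L i ↔ x = Pi.mulSingle i (x i) := by
  constructor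
  · rintro ⟨y, rfl⟩
    simp
  · intro h
    exact ⟨x i, h.symm⟩

theorem comp_mem (hL : Cless L) {M : Subgroup (ι → L)} (h : IsFac M) {x : ι → L} (hx : x ∈ M)
    (i : ι) : Pi.mulSingle i (x i) ∈ M := by
  refine h.cc (hL.pi) (fun c hc => ?_)
  have := Subgroup.mem_centralizer_iff.1 hc x hx
  funext j
  by_cases hj : j = i
  · subst hj
    simpa using (congrFun this j).symm
  · simp [Pi.mulSingle_eq_of_ne hj]

theorem inf_fac (hL : Cless L) {M : Subgroup (ι → L)} (h : IsFac M) (i : ι) :
    IsFac (M ⊓ hat L i) := by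
  intro g
  obtain ⟨m, hm, c, hc, hg⟩ := h (Pi.mulSingle i (g i))
  have hi : g i = m i * c i := by simpa using congrFun hg i
  refine ⟨Pi.mulSingle i (m i), ⟨comp_mem hL h hm i, ⟨m i, rfl⟩⟩, (Pi.mulSingle i (m i))⁻¹ * g, ?_,
    by group⟩
  rw [Subgroup.mem_centralizer_iff]
  rintro z ⟨hz, hz'⟩
  have hzc := Subgroup.mem_centralizer_iff.1 hc z hz
  have hzi : z i * c i = c i * z i := congrFun hzc i
  have hz2 := mem_hat.1 hz'
  funext j
  by_cases hj : j = i
  · subst hj
    simp only [Pi.mul_apply, Pi.inv_apply, Pi.mulSingle_eq_same, hi]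
    rw [inv_mul_cancel_left]
    exact hzi
  · have : z j = 1 := by rw [hz2]; simp [Pi.mulSingle_eq_of_ne hj]
    simp [this]

/-- `L` is directly indecomposable -/
def Indec (L : Type) [Group L] : Prop := ∀ M : Subgroup L, IsFac M → M = ⊥ ∨ M = ⊤

theorem eq_hat (hI : Indec L) {M : Subgroup (ι → L)} (h : IsFac M) {i : ι}
    (hM : M ≤ hat L i) (hb : M ≠ ⊥) : M = hat L i := by
  have hf : IsFac (M.comap (MonoidHom.mulSingle (fun _ : ι => L) i)) := by
    intro g
    obtain ⟨m, hm, c, hc, hg⟩ := h (Pi.mulSingle i g)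
    have hi : g = m i * c i := by simpa using congrFun hg i
    refine ⟨m i, ?_, c i, ?_, hi⟩
    · rw [Subgroup.mem_comap]
      have := mem_hat.1 (hM hm)
      change Pi.mulSingle i (m i) ∈ M
      rw [← this]
      exact hm
    · rw [Subgroup.mem_centralizer_iff]
      intro z hz
      have hz' : (Pi.mulSingle i z : ι → L) ∈ M := hz
      have := Subgroup.mem_centralizer_iff.1 hc _ hz'
      simpa using congrFun this i
  rcases hI _ hf with h1 | h1
  · exfalso
    apply hb
    rw [eq_bot_iff]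
    intro x hx
    have h2 := mem_hat.1 (hM hx)
    have h3 : x i ∈ M.comap (MonoidHom.mulSingle (fun _ : ι => L) i) := by
      rw [Subgroup.mem_comap]
      change Pi.mulSingle i (x i) ∈ M
      rw [← h2]
      exact hx
    rw [h1, Subgroup.mem_bot] at h3
    rw [Subgroup.mem_bot, h2, h3]
    simp
  · apply le_antisymm hM
    rintro _ ⟨y, rfl⟩
    have : y ∈ M.comap (MonoidHom.mulSingle (fun _ : ι => L) i) := by rw [h1]; trivial
    exact this

theorem hat_ne_bot (hn : ∃ g : L, g ≠ 1) (i : ι) : hat L i ≠ ⊥ := by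
  intro h
  obtain ⟨g, hg⟩ := hn
  have : (Pi.mulSingle i g : ι → L) ∈ hat L i := ⟨g, rfl⟩
  rw [h, Subgroup.mem_bot] at this
  apply hg
  simpa using congrFun this i

theorem hat_fac (i : ι) : IsFac (hat L i) := by
  intro g
  refine ⟨Pi.mulSingle i (g i), ⟨g i, rfl⟩, (Pi.mulSingle i (g i))⁻¹ * g, ?_, by group⟩
  rw [Subgroup.mem_centralizer_iff]
  rintro _ ⟨z, rfl⟩
  funext j
  by_cases hj : j = i
  · subst hj
    simp
  · simp [Pi.mulSingle_eq_of_ne hj]

theorem hat_inj (hn : ∃ g : L, g ≠ 1) {i j : ι} (h : hat L i = hat L j) : i = j := by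
  obtain ⟨g, hg⟩ := hn
  by_contra hij
  have : (Pi.mulSingle i g : ι → L) ∈ hat L j := by rw [← h]; exact ⟨g, rfl⟩
  have h2 := congrFun (mem_hat.1 this) i
  rw [Pi.mulSingle_eq_same, Pi.mulSingle_eq_of_ne hij] at h2
  exact hg h2

theorem atm_iff (hL : Cless L) (hI : Indec L) (hn : ∃ g : L, g ≠ 1) (M : Subgroup (ι → L)) :
    IsAtm M ↔ ∃ i, M = hat L i := by
  constructor
  · rintro ⟨h1, h2, h3⟩
    obtain ⟨x, hx, hx1⟩ : ∃ x ∈ M, x ≠ 1 := by
      by_contra h
      push Not at h
      exact h1 (by rw [eq_bot_iff]; exact fun x hx => Subgroup.mem_bot.2 (h x hx))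
    obtain ⟨i, hi⟩ : ∃ i, x i ≠ 1 := by
      by_contra h
      push Not at h
      exact hx1 (funext h)
    have hmem : Pi.mulSingle i (x i) ∈ M ⊓ hat L i := ⟨comp_mem hL h2 hx i, ⟨x i, rfl⟩⟩
    have hne : M ⊓ hat L i ≠ ⊥ := by
      intro h
      rw [h, Subgroup.mem_bot] at hmem
      exact hi (by simpa using congrFun hmem i)
    have h4 := h3 _ inf_le_left (inf_fac hL h2 i) hne
    exact ⟨i, eq_hat hI h2 (by rw [← h4]; exact inf_le_right) h1⟩
  · rintro ⟨i, rfl⟩
    exact ⟨hat_ne_bot hn i, hat_fac i, fun N hN hf hb => eq_hat hI hf hN hb⟩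

end pi

/-- the cyclic shift of `K^3` -/
def shift (K : Type) [Group K] : (Fin 3 → K) ≃* (Fin 3 → K) where
  toFun x := fun i => x (i + 1)
  invFun x := fun i => x (i + 2)
  left_inv x := by funext i; fin_cases i <;> rfl
  right_inv x := by funext i; fin_cases i <;> rfl
  map_mul' x y := rfl

theorem three_dvd {I : Type} [Fintype I] [DecidableEq I] (hL : Cless L) (hI : Indec L)
    (hn : ∃ g : L, g ≠ 1) (e : (I → L) ≃* (Fin 3 → K)) : 3 ∣ Fintype.card I := by
  classical
  have hK3 : Cless (Fin 3 → K) := Cless.of_equiv e hL.pi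
  have hK : Cless K := by
    intro z hz
    have : (fun _ : Fin 3 => z) = 1 := hK3 _ (fun g => by funext i; exact hz (g i))
    exact congrFun this 0
  -- the set of atoms
  let α := {M : Subgroup (Fin 3 → K) // IsAtm M}
  let A : I → α := fun i => ⟨(hat L i).map e.toMonoidHom,
    ((atm_iff hL hI hn _).2 ⟨i, rfl⟩).map e⟩
  have hA : Function.Bijective A := by
    constructor
    · intro i j hij
      have h1 : (hat L i).map e.toMonoidHom = (hat L j).map e.toMonoidHom := congrArg Subtype.val hij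
      exact hat_inj hn (Subgroup.map_injective e.injective h1)
    · rintro ⟨M, hM⟩
      obtain ⟨i, hi⟩ := (atm_iff hL hI hn _).1 (hM.map e.symm)
      refine ⟨i, Subtype.ext ?_⟩
      change (hat L i).map e.toMonoidHom = M
      rw [← hi]
      exact map_symm_map e M
  let E : I ≃ α := Equiv.ofBijective A hA
  let _ : Fintype α := Fintype.ofEquiv I E
  have hcard : Fintype.card α = Fintype.card I := (Fintype.card_congr E).symm
  let f : Function.End α := fun M => ⟨M.1.map (shift K).toMonoidHom, M.2.map (shift K)⟩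
  have hf : f ^ 3 ^ 1 = 1 := by
    funext M
    apply Subtype.ext
    change (((M.1.map (shift K).toMonoidHom).map (shift K).toMonoidHom).map
      (shift K).toMonoidHom) = M.1
    rw [Subgroup.map_map, Subgroup.map_map]
    have : (((shift K).toMonoidHom.comp (shift K).toMonoidHom).comp (shift K).toMonoidHom) =
        MonoidHom.id _ := by
      ext x i
      fin_cases i <;> rfl
    rw [this, Subgroup.map_id]
  have : Fact (Nat.Prime 3) := ⟨Nat.prime_three⟩
  have key := Equiv.Perm.card_fixedPoints_modEq hf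
  have hfix : Fintype.card (Function.fixedPoints f) = 0 := by
    rw [Fintype.card_eq_zero_iff]
    refine ⟨fun ⟨M, hM⟩ => ?_⟩
    obtain ⟨h1, h2, h3⟩ := M.2
    have hM' : M.1.map (shift K).toMonoidHom = M.1 := congrArg Subtype.val hM
    obtain ⟨x, hx, hx1⟩ : ∃ x ∈ M.1, x ≠ 1 := by
      by_contra h
      push Not at h
      exact h1 (by rw [eq_bot_iff]; exact fun x hx => Subgroup.mem_bot.2 (h x hx))
    obtain ⟨i, hi⟩ : ∃ i, x i ≠ 1 := by
      by_contra h
      push Not at h
      exact hx1 (funext h)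
    have hmem : Pi.mulSingle i (x i) ∈ M.1 ⊓ hat K i := ⟨comp_mem hK h2 hx i, ⟨x i, rfl⟩⟩
    have hne : M.1 ⊓ hat K i ≠ ⊥ := by
      intro h
      rw [h, Subgroup.mem_bot] at hmem
      exact hi (by simpa using congrFun hmem i)
    have h4 := h3 _ inf_le_left (inf_fac hK h2 i) hne
    have h5 : shift K (Pi.mulSingle i (x i)) ∈ M.1 := by
      rw [← hM']
      exact ⟨_, hmem.1, rfl⟩
    rw [← h4] at h5
    have h6 := congrFun (mem_hat.1 h5.2) (i - 1)
    have e1 : (shift K (Pi.mulSingle i (x i))) (i - 1) = x i := by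
      change (Pi.mulSingle i (x i) : Fin 3 → K) (i - 1 + 1) = x i
      rw [sub_add_cancel, Pi.mulSingle_eq_same]
    rw [e1, Pi.mulSingle_eq_of_ne (by fin_cases i <;> decide)] at h6
    exact hi h6
  rw [hfix, hcard] at key
  exact (Nat.modEq_zero_iff_dvd).1 key

end Pool.Agent.U747.KS
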