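import Mathlib

/-!
# Twisted parity groups on the ternary rooted tree

For a set `S` of natural numbers, `U S` is the group of all automorphisms of the ternary rooted
tree whose local permutations have signs `p` satisfying, at every vertex `v`,
`∏ i, p (v i) = ∏ p (u)`, the second product over the proper prefixes `u` of `v` with
`|v| - 1 - |u| ∈ S`.
-/

set_option autoImplicit false

namespace Pool.Agent.U747.Twist

/-- vertices of the ternary rooted tree: finite words, ordered by the prefix relation; the level is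
the length -/
abbrev X := List (Fin 3)

/-- automorphisms of the rooted tree -/
def AutT : Subgroup (Equiv.Perm X) where
  carrier := {g | (∀ v w : X, v <+: w ↔ g v <+: g w) ∧ ∀ v : X, (g v).length = v.length}
  mul_mem' := fun {a b} ha hb => ⟨fun v w => (hb.1 v w).trans (ha.1 _ _),
    fun v => (ha.2 _).trans (hb.2 v)⟩
  one_mem' := ⟨fun _ _ => Iff.rfl, fun _ => rfl⟩
  inv_mem' := fun {a} ha => ⟨fun v w => by
    rw [ha.1 (a⁻¹ v) (a⁻¹ w)]
    simp, fun v => by
    have := ha.2 (a⁻¹ v)
    simp at this
    exact this.symm⟩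

/-- the topology of pointwise convergence (the set of vertices is discrete) -/
instance topPerm : TopologicalSpace (Equiv.Perm X) :=
  TopologicalSpace.induced (fun g => (g : X → X)) (@Pi.topologicalSpace X (fun _ => X) (fun _ => ⊥))

/-- the rigid vertex stabiliser `rist_U(u)` -/
def rist (U : Subgroup (Equiv.Perm X)) (u : X) : Subgroup (Equiv.Perm X) where
  carrier := {g | g ∈ U ∧ ∀ v : X, ¬ u <+: v → g v = v}
  mul_mem' := fun {a b} ha hb => ⟨U.mul_mem ha.1 hb.1, fun v hv => by
    rw [Equiv.Perm.mul_apply, hb.2 v hv, ha.2 v hv]⟩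
  one_mem' := ⟨U.one_mem, fun _ _ => rfl⟩
  inv_mem' := fun {a} ha => ⟨U.inv_mem ha.1, fun v hv => by
    rw [Equiv.Perm.inv_eq_iff_eq, ha.2 v hv]⟩

/-- the rigid level stabiliser `rist_U(m)`, generated by the rigid stabilisers of the vertices of
level `m` -/
def ristLevel (U : Subgroup (Equiv.Perm X)) (m : ℕ) : Subgroup (Equiv.Perm X) :=
  ⨆ u : {u : X // u.length = m}, rist U u

/-! ### Labels -/

theorem exists_last {g : Equiv.Perm X} (hg : g ∈ AutT) (v : X) (i : Fin 3) :
    ∃ j, g (v ++ [i]) = g v ++ [j] := by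
  obtain ⟨s, hs⟩ := (hg.1 v (v ++ [i])).1 (List.prefix_append _ _)
  have h1 := congrArg List.length hs
  rw [List.length_append, hg.2, hg.2, List.length_append] at h1
  have h2 : s.length = 1 := by simpa using h1
  obtain ⟨j, rfl⟩ := List.length_eq_one_iff.1 h2
  exact ⟨j, hs.symm⟩

/-- the letter that `g` puts after `g v` at the image of `v i` -/
def loc (g : Equiv.Perm X) (v : X) (i : Fin 3) : Fin 3 := (g (v ++ [i])).getD v.length 0

theorem loc_spec {g : Equiv.Perm X} (hg : g ∈ AutT) (v : X) (i : Fin 3) :
    g (v ++ [i]) = g v ++ [loc g v i] := by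
  obtain ⟨j, hj⟩ := exists_last hg v i
  have : loc g v i = j := by
    unfold loc
    rw [hj, ← hg.2 v]
    simp
  rw [this, hj]

theorem loc_bij {g : Equiv.Perm X} (hg : g ∈ AutT) (v : X) : Function.Bijective (loc g v) := by
  rw [← Finite.injective_iff_bijective]
  intro i j h
  have h1 := loc_spec hg v i
  rw [h, ← loc_spec hg v j] at h1
  have h2 := List.append_cancel_left (g.injective h1)
  simpa using h2

open Classical in
/-- the local permutation of `g` at `v` -/
noncomputable def lab (g : Equiv.Perm X) (v : X) : Equiv.Perm (Fin 3) :=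
  if h : Function.Bijective (loc g v) then Equiv.ofBijective _ h else 1

theorem lab_spec {g : Equiv.Perm X} (hg : g ∈ AutT) (v : X) (i : Fin 3) :
    g (v ++ [i]) = g v ++ [lab g v i] := by
  unfold lab
  rw [dif_pos (loc_bij hg v)]
  exact loc_spec hg v i

theorem lab_unique {g : Equiv.Perm X} (hg : g ∈ AutT) {v : X} {σ : Equiv.Perm (Fin 3)}
    (h : ∀ i, g (v ++ [i]) = g v ++ [σ i]) : lab g v = σ := by
  ext1 i
  have h1 := lab_spec hg v i
  rw [h i] at h1
  have h2 := List.append_cancel_left h1
  simpa using h2.symm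

theorem lab_mul {g h : Equiv.Perm X} (hg : g ∈ AutT) (hh : h ∈ AutT) (v : X) :
    lab (g * h) v = lab g (h v) * lab h v := by
  refine lab_unique (AutT.mul_mem hg hh) (fun i => ?_)
  rw [Equiv.Perm.mul_apply, lab_spec hh, lab_spec hg]
  rfl

theorem lab_one (v : X) : lab 1 v = 1 := lab_unique AutT.one_mem (fun _ => rfl)

theorem nil_fix {g : Equiv.Perm X} (hg : g ∈ AutT) : g [] = [] :=
  List.eq_nil_of_length_eq_zero (hg.2 [])

theorem lab_eq_one {g : Equiv.Perm X} (hg : g ∈ AutT) {v : X} (h : ∀ i, g (v ++ [i]) = v ++ [i]) :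
    lab g v = 1 := by
  refine lab_unique hg (fun i => ?_)
  have h1 : g v = v := by
    have := lab_spec hg v 0
    rw [h 0] at this
    exact (List.append_inj_left this (hg.2 v).symm).symm
  rw [h i, h1]
  rfl

/-! ### Automorphisms from portraits -/

/-- the action of a portrait on a word -/
def actF : (X → Equiv.Perm (Fin 3)) → X → X
  | _, [] => []
  | σ, i :: w => σ [] i :: actF (fun v => σ (i :: v)) w

/-- the inverse of the action of a portrait on a word -/
def actI : (X → Equiv.Perm (Fin 3)) → X → X
  | _, [] => []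
  | σ, j :: w => (σ []).symm j :: actI (fun v => σ ((σ []).symm j :: v)) w

theorem actI_actF (w : X) : ∀ σ : X → Equiv.Perm (Fin 3), actI σ (actF σ w) = w := by
  induction w with
  | nil => intro σ; rfl
  | cons i w ih =>
    intro σ
    simp only [actF, actI, Equiv.symm_apply_apply]
    rw [ih]

theorem actF_actI (w : X) : ∀ σ : X → Equiv.Perm (Fin 3), actF σ (actI σ w) = w := by
  induction w with
  | nil => intro σ; rfl
  | cons i w ih =>
    intro σ
    simp only [actF, actI, Equiv.apply_symm_apply]
    rw [ih]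

theorem length_actF (w : X) : ∀ σ : X → Equiv.Perm (Fin 3), (actF σ w).length = w.length := by
  induction w with
  | nil => intro σ; rfl
  | cons i w ih =>
    intro σ
    simp only [actF, List.length_cons]
    rw [ih]

theorem actF_append (v w : X) : ∀ σ : X → Equiv.Perm (Fin 3),
    actF σ (v ++ w) = actF σ v ++ actF (fun u => σ (v ++ u)) w := by
  induction v with
  | nil => intro σ; rfl
  | cons i v ih =>
    intro σ
    simp only [actF, List.cons_append]
    rw [ih]

theorem actF_prefix (v : X) : ∀ (w : X) (σ : X → Equiv.Perm (Fin 3)),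
    v <+: w ↔ actF σ v <+: actF σ w := by
  induction v with
  | nil => intro w σ; simp [actF]
  | cons i v ih =>
    intro w σ
    cases w with
    | nil => simp [actF]
    | cons j w =>
      simp only [actF, List.cons_prefix_cons]
      constructor
      · rintro ⟨rfl, h⟩
        exact ⟨rfl, (ih w _).1 h⟩
      · rintro ⟨h1, h⟩
        have h2 : i = j := (σ []).injective h1
        subst h2
        exact ⟨rfl, (ih w _).2 h⟩

/-- the automorphism with a given portrait -/
def act (σ : X → Equiv.Perm (Fin 3)) : Equiv.Perm X :=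
  ⟨actF σ, actI σ, fun w => actI_actF w σ, fun w => actF_actI w σ⟩

theorem act_mem (σ : X → Equiv.Perm (Fin 3)) : act σ ∈ AutT :=
  ⟨fun v w => actF_prefix v w σ, fun v => length_actF v σ⟩

theorem act_app (σ : X → Equiv.Perm (Fin 3)) (v : X) : act σ v = actF σ v := rfl

theorem lab_act (σ : X → Equiv.Perm (Fin 3)) (v : X) : lab (act σ) v = σ v := by
  refine lab_unique (act_mem σ) (fun i => ?_)
  rw [act_app, act_app, actF_append]
  simp [actF]

theorem eq_actF {g : Equiv.Perm X} (hg : g ∈ AutT) (v : X) : g v = actF (lab g) v := by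
  induction v using List.reverseRecOn with
  | nil => exact nil_fix hg
  | append_singleton v i ih =>
    rw [lab_spec hg, ih, actF_append]
    simp [actF]

theorem app_append {g : Equiv.Perm X} (hg : g ∈ AutT) (v w : X) :
    g (v ++ w) = g v ++ actF (fun u => lab g (v ++ u)) w := by
  rw [eq_actF hg, eq_actF hg, actF_append]

theorem ext_lab {g h : Equiv.Perm X} (hg : g ∈ AutT) (hh : h ∈ AutT)
    (H : ∀ v, lab g v = lab h v) : g = h := by
  ext1 v
  rw [eq_actF hg, eq_actF hh]
  congr 1
  funext v
  exact H v

/-- a word all of whose proper prefixes have trivial label is fixed -/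
theorem actF_fix (w : X) : ∀ σ : X → Equiv.Perm (Fin 3),
    (∀ u, u <+: w → u ≠ w → σ u = 1) → actF σ w = w := by
  induction w with
  | nil => intro σ _; rfl
  | cons i w ih =>
    intro σ h
    simp only [actF]
    rw [h [] List.nil_prefix (by simp), ih]
    · rfl
    · intro u hu hne
      exact h (i :: u) (List.cons_prefix_cons.2 ⟨rfl, hu⟩) (by simpa using hne)

theorem actF_one (w : X) : actF (fun _ => 1) w = w := actF_fix w _ (fun _ _ _ => rfl)

theorem fix_prefix {g : Equiv.Perm X} (hg : g ∈ AutT) {u v : X} (h : g v = v) (huv : u <+: v) :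
    g u = u := by
  have h1 := (hg.1 u v).1 huv
  rw [h] at h1
  have h2 := hg.2 u
  exact ((List.prefix_of_prefix_length_le h1 huv h2.le).eq_of_length h2)

theorem take_app {g : Equiv.Perm X} (hg : g ∈ AutT) (v : X) (k : ℕ) :
    (g v).take k = g (v.take k) := by
  have h1 := (hg.1 (v.take k) v).1 (List.take_prefix _ _)
  have h2 := hg.2 (v.take k)
  have h3 := hg.2 v
  obtain ⟨s, hs⟩ := h1
  rw [← hs]
  rcases le_total k v.length with h | h
  · have h4 : (g (v.take k)).length = k := by rw [h2, List.length_take]; omega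
    exact List.take_left' h4
  · rw [List.take_of_length_le h] at hs ⊢
    have h4 : s = [] := by
      have := congrArg List.length hs
      rw [List.length_append] at this
      exact List.eq_nil_of_length_eq_zero (by omega)
    rw [h4, List.append_nil, List.take_of_length_le (by omega)]

/-! ### Grafting -/

open Classical in
/-- the portrait `σ` moved below `v` -/
noncomputable def gft (v : X) (σ : X → Equiv.Perm (Fin 3)) : X → Equiv.Perm (Fin 3) :=
  fun u => if v <+: u then σ (u.drop v.length) else 1

theorem gft_below (v : X) (σ : X → Equiv.Perm (Fin 3)) (r : X) : gft v σ (v ++ r) = σ r := by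
  unfold gft
  rw [if_pos (List.prefix_append _ _), List.drop_left]

theorem gft_out {v : X} (σ : X → Equiv.Perm (Fin 3)) {u : X} (h : ¬ v <+: u) : gft v σ u = 1 := by
  unfold gft
  rw [if_neg h]

theorem act_gft_out {v : X} (σ : X → Equiv.Perm (Fin 3)) {u : X} (h : ¬ v <+: u) :
    act (gft v σ) u = u := by
  rw [act_app]
  exact actF_fix u _ (fun u' hu' _ => gft_out σ (fun h' => h (h'.trans hu')))

theorem act_gft_self (v : X) (σ : X → Equiv.Perm (Fin 3)) : act (gft v σ) v = v := by
  rw [act_app]
  refine actF_fix v _ (fun u' hu' hne => gft_out σ (fun h' => hne ?_))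
  exact hu'.eq_of_length (le_antisymm hu'.length_le h'.length_le)

theorem act_gft_below (v : X) (σ : X → Equiv.Perm (Fin 3)) (r : X) :
    act (gft v σ) (v ++ r) = v ++ actF σ r := by
  rw [act_app, actF_append, ← act_app, act_gft_self]
  congr 2
  funext u
  exact gft_below v σ u

/-! ### The parity relation -/

/-- the sign of the local permutation -/
noncomputable def sg (g : Equiv.Perm X) (v : X) : ℤˣ := Equiv.Perm.sign (lab g v)

open Classical in
/-- the parity relation at `v` -/
def Rel (S : Set ℕ) (p : X → ℤˣ) (v : X) : Prop :=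
  ∏ i : Fin 3, p (v ++ [i]) =
    ∏ k ∈ Finset.range v.length, if v.length - 1 - k ∈ S then p (v.take k) else 1

theorem rel_one (S : Set ℕ) (v : X) : Rel S (fun _ => 1) v := by
  unfold Rel
  simp

theorem rel_mul {S : Set ℕ} {p q : X → ℤˣ} {v : X} (hp : Rel S p v) (hq : Rel S q v) :
    Rel S (fun u => p u * q u) v := by
  unfold Rel at *
  rw [Finset.prod_mul_distrib, hp, hq, ← Finset.prod_mul_distrib]
  refine Finset.prod_congr rfl (fun k _ => ?_)
  split_ifs <;> simp

theorem rel_comp {S : Set ℕ} {p : X → ℤˣ} {v : X} {h : Equiv.Perm X} (hh : h ∈ AutT) :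
    Rel S (fun u => p (h u)) v ↔ Rel S p (h v) := by
  unfold Rel
  rw [hh.2 v]
  have h1 : ∏ i : Fin 3, p (h (v ++ [i])) = ∏ i : Fin 3, p (h v ++ [i]) := by
    rw [← Equiv.prod_comp (lab h v) (fun i => p (h v ++ [i]))]
    refine Finset.prod_congr rfl (fun i _ => ?_)
    rw [lab_spec hh]
  rw [h1]
  simp only [take_app hh]

theorem rel_append {S : Set ℕ} {p : X → ℤˣ} (a w : X) (ha : ∀ k < a.length, p (a.take k) = 1) :
    Rel S p (a ++ w) ↔ Rel S (fun u => p (a ++ u)) w := by
  classical
  unfold Rel
  have h1 : ∏ k ∈ Finset.range (a ++ w).length,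
      (if (a ++ w).length - 1 - k ∈ S then p ((a ++ w).take k) else 1) =
      ∏ k ∈ Finset.range w.length, (if w.length - 1 - k ∈ S then p (a ++ w.take k) else 1) := by
    rw [List.length_append, Finset.prod_range_add]
    have h2 : ∏ k ∈ Finset.range a.length,
        (if a.length + w.length - 1 - k ∈ S then p ((a ++ w).take k) else 1) = 1 := by
      refine Finset.prod_eq_one (fun k hk => ?_)
      rw [Finset.mem_range] at hk
      have h3 : (a ++ w).take k = a.take k := List.take_append_of_le_length hk.le
      rw [h3, ha k hk]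
      simp
    rw [h2, one_mul]
    refine Finset.prod_congr rfl (fun k _ => ?_)
    have h3 : (a ++ w).take (a.length + k) = a ++ w.take k := List.take_length_add_append k
    have h4 : a.length + w.length - 1 - (a.length + k) = w.length - 1 - k := by omega
    rw [h3, h4]
  rw [h1]
  simp only [List.append_assoc]

theorem sg_mul {g h : Equiv.Perm X} (hg : g ∈ AutT) (hh : h ∈ AutT) (v : X) :
    sg (g * h) v = sg g (h v) * sg h v := by
  unfold sg
  rw [lab_mul hg hh, map_mul]

theorem sg_inv {g : Equiv.Perm X} (hg : g ∈ AutT) (v : X) : sg g⁻¹ v = sg g (g⁻¹ v) := by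
  have h1 := sg_mul hg (AutT.inv_mem hg) v
  rw [mul_inv_cancel] at h1
  have h2 : sg 1 v = 1 := by
    unfold sg
    rw [lab_one, map_one]
  rw [h2] at h1
  have h3 : sg g⁻¹ v = (sg g (g⁻¹ v))⁻¹ := eq_inv_of_mul_eq_one_right h1.symm
  rw [h3, Int.units_inv_eq_self]

/-- the twisted parity group of `S` -/
def U (S : Set ℕ) : Subgroup (Equiv.Perm X) where
  carrier := {g | g ∈ AutT ∧ ∀ v, Rel S (sg g) v}
  mul_mem' := fun {a b} ha hb => ⟨AutT.mul_mem ha.1 hb.1, fun v => by
    have h1 : sg (a * b) = fun u => sg a (b u) * sg b u := by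
      funext u
      exact sg_mul ha.1 hb.1 u
    rw [h1]
    exact rel_mul ((rel_comp hb.1).2 (ha.2 _)) (hb.2 v)⟩
  one_mem' := ⟨AutT.one_mem, fun v => by
    have h1 : sg 1 = fun _ => 1 := by
      funext u
      unfold sg
      rw [lab_one, map_one]
    rw [h1]
    exact rel_one S v⟩
  inv_mem' := fun {a} ha => ⟨AutT.inv_mem ha.1, fun v => by
    have h1 : sg a⁻¹ = fun u => sg a (a⁻¹ u) := by
      funext u
      exact sg_inv ha.1 u
    rw [h1]
    exact (rel_comp (AutT.inv_mem ha.1)).2 (ha.2 _)⟩

theorem U_le (S : Set ℕ) : U S ≤ AutT := fun _ hg => hg.1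

theorem act_mem_U {S : Set ℕ} {σ : X → Equiv.Perm (Fin 3)}
    (h : ∀ v, Rel S (fun u => Equiv.Perm.sign (σ u)) v) : act σ ∈ U S := by
  refine ⟨act_mem σ, fun v => ?_⟩
  have h1 : sg (act σ) = fun u => Equiv.Perm.sign (σ u) := by
    funext u
    unfold sg
    rw [lab_act]
  rw [h1]
  exact h v

/-- grafting preserves the relation, if the sign at the root is trivial -/
theorem rel_gft {S : Set ℕ} {σ : X → Equiv.Perm (Fin 3)}
    (h : ∀ v, Rel S (fun u => Equiv.Perm.sign (σ u)) v) (h0 : Equiv.Perm.sign (σ []) = 1) (v : X) :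
    ∀ w, Rel S (fun u => Equiv.Perm.sign (gft v σ u)) w := by
  intro w
  by_cases hw : v <+: w
  · obtain ⟨r, rfl⟩ := hw
    rw [rel_append]
    · simp only [gft_below]
      exact h r
    · intro k hk
      have : ¬ v <+: v.take k := fun h' => by
        have := h'.length_le
        rw [List.length_take] at this
        omega
      rw [gft_out _ this, map_one]
  · unfold Rel
    have h1 : ∀ k, gft v σ (w.take k) = 1 := fun k =>
      gft_out _ (fun h' => hw (h'.trans (List.take_prefix _ _)))
    have h2 : ∀ i, Equiv.Perm.sign (gft v σ (w ++ [i])) = 1 := by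
      intro i
      by_cases hi : v <+: w ++ [i]
      · have : v = w ++ [i] := by
          rcases List.prefix_concat_iff.1 hi with h' | h'
          · exact h'
          · exact absurd h' hw
        rw [← this]
        have h3 := gft_below v σ []
        rw [List.append_nil] at h3
        rw [h3, h0]
      · rw [gft_out _ hi, map_one]
    simp [h1, h2]

theorem gft_mem_rist {S : Set ℕ} {σ : X → Equiv.Perm (Fin 3)}
    (h : ∀ v, Rel S (fun u => Equiv.Perm.sign (σ u)) v) (h0 : Equiv.Perm.sign (σ []) = 1) (v : X) :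
    act (gft v σ) ∈ rist (U S) v :=
  ⟨act_mem_U (rel_gft h h0 v), fun _ hu => act_gft_out σ hu⟩

end Pool.Agent.U747.Twist
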