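import Pool.Agent.U747.Twist

/-!
# The groups `U S` are profinite branch groups
-/

set_option autoImplicit false

namespace Pool.Agent.U747.Twist

/-! ### Rotations and transitivity -/

theorem sign_rot (c : Fin 3) : Equiv.Perm.sign (Equiv.addRight c : Equiv.Perm (Fin 3)) = 1 := by
  revert c
  decide

/-- points of the boundary -/
abbrev B := ℕ → Fin 3

/-- the prefix of length `n` of a boundary point -/
def pre (x : B) (n : ℕ) : X := (List.range n).map x

theorem pre_length (x : B) (n : ℕ) : (pre x n).length = n := by simp [pre]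

theorem pre_succ (x : B) (n : ℕ) : pre x (n + 1) = pre x n ++ [x n] := by
  simp [pre, List.range_succ]

theorem pre_take (x : B) (n k : ℕ) : (pre x n).take k = pre x (min k n) := by
  unfold pre
  rw [← List.map_take, List.take_range]

theorem pre_prefix (x : B) {m n : ℕ} (h : m ≤ n) : pre x m <+: pre x n := by
  have : pre x m = (pre x n).take m := by rw [pre_take, min_eq_left h]
  rw [this]
  exact List.take_prefix _ _

theorem pre_of_prefix {x : B} {v : X} {n : ℕ} (h : v <+: pre x n) : pre x v.length = v := by
  have h1 : v.length ≤ n := by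
    have := h.length_le
    rwa [pre_length] at this
  have h2 := pre_prefix x h1
  exact (List.prefix_of_prefix_length_le h2 h (by rw [pre_length])).eq_of_length
    (by rw [pre_length])

theorem pre_inj {x y : B} (h : ∀ n, pre x n = pre y n) : x = y := by
  funext n
  have h1 := h (n + 1)
  rw [pre_succ, pre_succ, h n] at h1
  simpa using h1

/-- extend a word to a boundary point by zeros -/
def ext0 (v : X) : B := fun n => v.getD n 0

theorem pre_ext0 (v : X) : pre (ext0 v) v.length = v := by
  refine List.ext_getElem (by simp [pre]) (fun n h1 h2 => ?_)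
  simp [pre, ext0, h2]

open Classical in
/-- a rotation portrait along the path `x`, starting at level `k`, which moves `x` to `y` -/
noncomputable def rotP (k : ℕ) (x y : B) : X → Equiv.Perm (Fin 3) := fun u =>
  if k ≤ u.length ∧ u = pre x u.length then Equiv.addRight (y u.length - x u.length) else 1

theorem sign_rotP (k : ℕ) (x y : B) (u : X) : Equiv.Perm.sign (rotP k x y u) = 1 := by
  unfold rotP
  split_ifs
  · exact sign_rot _
  · exact map_one _

theorem rotP_mem (S : Set ℕ) (k : ℕ) (x y : B) : act (rotP k x y) ∈ U S := by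
  refine act_mem_U (fun v => ?_)
  have : (fun u => Equiv.Perm.sign (rotP k x y u)) = fun _ => 1 := by
    funext u
    exact sign_rotP k x y u
  rw [this]
  exact rel_one S v

/-- the action on the boundary -/
noncomputable def bd (g : Equiv.Perm X) (x : B) : B := fun n => lab g (pre x n) (x n)

theorem pre_bd {g : Equiv.Perm X} (hg : g ∈ AutT) (x : B) (n : ℕ) : pre (bd g x) n = g (pre x n) := by
  induction n with
  | zero =>
    have : pre x 0 = [] := rfl
    rw [this, nil_fix hg]
    rfl
  | succ n ih =>
    rw [pre_succ, pre_succ, lab_spec hg, ih]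
    rfl

theorem bd_mul {g h : Equiv.Perm X} (hg : g ∈ AutT) (hh : h ∈ AutT) (x : B) :
    bd (g * h) x = bd g (bd h x) := by
  refine pre_inj (fun n => ?_)
  rw [pre_bd (AutT.mul_mem hg hh), pre_bd hg, pre_bd hh]
  rfl

theorem bd_one (x : B) : bd 1 x = x := by
  refine pre_inj (fun n => ?_)
  rw [pre_bd AutT.one_mem]
  rfl

theorem bd_rot {k : ℕ} {x y : B} (h : pre x k = pre y k) : bd (act (rotP k x y)) x = y := by
  funext n
  unfold bd
  rw [lab_act]
  unfold rotP
  rw [pre_length]
  by_cases hn : k ≤ n
  · rw [if_pos ⟨hn, rfl⟩]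
    simp
  · rw [if_neg (fun h' => hn h'.1)]
    have h1 : pre x (n + 1) = pre y (n + 1) := by
      have h2 : pre x (n + 1) = (pre x k).take (n + 1) := by
        rw [pre_take, min_eq_left (by omega)]
      have h3 : pre y (n + 1) = (pre y k).take (n + 1) := by
        rw [pre_take, min_eq_left (by omega)]
      rw [h2, h3, h]
    rw [pre_succ, pre_succ] at h1
    have h2 := List.append_inj_right' h1 rfl
    simpa using h2

theorem rotP_rist (S : Set ℕ) (k : ℕ) (x y : B) : act (rotP k x y) ∈ rist (U S) (pre x k) := by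
  refine ⟨rotP_mem S k x y, fun v hv => ?_⟩
  rw [act_app]
  refine actF_fix v _ (fun u hu _ => ?_)
  unfold rotP
  rw [if_neg]
  rintro ⟨h1, h2⟩
  apply hv
  refine List.IsPrefix.trans ?_ hu
  rw [h2]
  exact pre_prefix x h1

/-- the rigid stabiliser of `v` is transitive on the boundary points below `v` -/
theorem rist_trans (S : Set ℕ) {v : X} {x y : B} (hx : pre x v.length = v)
    (hy : pre y v.length = v) : ∃ g ∈ rist (U S) v, bd g x = y := by
  refine ⟨act (rotP v.length x y), ?_, bd_rot (hx.trans hy.symm)⟩
  have := rotP_rist S v.length x y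
  rwa [hx] at this

theorem U_trans (S : Set ℕ) (v w : X) (h : v.length = w.length) : ∃ g ∈ U S, g v = w := by
  obtain ⟨g, hg, h1⟩ := rist_trans S (v := []) (x := ext0 v) (y := ext0 w) rfl rfl
  refine ⟨g, hg.1, ?_⟩
  have h2 := pre_bd (U_le S hg.1) (ext0 v) v.length
  rw [h1, pre_ext0] at h2
  rw [← h2, h, pre_ext0]

/-- the rotation at `v` by `c` -/
noncomputable def rotAt (v : X) (c : Fin 3) : Equiv.Perm X :=
  act (gft v (fun u => if u = [] then Equiv.addRight c else 1))

theorem rotAt_rist (S : Set ℕ) (v : X) (c : Fin 3) : rotAt v c ∈ rist (U S) v := by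
  have h : (fun u : X => Equiv.Perm.sign
      (if u = [] then (Equiv.addRight c : Equiv.Perm (Fin 3)) else 1)) = fun _ => 1 := by
    funext u
    split_ifs
    · exact sign_rot _
    · exact map_one _
  refine gft_mem_rist (fun w => ?_) ?_ v
  · rw [h]
    exact rel_one S w
  · exact congrFun h []

theorem rotAt_app (v : X) (c i : Fin 3) (r : X) : rotAt v c (v ++ i :: r) = v ++ (i + c) :: r := by
  unfold rotAt
  rw [act_gft_below]
  simp only [actF, if_true]
  congr 2
  refine actF_fix r _ (fun u _ _ => ?_)
  simp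

theorem rotAt_out {v u : X} (c : Fin 3) (h : ¬ v <+: u) : rotAt v c u = u :=
  act_gft_out _ h

theorem rotAt_bd {v : X} {x : B} (hx : pre x v.length = v) (c : Fin 3) :
    bd (rotAt v c) x v.length = x v.length + c := by
  unfold bd rotAt
  rw [lab_act, hx]
  have := gft_below v (fun u => if u = [] then (Equiv.addRight c : Equiv.Perm (Fin 3)) else 1) []
  rw [List.append_nil] at this
  rw [this]
  simp

/-! ### Fixing levels -/

/-- `g` fixes all words of length at most `n` -/
def Fix (n : ℕ) (g : Equiv.Perm X) : Prop := ∀ v : X, v.length ≤ n → g v = v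

theorem fix_of_rist {U : Subgroup (Equiv.Perm X)} (hU : U ≤ AutT) {v : X} {g : Equiv.Perm X}
    (hg : g ∈ rist U v) : Fix v.length g := by
  intro w hw
  by_cases h : v <+: w
  · have h1 : w = v := (h.eq_of_length (le_antisymm h.length_le hw)).symm
    subst h1
    by_contra hne
    have h2 : ¬ w <+: g⁻¹ w := by
      intro hp
      have hl : (g⁻¹ w).length = w.length := (AutT.inv_mem (hU hg.1)).2 w
      have := hp.eq_of_length hl.symm
      apply hne
      nth_rewrite 1 [this]
      simp
    have h3 : g (g⁻¹ w) = g⁻¹ w := hg.2 _ h2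
    have h4 : g (g⁻¹ w) = w := g.apply_symm_apply w
    exact h2 (by rw [← h3, h4])
  · exact hg.2 w h

theorem lab_fix {g : Equiv.Perm X} (hg : g ∈ AutT) {n : ℕ} (h : Fix n g) {v : X}
    (hv : v.length < n) : lab g v = 1 :=
  lab_eq_one hg (fun i => h _ (by simp; omega))

theorem rist_conj {U : Subgroup (Equiv.Perm X)} (hU : U ≤ AutT) {v : X} {g h : Equiv.Perm X}
    (hg : g ∈ rist U v) (hh : h ∈ U) : h * g * h⁻¹ ∈ rist U (h v) := by
  refine ⟨U.mul_mem (U.mul_mem hh hg.1) (U.inv_mem hh), fun w hw => ?_⟩
  have h1 : ¬ v <+: h⁻¹ w := by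
    intro h2
    apply hw
    have h3 := ((hU hh).1 _ _).1 h2
    have h4 : h (h⁻¹ w) = w := h.apply_symm_apply w
    rwa [h4] at h3
  change h (g (h⁻¹ w)) = w
  rw [hg.2 _ h1]
  exact h.apply_symm_apply w

theorem rist_mono {U : Subgroup (Equiv.Perm X)} {v w : X} (h : v <+: w) : rist U w ≤ rist U v :=
  fun _ hg => ⟨hg.1, fun u hu => hg.2 u (fun h' => hu (h.trans h'))⟩

/-- restriction of `g` to the subtree at `v` -/
theorem exists_restrict {S : Set ℕ} {g : Equiv.Perm X} (hg : g ∈ U S) {v : X}
    (hf : Fix (v.length + 1) g) :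
    ∃ h ∈ rist (U S) v, ∀ x, (v <+: x → h x = g x) ∧ (¬ v <+: x → h x = x) := by
  refine ⟨act (gft v (fun r => lab g (v ++ r))), gft_mem_rist (fun r => ?_) ?_ v,
    fun x => ⟨fun hx => ?_, fun hx => act_gft_out _ hx⟩⟩
  · have h1 := hg.2 (v ++ r)
    rw [rel_append] at h1
    · exact h1
    · intro k hk
      unfold sg
      rw [lab_fix hg.1 hf, map_one]
      rw [List.length_take]
      omega
  · rw [lab_fix hg.1 hf, map_one]
    simp
  · obtain ⟨r, rfl⟩ := hx
    rw [act_gft_below, app_append hg.1, hf v (by omega)]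

theorem fix_le_ristLevel {S : Set ℕ} {g : Equiv.Perm X} (hg : g ∈ U S) {l : ℕ}
    (hf : Fix (l + 1) g) : g ∈ ristLevel (U S) l := by
  classical
  have key : ∀ F : Finset X, (∀ w ∈ F, w.length = l) →
      ∃ h ∈ ristLevel (U S) l, ∀ x, h x = if x.take l ∈ F then g x else x := by
    intro F
    induction F using Finset.induction_on with
    | empty =>
      intro _
      exact ⟨1, Subgroup.one_mem _, fun x => by simp⟩
    | insert w F hw ih =>
      intro hF
      obtain ⟨h, hh, hx⟩ := ih (fun u hu => hF u (Finset.mem_insert_of_mem hu))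
      have hwl : w.length = l := hF w (Finset.mem_insert_self _ _)
      obtain ⟨k, hk, hk'⟩ := exists_restrict hg (v := w) (by rw [hwl]; exact hf)
      refine ⟨k * h, Subgroup.mul_mem _ ?_ hh, fun x => ?_⟩
      · exact Subgroup.mem_iSup_of_mem (⟨w, hwl⟩ : {u : X // u.length = l}) hk
      · rw [Equiv.Perm.mul_apply, hx x]
        have htk : ∀ y : X, w <+: y ↔ y.take l = w := by
          intro y
          constructor
          · rintro ⟨r, rfl⟩
            exact List.take_left' hwl
          · intro h'
            rw [← h']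
            exact List.take_prefix _ _
        have hgt : (g x).take l = x.take l := by
          rw [take_app hg.1]
          exact hf _ (by rw [List.length_take]; omega)
        by_cases h1 : x.take l ∈ F
        · rw [if_pos h1, if_pos (Finset.mem_insert_of_mem h1)]
          refine (hk' (g x)).2 (fun h2 => hw ?_)
          rw [htk, hgt] at h2
          rwa [← h2]
        · rw [if_neg h1]
          by_cases h2 : x.take l = w
          · rw [if_pos (by rw [h2]; exact Finset.mem_insert_self _ _)]
            exact (hk' x).1 ((htk x).2 h2)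
          · rw [if_neg]
            · exact (hk' x).2 (fun h3 => h2 ((htk x).1 h3))
            · intro h3
              rcases Finset.mem_insert.1 h3 with h4 | h4
              · exact h2 h4
              · exact h1 h4
  obtain ⟨h, hh, hx⟩ := key (List.finite_length_eq (Fin 3) l).toFinset (fun w hw => by
    simpa using hw)
  have : g = h := by
    ext1 x
    rw [hx x]
    split_ifs with h1
    · rfl
    · apply hf
      by_contra h2
      apply h1
      simp
      omega
  rw [this]
  exact hh

theorem fix_mem_of_rel {g h : Equiv.Perm X} {n : ℕ}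
    (H : ∀ v : X, v.length ≤ n → g v = h v) : Fix n (h⁻¹ * g) := by
  intro v hv
  rw [Equiv.Perm.mul_apply, H v hv]
  exact h.symm_apply_apply v

/-! ### Finite index -/

theorem finite_index (S : Set ℕ) (m : ℕ) : ((ristLevel (U S) m).subgroupOf (U S)).index ≠ 0 := by
  classical
  let rho : U S →* Equiv.Perm {u : X // u.length ≤ m + 1} :=
    { toFun := fun g =>
        { toFun := fun v => ⟨g.1 v.1, by rw [(U_le S g.2).2]; exact v.2⟩
          invFun := fun v => ⟨g⁻¹.1 v.1, by rw [(U_le S (g⁻¹).2).2]; exact v.2⟩
          left_inv := fun v => Subtype.ext (g.1.symm_apply_apply v.1)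
          right_inv := fun v => Subtype.ext (g.1.apply_symm_apply v.1) }
      map_one' := rfl
      map_mul' := fun _ _ => rfl }
  have hker : rho.ker ≤ (ristLevel (U S) m).subgroupOf (U S) := by
    intro g hg
    rw [Subgroup.mem_subgroupOf]
    refine fix_le_ristLevel g.2 (fun v hv => ?_)
    have h1 : rho g ⟨v, hv⟩ = ⟨v, hv⟩ := by rw [MonoidHom.mem_ker.1 hg]; rfl
    exact congrArg Subtype.val h1
  intro h0
  have h1 := Subgroup.index_dvd_of_le hker
  rw [h0, zero_dvd_iff, Subgroup.index_ker] at h1
  have hfin : Finite {u : X // u.length ≤ m + 1} := (List.finite_length_le (Fin 3) (m + 1)).to_subtype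
  have : Finite rho.range := inferInstance
  exact Nat.card_pos.ne' h1

/-! ### Topology -/

theorem cont_iff {Y : Type} [TopologicalSpace Y] (F : Y → Equiv.Perm X) :
    Continuous F ↔ ∀ x v : X, IsOpen {y | F y x = v} := by
  rw [continuous_induced_rng]
  let _ : TopologicalSpace X := ⊥
  have : DiscreteTopology X := ⟨rfl⟩
  rw [continuous_pi_iff]
  refine forall_congr' (fun x => ?_)
  rw [continuous_discrete_rng]
  rfl

theorem isOpen_eval (x v : X) : IsOpen {g : Equiv.Perm X | g x = v} :=
  (cont_iff (fun g : Equiv.Perm X => g)).1 continuous_id x v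

theorem isOpen_agree (h : Equiv.Perm X) (n : ℕ) :
    IsOpen {g : Equiv.Perm X | ∀ v : X, v.length ≤ n → g v = h v} := by
  have h1 : {g : Equiv.Perm X | ∀ v : X, v.length ≤ n → g v = h v} =
      ⋂ v ∈ {v : X | v.length ≤ n}, {g : Equiv.Perm X | g v = h v} := by
    ext g
    simp
  rw [h1]
  exact (List.finite_length_le (Fin 3) n).isOpen_biInter (fun v _ => isOpen_eval v _)

/-- every neighbourhood of `h` contains the elements that agree with `h` up to some level -/
theorem exists_agree {O : Set (Equiv.Perm X)} (hO : IsOpen O) {h : Equiv.Perm X} (h1 : h ∈ O) :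
    ∃ n : ℕ, ∀ g : Equiv.Perm X, (∀ v : X, v.length ≤ n → g v = h v) → g ∈ O := by
  let _ : TopologicalSpace X := ⊥
  have hind : Topology.IsInducing (fun g : Equiv.Perm X => (g : X → X)) := ⟨rfl⟩
  obtain ⟨O2, hO2, rfl⟩ := hind.isOpen_iff.1 hO
  rw [isOpen_pi_iff] at hO2
  obtain ⟨I, u, hu, hI⟩ := hO2 _ h1
  refine ⟨I.sup List.length, fun g hg => hI ?_⟩
  intro a ha
  have h2 : g a = h a := hg a (Finset.le_sup (f := List.length) ha)
  change g a ∈ u a
  rw [h2]
  exact (hu a ha).2

theorem isClosed_U (S : Set ℕ) : IsClosed (U S : Set (Equiv.Perm X)) := by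
  have hA : IsClosed (AutT : Set (Equiv.Perm X)) := by
    rw [← isOpen_compl_iff, isOpen_iff_forall_mem_open]
    intro g hg
    have hg' : ¬ ((∀ v w : X, v <+: w ↔ g v <+: g w) ∧ ∀ v : X, (g v).length = v.length) := hg
    rw [not_and_or] at hg'
    rcases hg' with h | h
    · push Not at h
      obtain ⟨v, w, h⟩ := h
      refine ⟨{f | f v = g v} ∩ {f | f w = g w}, ?_, (isOpen_eval _ _).inter (isOpen_eval _ _),
        ⟨rfl, rfl⟩⟩
      rintro f ⟨h1, h2⟩ hf
      have h3 := hf.1 v w
      rw [show f v = g v from h1, show f w = g w from h2] at h3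
      tauto
    · push Not at h
      obtain ⟨v, h⟩ := h
      refine ⟨{f | f v = g v}, ?_, isOpen_eval _ _, rfl⟩
      intro f h1 hf
      have h3 := hf.2 v
      rw [show f v = g v from h1] at h3
      exact h h3
  rw [← isOpen_compl_iff, isOpen_iff_forall_mem_open]
  intro g hg
  by_cases hgA : g ∈ AutT
  · have hg' : ¬ ∀ v, Rel S (sg g) v := fun h => hg ⟨hgA, h⟩
    push Not at hg'
    obtain ⟨v, hv⟩ := hg'
    refine ⟨{f | ∀ w : X, w.length ≤ v.length + 2 → f w = g w}, ?_, isOpen_agree _ _,
      fun _ _ => rfl⟩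
    intro f hf hfU
    apply hv
    have h1 := hfU.2 v
    have h2 : ∀ w : X, w.length ≤ v.length + 1 → sg f w = sg g w := by
      intro w hw
      unfold sg
      congr 1
      refine lab_unique hfU.1 (fun i => ?_)
      rw [hf _ (by simp; omega), hf w (by omega)]
      exact lab_spec hgA w i
    unfold Rel at h1 ⊢
    rw [← Finset.prod_congr rfl (fun i _ => h2 (v ++ [i]) (by simp)), h1]
    refine Finset.prod_congr rfl (fun k _ => ?_)
    rw [h2 (v.take k) (by rw [List.length_take]; omega)]
  · exact ⟨(AutT : Set (Equiv.Perm X))ᶜ, fun f hf hfU => hf hfU.1, hA.isOpen_compl, hgA⟩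

theorem isCompact_AutT : IsCompact (AutT : Set (Equiv.Perm X)) := by
  let _ : TopologicalSpace X := ⊥
  have hd : DiscreteTopology X := ⟨rfl⟩
  have hind : Topology.IsInducing (fun g : Equiv.Perm X => (g : X → X)) := ⟨rfl⟩
  rw [hind.isCompact_iff]
  have himg : (fun g : Equiv.Perm X => (g : X → X)) '' (AutT : Set (Equiv.Perm X)) =
      {f : X → X | ∀ v w : X, v <+: w ↔ f v <+: f w} ∩
        Set.pi Set.univ (fun v => {w : X | w.length = v.length}) := by
    ext f
    constructor
    · rintro ⟨g, hg, rfl⟩
      exact ⟨hg.1, fun v _ => hg.2 v⟩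
    · rintro ⟨h1, h2⟩
      have h3 : ∀ v, (f v).length = v.length := fun v => h2 v (Set.mem_univ v)
      have hinj : Function.Injective f := by
        intro v w h
        have h4 : v <+: w := (h1 v w).2 (by rw [h])
        refine h4.eq_of_length ?_
        rw [← h3 v, h, h3 w]
      have hsurj : Function.Surjective f := by
        intro u
        have hfin : Finite {w : X // w.length = u.length} :=
          (List.finite_length_eq (Fin 3) u.length).to_subtype
        let f' : {w : X // w.length = u.length} → {w : X // w.length = u.length} :=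
          fun w => ⟨f w.1, by rw [h3, w.2]⟩
        have hf' : Function.Injective f' := by
          intro a b hab
          exact Subtype.ext (hinj (congrArg Subtype.val hab))
        obtain ⟨w, hw⟩ := (Finite.injective_iff_surjective.1 hf') ⟨u, rfl⟩
        exact ⟨w.1, congrArg Subtype.val hw⟩
      exact ⟨Equiv.ofBijective f ⟨hinj, hsurj⟩, ⟨h1, h3⟩, rfl⟩
  rw [himg]
  refine IsCompact.inter_left ?_ ?_
  · exact isCompact_univ_pi (fun v => (List.finite_length_eq (Fin 3) v.length).isCompact)
  · have : {f : X → X | ∀ v w : X, v <+: w ↔ f v <+: f w} =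
        ⋂ v : X, ⋂ w : X, {f : X → X | v <+: w ↔ f v <+: f w} := by
      ext f
      simp
    rw [this]
    refine isClosed_iInter (fun v => isClosed_iInter (fun w => ?_))
    have hc : Continuous (fun f : X → X => (f v, f w)) :=
      (continuous_apply v).prodMk (continuous_apply w)
    exact (isClosed_discrete {p : X × X | v <+: w ↔ p.1 <+: p.2}).preimage hc

theorem isCompact_U (S : Set ℕ) : IsCompact (U S : Set (Equiv.Perm X)) :=
  isCompact_AutT.of_isClosed_subset (isClosed_U S) (U_le S)

end Pool.Agent.U747.Twist
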