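import Pool.Agent.U747.TwistB

/-!
# The groups `U S` are open subgroups of compactly generated expansive t.d.l.c. groups
-/

set_option autoImplicit false

namespace Pool.Agent.U747.Twist

/-- exchange of the subtrees at `0` and at `10` -/
def tauF : X → X
  | 0 :: w => 1 :: 0 :: w
  | 1 :: 0 :: w => 0 :: w
  | x => x

/-- a block of words moved in parallel by `tauF` -/
structure Blk (a b : X) : Prop where
  h1 : ∀ w, tauF (a ++ w) = b ++ w
  h2 : ∀ w, tauF (b ++ w) = a ++ w
  h3 : a.length ≤ 2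
  h4 : b.length ≤ 2

theorem blk_cases (x : X) : x = [] ∨ x = [1] ∨ ∃ a b w, x = a ++ w ∧ Blk a b := by
  rcases x with _ | ⟨i, x⟩
  · exact Or.inl rfl
  · fin_cases i
    · refine Or.inr (Or.inr ⟨[0], [1, 0], x, rfl, ⟨fun w => rfl, fun w => rfl, by decide, by decide⟩⟩)
    · rcases x with _ | ⟨j, x⟩
      · exact Or.inr (Or.inl rfl)
      · fin_cases j
        · exact Or.inr (Or.inr ⟨[1, 0], [0], x, rfl,
            ⟨fun w => rfl, fun w => rfl, by decide, by decide⟩⟩)
        · exact Or.inr (Or.inr ⟨[1, 1], [1, 1], x, rfl,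
            ⟨fun w => rfl, fun w => rfl, by decide, by decide⟩⟩)
        · exact Or.inr (Or.inr ⟨[1, 2], [1, 2], x, rfl,
            ⟨fun w => rfl, fun w => rfl, by decide, by decide⟩⟩)
    · exact Or.inr (Or.inr ⟨[2], [2], x, rfl, ⟨fun w => rfl, fun w => rfl, by decide, by decide⟩⟩)

theorem tauF_tauF (x : X) : tauF (tauF x) = x := by
  rcases blk_cases x with rfl | rfl | ⟨a, b, w, rfl, h⟩
  · rfl
  · rfl
  · rw [h.h1, h.h2]

theorem length_tauF (x : X) : (tauF x).length ≤ x.length + 1 := by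
  rcases x with _ | ⟨i, x⟩
  · simp [tauF]
  · fin_cases i
    · simp [tauF]
    · rcases x with _ | ⟨j, x⟩
      · simp [tauF]
      · fin_cases j <;> simp [tauF]
    · simp [tauF]

/-- the exchange as a permutation of the vertices -/
def tau : Equiv.Perm X := ⟨tauF, tauF, tauF_tauF, tauF_tauF⟩

theorem tau_inv : tau⁻¹ = tau := rfl

theorem tau_conj_eq {g : Equiv.Perm X} (hg : g ∈ AutT) {n : ℕ} (hf : Fix (n + 3) g) :
    tau * g * tau⁻¹ = act (fun u => lab g (tauF u)) := by
  have hsmall : ∀ u : X, u.length ≤ 1 → lab g (tauF u) = 1 := by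
    intro u hu
    refine lab_fix hg hf ?_
    have := length_tauF u
    omega
  ext1 x
  change tauF (g (tauF x)) = actF (fun u => lab g (tauF u)) x
  rcases blk_cases x with rfl | rfl | ⟨a, b, w, rfl, h⟩
  · change tauF (g []) = []
    rw [nil_fix hg]
    rfl
  · have h1 : g [1] = [1] := hf _ (by simp)
    change tauF (g [1]) = _
    rw [h1]
    have h2 := hsmall [] (by simp)
    simp only [actF, h2]
    rfl
  · rw [h.h1, app_append hg, hf b (by have := h.h4; omega), h.h2, actF_append]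
    have h5 : actF (fun u => lab g (tauF u)) a = a := by
      refine actF_fix a _ (fun u hu hne => hsmall u ?_)
      have h6 := hu.length_le
      have h7 := h.h3
      by_contra hc
      exact hne (hu.eq_of_length (by omega))
    rw [h5]
    simp only [h.h1]

theorem tau_conj_mem {S : Set ℕ} {g : Equiv.Perm X} (hg : g ∈ U S) {n : ℕ} (hf : Fix (n + 3) g) :
    tau * g * tau⁻¹ ∈ U S := by
  rw [tau_conj_eq hg.1 hf]
  have hsmall : ∀ u : X, u.length ≤ 2 → lab g u = 1 := fun u hu => lab_fix hg.1 hf (by omega)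
  have hsmall2 : ∀ u : X, (tauF u).length ≤ 2 → Equiv.Perm.sign (lab g (tauF u)) = 1 := by
    intro u hu
    rw [hsmall _ hu, map_one]
  refine act_mem_U (fun v => ?_)
  rcases blk_cases v with rfl | rfl | ⟨a, b, w, rfl, h⟩
  · have h1 : ∀ i : Fin 3, Equiv.Perm.sign (lab g (tauF [i])) = 1 := fun i =>
      hsmall2 _ (by have := length_tauF [i]; simpa using this)
    simp [Rel, h1]
  · have h1 : ∀ i : Fin 3, Equiv.Perm.sign (lab g (tauF [1, i])) = 1 := fun i =>
      hsmall2 _ (by fin_cases i <;> simp [tauF])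
    have h2 : Equiv.Perm.sign (lab g (tauF [])) = 1 := hsmall2 _ (by simp [tauF])
    simp [Rel, h1, h2]
  · rw [rel_append]
    · simp only [h.h1]
      have h1 := hg.2 (b ++ w)
      rw [rel_append] at h1
      · exact h1
      · intro k hk
        unfold sg
        rw [hsmall _ (by rw [List.length_take]; have := h.h4; omega), map_one]
    · intro k hk
      refine hsmall2 _ ?_
      have h1 := length_tauF (a.take k)
      have h2 : (a.take k).length = k := by rw [List.length_take]; omega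
      have h3 := h.h3
      omega

theorem tau_conj_fix {g : Equiv.Perm X} {n : ℕ} (hf : Fix (n + 3) g) : Fix n (tau * g * tau⁻¹) := by
  intro v hv
  change tauF (g (tauF v)) = v
  rw [hf _ (by have := length_tauF v; omega), tauF_tauF]

theorem fix_mono {g : Equiv.Perm X} {m n : ℕ} (h : Fix n g) (hmn : m ≤ n) : Fix m g :=
  fun v hv => h v (hv.trans hmn)

theorem fix_mul {g h : Equiv.Perm X} {n : ℕ} (hg : Fix n g) (hh : Fix n h) : Fix n (g * h) := by
  intro v hv
  rw [Equiv.Perm.mul_apply, hh v hv, hg v hv]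

theorem fix_inv {g : Equiv.Perm X} {n : ℕ} (hg : Fix n g) : Fix n g⁻¹ := by
  intro v hv
  rw [Equiv.Perm.inv_eq_iff_eq, hg v hv]

theorem fix_conj {g h : Equiv.Perm X} {n : ℕ} (hg : Fix n g) (hh : h ∈ AutT) :
    Fix n (h * g * h⁻¹) := by
  intro v hv
  change h (g (h⁻¹ v)) = v
  rw [hg _ (by rw [(AutT.inv_mem hh).2]; exact hv)]
  exact h.apply_symm_apply v

/-- the group generated by `U S` and the exchange -/
def Gr (S : Set ℕ) : Subgroup (Equiv.Perm X) :=
  Subgroup.closure ((U S : Set (Equiv.Perm X)) ∪ {tau})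

/-- conjugation by `h` is defined and continuous on an open subgroup -/
def Cont (S : Set ℕ) (h : Equiv.Perm X) : Prop :=
  ∀ n, ∃ m, ∀ g ∈ U S, Fix m g → h * g * h⁻¹ ∈ U S ∧ Fix n (h * g * h⁻¹)

theorem cont_mul {S : Set ℕ} {h k : Equiv.Perm X} (hh : Cont S h) (hk : Cont S k) :
    Cont S (h * k) := by
  intro n
  obtain ⟨m, hm⟩ := hh n
  obtain ⟨l, hl⟩ := hk m
  refine ⟨l, fun g hg hf => ?_⟩
  obtain ⟨h1, h2⟩ := hl g hg hf
  have h3 : h * k * g * (h * k)⁻¹ = h * (k * g * k⁻¹) * h⁻¹ := by group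
  rw [h3]
  exact hm _ h1 h2

theorem cont_Gr {S : Set ℕ} {h : Equiv.Perm X} (hh : h ∈ Gr S) : Cont S h ∧ Cont S h⁻¹ := by
  have hU : ∀ x ∈ U S, Cont S x := fun x hx n =>
    ⟨n, fun g hg hf => ⟨(U S).mul_mem ((U S).mul_mem hx hg) ((U S).inv_mem hx),
      fix_conj hf (U_le S hx)⟩⟩
  induction hh using Subgroup.closure_induction with
  | mem x hx =>
    rcases hx with hx | hx
    · exact ⟨hU x hx, hU _ ((U S).inv_mem hx)⟩
    · have hx' : x = tau := hx
      subst hx'
      have h1 : Cont S tau := fun n => ⟨n + 3, fun g hg hf => ⟨tau_conj_mem hg hf, tau_conj_fix hf⟩⟩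
      exact ⟨h1, h1⟩
  | one =>
    rw [inv_one]
    exact ⟨hU 1 (U S).one_mem, hU 1 (U S).one_mem⟩
  | mul x y _ _ hx hy =>
    rw [mul_inv_rev]
    exact ⟨cont_mul hx.1 hy.1, cont_mul hy.2 hx.2⟩
  | inv x _ hx =>
    rw [inv_inv]
    exact ⟨hx.2, hx.1⟩

/-- the group generated by `U S` and the exchange, as a type -/
def G (S : Set ℕ) : Type := ↥(Gr S)

noncomputable instance (S : Set ℕ) : Group (G S) := inferInstanceAs (Group ↥(Gr S))

/-- the underlying permutation -/
def toP {S : Set ℕ} (g : G S) : Equiv.Perm X := g.1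

theorem toP_mul {S : Set ℕ} (g h : G S) : toP (g * h) = toP g * toP h := rfl
theorem toP_inv {S : Set ℕ} (g : G S) : toP g⁻¹ = (toP g)⁻¹ := rfl
theorem toP_one {S : Set ℕ} : toP (1 : G S) = 1 := rfl
theorem toP_inj {S : Set ℕ} {g h : G S} (H : toP g = toP h) : g = h := Subtype.ext H
theorem toP_mem {S : Set ℕ} (g : G S) : toP g ∈ Gr S := g.2

/-- the basic open subgroups -/
def Bn (S : Set ℕ) (n : ℕ) : Set (G S) := {g | toP g ∈ U S ∧ Fix n (toP g)}

/-- the group topology in which `U S` is open -/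
@[instance_reducible]
def bas (S : Set ℕ) : GroupFilterBasis (G S) where
  sets := Set.range (Bn S)
  nonempty := ⟨_, 0, rfl⟩
  inter_sets := by
    rintro _ _ ⟨m, rfl⟩ ⟨n, rfl⟩
    exact ⟨_, ⟨max m n, rfl⟩, fun g hg => ⟨⟨hg.1, fix_mono hg.2 (le_max_left _ _)⟩,
      ⟨hg.1, fix_mono hg.2 (le_max_right _ _)⟩⟩⟩
  one' := by
    rintro _ ⟨m, rfl⟩
    exact ⟨(U S).one_mem, fun _ _ => rfl⟩
  mul' := by
    rintro _ ⟨m, rfl⟩
    refine ⟨_, ⟨m, rfl⟩, ?_⟩
    rintro _ ⟨a, ha, b, hb, rfl⟩
    exact ⟨(U S).mul_mem ha.1 hb.1, fix_mul ha.2 hb.2⟩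
  inv' := by
    rintro _ ⟨m, rfl⟩
    exact ⟨_, ⟨m, rfl⟩, fun a ha => ⟨(U S).inv_mem ha.1, fix_inv ha.2⟩⟩
  conj' := by
    rintro x _ ⟨n, rfl⟩
    obtain ⟨m, hm⟩ := (cont_Gr (toP_mem x)).1 n
    exact ⟨_, ⟨m, rfl⟩, fun a ha => hm _ ha.1 ha.2⟩

noncomputable instance topG (S : Set ℕ) : TopologicalSpace (G S) := (bas S).topology

instance (S : Set ℕ) : IsTopologicalGroup (G S) := (bas S).isTopologicalGroup

theorem nhds_iff {S : Set ℕ} (g : G S) (O : Set (G S)) :
    O ∈ nhds g ↔ ∃ n, ∀ h : G S, toP (g⁻¹ * h) ∈ U S → Fix n (toP (g⁻¹ * h)) → h ∈ O := by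
  rw [((bas S).nhds_hasBasis g).mem_iff]
  constructor
  · rintro ⟨_, ⟨n, rfl⟩, hn⟩
    refine ⟨n, fun h h1 h2 => hn ⟨g⁻¹ * h, ⟨h1, h2⟩, ?_⟩⟩
    simp
  · rintro ⟨n, hn⟩
    refine ⟨_, ⟨n, rfl⟩, ?_⟩
    rintro _ ⟨a, ha, rfl⟩
    refine hn _ ?_ ?_
    · simpa using ha.1
    · simpa using ha.2

/-- the embedding of `U S` -/
noncomputable def emb (S : Set ℕ) : U S →* G S where
  toFun g := (⟨g.1, Subgroup.subset_closure (Or.inl g.2)⟩ : ↥(Gr S))
  map_one' := rfl
  map_mul' _ _ := rfl

theorem toP_emb {S : Set ℕ} (g : U S) : toP (emb S g) = g.1 := rfl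

/-- the open subgroup -/
noncomputable def V (S : Set ℕ) : Subgroup (G S) := (emb S).range

theorem mem_V {S : Set ℕ} (g : G S) : g ∈ V S ↔ toP g ∈ U S := by
  constructor
  · rintro ⟨h, rfl⟩
    exact h.2
  · intro h
    exact ⟨⟨toP g, h⟩, toP_inj rfl⟩

theorem isOpen_V (S : Set ℕ) : IsOpen (V S : Set (G S)) := by
  rw [isOpen_iff_mem_nhds]
  intro g hg
  rw [nhds_iff]
  refine ⟨0, fun h h1 _ => ?_⟩
  have hg' : toP g ∈ U S := (mem_V g).1 hg
  refine (mem_V h).2 ?_
  have := (U S).mul_mem hg' h1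
  rw [toP_mul, toP_inv] at this
  simpa using this

theorem continuous_emb (S : Set ℕ) : Continuous (emb S) := by
  rw [continuous_iff_continuousAt]
  intro g O hO
  rw [nhds_iff] at hO
  obtain ⟨n, hn⟩ := hO
  rw [Filter.mem_map, mem_nhds_iff]
  refine ⟨{h : U S | ∀ v : X, v.length ≤ n → h.1 v = g.1 v}, ?_,
    (isOpen_agree g.1 n).preimage continuous_subtype_val, fun _ _ => rfl⟩
  intro h hh
  refine hn _ ((U S).mul_mem ((U S).inv_mem g.2) h.2) ?_
  exact fix_mem_of_rel hh

/-- `U S` is topologically isomorphic to the open subgroup -/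
noncomputable def embIso (S : Set ℕ) : U S ≃ₜ* V S :=
  { MonoidHom.ofInjective (f := emb S) (fun a b h => Subtype.ext (congrArg toP h)) with
    continuous_toFun := by
      refine Continuous.subtype_mk (continuous_emb S) _
    continuous_invFun := by
      have h1 : ∀ g : V S, ((MonoidHom.ofInjective (f := emb S)
          (fun a b h => Subtype.ext (congrArg toP h))).symm g).1 = toP g.1 := by
        intro g
        obtain ⟨u, rfl⟩ := (MonoidHom.ofInjective (f := emb S)
          (fun a b h => Subtype.ext (congrArg toP h))).surjective g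
        rw [MulEquiv.symm_apply_apply]
        rfl
      change Continuous (fun g : V S => (MonoidHom.ofInjective (f := emb S)
          (fun a b h => Subtype.ext (congrArg toP h))).symm g)
      rw [Topology.IsInducing.subtypeVal.continuous_iff]
      rw [cont_iff]
      intro x v
      rw [isOpen_iff_mem_nhds]
      intro g hg
      rw [nhds_subtype_eq_comap, Filter.mem_comap]
      refine ⟨{h : G S | toP h x = v}, ?_, ?_⟩
      · rw [nhds_iff]
        refine ⟨x.length, fun h _ h2 => ?_⟩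
        have h3 := h2 x le_rfl
        rw [toP_mul, toP_inv, Equiv.Perm.mul_apply, Equiv.Perm.inv_eq_iff_eq] at h3
        change toP h x = v
        rw [h3, ← h1]
        exact hg
      · intro h hh
        change ((MonoidHom.ofInjective (f := emb S)
          (fun a b h => Subtype.ext (congrArg toP h))).symm h).1 x = v
        rw [h1]
        exact hh }

theorem isCompact_V (S : Set ℕ) : IsCompact (V S : Set (G S)) := by
  have : CompactSpace (U S) := isCompact_iff_compactSpace.1 (isCompact_U S)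
  exact isCompact_range (continuous_emb S)

theorem sep {S : Set ℕ} {g h : G S} (hne : g ≠ h) : ∃ O : Set (G S), IsClopen O ∧ g ∈ O ∧ h ∉ O := by
  -- the coset of the open subgroup `B n`
  by_cases h0 : toP (g⁻¹ * h) ∈ U S
  · have h1 : ∃ v : X, toP (g⁻¹ * h) v ≠ v := by
      by_contra hc
      push Not at hc
      apply hne
      have h2 : toP (g⁻¹ * h) = 1 := Equiv.ext hc
      have h3 : g⁻¹ * h = 1 := toP_inj h2
      exact inv_mul_eq_one.1 h3
    obtain ⟨v, hv⟩ := h1
    let K : Subgroup (G S) :=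
      { carrier := Bn S v.length
        mul_mem' := fun ha hb => ⟨(U S).mul_mem ha.1 hb.1, fix_mul ha.2 hb.2⟩
        one_mem' := ⟨(U S).one_mem, fun _ _ => rfl⟩
        inv_mem' := fun ha => ⟨(U S).inv_mem ha.1, fix_inv ha.2⟩ }
    have hK : IsOpen (K : Set (G S)) :=
      Subgroup.isOpen_of_mem_nhds K (g := 1)
        ((nhds_iff 1 _).2 ⟨v.length, fun x hx hx' => by
          rw [inv_one, one_mul] at hx hx'
          exact ⟨hx, hx'⟩⟩)
    have hKc : IsClosed (K : Set (G S)) := K.isClosed_of_isOpen hK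
    refine ⟨(fun x => g⁻¹ * x) ⁻¹' (K : Set (G S)), ⟨hKc.preimage (continuous_const_mul _),
      hK.preimage (continuous_const_mul _)⟩, ?_, ?_⟩
    · change g⁻¹ * g ∈ K
      rw [inv_mul_cancel]
      exact K.one_mem
    · intro hh
      exact hv (hh.2 v le_rfl)
  · have hK := isOpen_V S
    have hKc : IsClosed (V S : Set (G S)) := (V S).isClosed_of_isOpen hK
    refine ⟨(fun x => g⁻¹ * x) ⁻¹' (V S : Set (G S)), ⟨hKc.preimage (continuous_const_mul _),
      hK.preimage (continuous_const_mul _)⟩, ?_, ?_⟩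
    · change g⁻¹ * g ∈ V S
      rw [inv_mul_cancel]
      exact (V S).one_mem
    · intro hh
      exact h0 ((mem_V _).1 hh)

instance (S : Set ℕ) : T2Space (G S) := by
  refine ⟨fun g h hne => ?_⟩
  obtain ⟨O, hO, h1, h2⟩ := sep hne
  exact ⟨O, Oᶜ, hO.2, hO.1.isOpen_compl, h1, h2, disjoint_compl_right⟩

instance (S : Set ℕ) : TotallyDisconnectedSpace (G S) := by
  have h : TotallySeparatedSpace (G S) := totallySeparatedSpace_iff_exists_isClopen.2 (by
    intro g h hne
    obtain ⟨O, hO, h1, h2⟩ := sep hne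
    exact ⟨O, hO, h1, h2⟩)
  infer_instance

instance (S : Set ℕ) : LocallyCompactSpace (G S) :=
  (isCompact_V S).locallyCompactSpace_of_mem_nhds_of_group
    ((isOpen_V S).mem_nhds (V S).one_mem)

theorem closure_eq (S : Set ℕ) : ∃ C : Set (G S), IsCompact C ∧ Subgroup.closure C = ⊤ := by
  refine ⟨(V S : Set (G S)) ∪ {g | toP g = tau}, ?_, ?_⟩
  · refine (isCompact_V S).union ?_
    refine Set.Subsingleton.isCompact ?_
    intro a ha b hb
    exact toP_inj (ha.trans hb.symm)
  · have h1 : (V S : Set (G S)) ∪ {g | toP g = tau} =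
        ((fun g : G S => g.1) ⁻¹' ((U S : Set (Equiv.Perm X)) ∪ {tau})) := by
      ext g
      constructor
      · rintro (h | h)
        · exact Or.inl ((mem_V g).1 h)
        · exact Or.inr h
      · rintro (h | h)
        · exact Or.inl ((mem_V g).2 h)
        · exact Or.inr h
    rw [h1]
    exact Subgroup.closure_closure_coe_preimage (k := (U S : Set (Equiv.Perm X)) ∪ {tau})

/-! ### The core of `U S` is trivial -/

theorem core_fix {S : Set ℕ} {N : Subgroup (Equiv.Perm X)} (hN : N ≤ U S)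
    (hU : ∀ h ∈ U S, ∀ g ∈ N, h * g * h⁻¹ ∈ N) (ht : ∀ g ∈ N, tau * g * tau⁻¹ ∈ N) :
    ∀ k : ℕ, ∀ g ∈ N, ∀ v : X, v.length = k → g v = v := by
  -- transport a moved vertex to any vertex of the same level
  have key : ∀ (z v : X), z.length = v.length → ∀ g ∈ N, g v ≠ v → ∃ g' ∈ N, g' z ≠ z := by
    intro z v hz g hg hv
    obtain ⟨h, hh, h1⟩ := U_trans S v z hz.symm
    refine ⟨h * g * h⁻¹, hU h hh g hg, ?_⟩
    change h (g (h⁻¹ z)) ≠ z
    have h2 : h⁻¹ z = v := by
      rw [Equiv.Perm.inv_eq_iff_eq, h1]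
    rw [h2, ← h1]
    exact fun h3 => hv (h.injective h3)
  intro k
  induction k with
  | zero =>
    intro g hg v hv
    rw [List.eq_nil_of_length_eq_zero hv, nil_fix (hN hg).1]
  | succ k ih =>
    intro g hg v hv
    by_contra hne
    rcases Nat.eq_zero_or_pos k with hk | hk
    · subst hk
      obtain ⟨g', hg', h1⟩ := key [0] v (by rw [hv]; rfl) g hg hne
      have h2 := (hN (ht g' hg')).1.2 [1, 0]
      change (tauF (g' (tauF [1, 0]))).length = 2 at h2
      have h3 : tauF [1, 0] = [0] := rfl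
      rw [h3] at h2
      have h4 := (hN hg').1.2 [0]
      rcases hgz : g' [0] with _ | ⟨i, l⟩
      · rw [hgz] at h4
        simp at h4
      · rw [hgz] at h4 h2 h1
        have h5 : l = [] := by
          apply List.eq_nil_of_length_eq_zero
          simpa using h4
        subst h5
        fin_cases i
        · exact h1 rfl
        · simp [tauF] at h2
        · simp [tauF] at h2
    · obtain ⟨m, rfl⟩ : ∃ m, k = m + 1 := ⟨k - 1, by omega⟩
      obtain ⟨g', hg', h1⟩ := key (1 :: 0 :: List.replicate m 0) v (by rw [hv]; simp) g hg hne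
      have h2 := ih _ (ht g' hg') (0 :: List.replicate m 0) (by simp)
      change tauF (g' (tauF (0 :: List.replicate m 0))) = _ at h2
      have h3 : tauF (0 :: List.replicate m 0) = 1 :: 0 :: List.replicate m 0 := rfl
      rw [h3] at h2
      have h4 := congrArg tauF h2
      rw [tauF_tauF, h3] at h4
      exact h1 h4

theorem core_trivial (S : Set ℕ) : ⨅ g : G S, (V S).map (MulAut.conj g).toMonoidHom = ⊥ := by
  rw [eq_bot_iff]
  intro x hx
  rw [Subgroup.mem_iInf] at hx
  have hx' : ∀ g : G S, g⁻¹ * x * g ∈ V S := by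
    intro g
    obtain ⟨y, hy, hyx⟩ := hx g
    have : g * y * g⁻¹ = x := hyx
    rw [← this]
    have h2 : g⁻¹ * (g * y * g⁻¹) * g = y := by group
    rw [h2]
    exact hy
  -- the set of all such elements is a subgroup
  let N : Subgroup (G S) :=
    { carrier := {x | ∀ g : G S, g⁻¹ * x * g ∈ V S}
      mul_mem' := fun {a b} ha hb g => by
        have := (V S).mul_mem (ha g) (hb g)
        have h2 : g⁻¹ * a * g * (g⁻¹ * b * g) = g⁻¹ * (a * b) * g := by group
        rwa [h2] at this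
      one_mem' := fun g => by
        have h2 : g⁻¹ * 1 * g = 1 := by group
        rw [h2]
        exact (V S).one_mem
      inv_mem' := fun {a} ha g => by
        have := (V S).inv_mem (ha g)
        have h2 : (g⁻¹ * a * g)⁻¹ = g⁻¹ * a⁻¹ * g := by group
        rwa [h2] at this }
  have hNn : ∀ h : G S, ∀ a ∈ N, h * a * h⁻¹ ∈ N := by
    intro h a ha g
    have := ha (h⁻¹ * g)
    have h2 : (h⁻¹ * g)⁻¹ * a * (h⁻¹ * g) = g⁻¹ * (h * a * h⁻¹) * g := by group
    rwa [h2] at this
  let P : G S →* Equiv.Perm X := (Gr S).subtype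
  have hP : ∀ g, P g = toP g := fun _ => rfl
  have hNU : N.map P ≤ U S := by
    rintro _ ⟨a, ha, rfl⟩
    have := ha 1
    rw [inv_one, one_mul, mul_one] at this
    exact (mem_V a).1 this
  have h1 : ∀ h : G S, ∀ g ∈ N.map P, toP h * g * (toP h)⁻¹ ∈ N.map P := by
    rintro h _ ⟨a, ha, rfl⟩
    exact ⟨h * a * h⁻¹, hNn h a ha, by rw [hP, hP]; rfl⟩
  have h2 := core_fix hNU (fun h hh g hg => h1 (emb S ⟨h, hh⟩) g hg)
    (fun g hg => h1 (⟨tau, Subgroup.subset_closure (Or.inr rfl)⟩ : ↥(Gr S)) g hg)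
  rw [Subgroup.mem_bot]
  refine toP_inj ?_
  ext1 v
  exact h2 v.length (toP x) ⟨x, hx', rfl⟩ v rfl

end Pool.Agent.U747.Twist
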