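import Pool.Agent.U747.TwistS
import Pool.Agent.U747.TwistE

/-!
# Uncountably many commensurability classes
-/

set_option autoImplicit false

namespace Pool.Agent.U747.Twist

/-- the zero boundary point -/
def zer : B := fun _ => 0

theorem pre_zer (k : ℕ) : pre zer k = List.replicate k 0 := by
  unfold pre
  have : zer = fun _ => 0 := rfl
  rw [this, List.map_const', List.length_range]

theorem pre_zer_add (n k : ℕ) : pre zer (n + k) = pre zer n ++ List.replicate k 0 := by
  rw [pre_zer, pre_zer, List.replicate_add]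

open Classical in
theorem prod_single (S : Set ℕ) (N k : ℕ) (p : ℕ → ℤˣ) (hp : p (N + 1) = -1)
    (hq : ∀ j, j ≠ N + 1 → j < N + (k + 2) → p j = 1) :
    (∏ j ∈ Finset.range (N + (k + 2)), if N + (k + 2) - 1 - j ∈ S then p j else 1) =
      if k ∈ S then -1 else 1 := by
  rw [Finset.prod_eq_single (N + 1)]
  · have : N + (k + 2) - 1 - (N + 1) = k := by omega
    rw [this, hp]
  · intro j hj hne
    rw [hq j hne (Finset.mem_range.1 hj)]
    simp
  · intro h
    exact absurd (Finset.mem_range.2 (by omega)) h

theorem eq_of_cor {S S' : Set ℕ} (C : Cor S S') : S = S' := by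
  classical
  obtain ⟨w0, hw0⟩ := C.exists_good (v := pre zer C.n0) (by rw [pre_length])
  have hw0' : w0 = pre (C.th zer) w0.length := by
    have := (hw0 zer).1 (by rw [pre_length])
    exact this.symm
  -- the chain of corresponding vertices
  have hgood : ∀ k, C.good (pre zer (C.n0 + k)) (pre (C.th zer) (w0.length + k)) := by
    intro k
    induction k with
    | zero => rw [Nat.add_zero, Nat.add_zero, ← hw0']; exact hw0
    | succ k ih =>
      obtain ⟨s, hs, hs'⟩ := C.good_step (by rw [pre_length]; omega) ih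
      have h1 := hs zer (by rw [pre_length])
      have h2 := hs' (zer (C.n0 + k))
      rw [pre_length, pre_length] at h1
      rw [← h1, ← pre_succ, ← pre_succ] at h2
      exact h2
  -- the test element
  have hg := tstAt_rist S (pre zer C.n0)
  have hgA := C.mem_of_rist (by rw [pre_length]) hg
  have hbd : bd (tstAt S (pre zer C.n0)) zer = zer := by
    funext j
    unfold bd tstAt
    rw [lab_act]
    unfold gft
    split_ifs
    · exact tstP_zero S _
    · rfl
  have hsg : ∀ k, sg (tstAt S (pre zer C.n0)) (pre zer (C.n0 + k)) = if k = 1 then -1 else 1 := by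
    intro k
    unfold sg
    rw [pre_zer_add, lab_tstAt, sign_tstP, tst_zero]
  have hsg0 : ∀ j, j < C.n0 → sg (tstAt S (pre zer C.n0)) (pre zer j) = 1 := by
    intro j hj
    unfold sg tstAt
    rw [lab_act, gft_out, map_one]
    intro h
    have := h.length_le
    rw [pre_length, pre_length] at this
    omega
  have hfx : ∀ j, tstAt S (pre zer C.n0) (pre zer j) = pre zer j := by
    intro j
    rw [← pre_bd hg.1.1, hbd]
  obtain ⟨h, hh⟩ : ∃ h, h = C.φ ⟨_, hgA⟩ := ⟨_, rfl⟩
  have hU' : h.1 ∈ U S' := C.le' h.2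
  have hbd' : bd h.1 (C.th zer) = C.th zer := by
    rw [hh, ← C.th_equiv]
    change C.th (bd (tstAt S (pre zer C.n0)) zer) = _
    rw [hbd]
  have hfx' : ∀ j, h.1 (pre (C.th zer) j) = pre (C.th zer) j := by
    intro j
    rw [← pre_bd hU'.1, hbd']
  have hsg' : ∀ k, sg h.1 (pre (C.th zer) (w0.length + k)) = if k = 1 then -1 else 1 := by
    intro k
    rw [hh, C.good_sg (by rw [pre_length]; omega) (hgood k) (g := ⟨_, hgA⟩) (hfx _)]
    exact hsg k
  have hsg0' : ∀ j, j < w0.length → sg h.1 (pre (C.th zer) j) = 1 := by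
    intro j hj
    unfold sg
    rw [lab_eq_one hU'.1, map_one]
    intro c
    obtain ⟨x, hx⟩ := C.th_surj (ext0 (pre (C.th zer) j ++ [c]))
    have hpz : pre (ext0 (pre (C.th zer) j ++ [c])) (j + 1) = pre (C.th zer) j ++ [c] := by
      have := pre_ext0 (pre (C.th zer) j ++ [c])
      rwa [List.length_append, List.length_singleton, pre_length] at this
    by_cases hx0 : pre x (pre zer C.n0).length = pre zer C.n0
    · have h1 := (hw0 x).1 hx0
      rw [hx] at h1
      have h2 : pre (ext0 (pre (C.th zer) j ++ [c])) (j + 1) = pre (C.th zer) (j + 1) := by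
        have h3 := pre_take (ext0 (pre (C.th zer) j ++ [c])) w0.length (j + 1)
        rw [h1, min_eq_left (by omega)] at h3
        rw [← h3, hw0', pre_take, min_eq_left (by omega)]
      rw [← hpz, h2]
      exact hfx' _
    · have h1 := rist_bd hg hx0
      have h2 := C.th_equiv ⟨_, hgA⟩ x
      change C.th (bd (tstAt S (pre zer C.n0)) x) = _ at h2
      rw [h1, hx, ← hh] at h2
      rw [← hpz, ← pre_bd hU'.1, ← h2]
  ext k
  -- the relations
  have e1 := hg.1.2 (pre zer (C.n0 + (k + 2)))
  have e2 := hU'.2 (pre (C.th zer) (w0.length + (k + 2)))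
  unfold Rel at e1 e2
  rw [pre_length] at e1 e2
  have p1 : ∀ j, j ≠ C.n0 + 1 → j < C.n0 + (k + 2) →
      sg (tstAt S (pre zer C.n0)) ((pre zer (C.n0 + (k + 2))).take j) = 1 := by
    intro j hj hj2
    rw [pre_take, min_eq_left hj2.le]
    rcases lt_or_ge j C.n0 with h1 | h1
    · exact hsg0 j h1
    · obtain ⟨i, rfl⟩ := Nat.exists_eq_add_of_le h1
      rw [hsg, if_neg (by omega)]
  have p2 : ∀ j, j ≠ w0.length + 1 → j < w0.length + (k + 2) →
      sg h.1 ((pre (C.th zer) (w0.length + (k + 2))).take j) = 1 := by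
    intro j hj hj2
    rw [pre_take, min_eq_left hj2.le]
    rcases lt_or_ge j w0.length with h1 | h1
    · exact hsg0' j h1
    · obtain ⟨i, rfl⟩ := Nat.exists_eq_add_of_le h1
      rw [hsg', if_neg (by omega)]
  have q1 := prod_single S C.n0 k
    (fun j => sg (tstAt S (pre zer C.n0)) ((pre zer (C.n0 + (k + 2))).take j)) (by
      change sg _ ((pre zer (C.n0 + (k + 2))).take (C.n0 + 1)) = -1
      rw [pre_take, min_eq_left (by omega), hsg, if_pos rfl]) p1
  have q2 := prod_single S' w0.length k
    (fun j => sg h.1 ((pre (C.th zer) (w0.length + (k + 2))).take j)) (by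
      change sg _ ((pre (C.th zer) (w0.length + (k + 2))).take (w0.length + 1)) = -1
      rw [pre_take, min_eq_left (by omega), hsg', if_pos rfl]) p2
  have e3 : ∏ i, sg h.1 (pre (C.th zer) (w0.length + (k + 2)) ++ [i]) =
      ∏ i, sg (tstAt S (pre zer C.n0)) (pre zer (C.n0 + (k + 2)) ++ [i]) := by
    obtain ⟨s, _, hs⟩ := C.good_step (by rw [pre_length]; omega) (hgood (k + 2))
    rw [← Equiv.prod_comp s]
    refine Finset.prod_congr rfl (fun i _ => ?_)
    have hfi : tstAt S (pre zer C.n0) (pre zer (C.n0 + (k + 2)) ++ [i]) =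
        pre zer (C.n0 + (k + 2)) ++ [i] := by
      rw [lab_spec hg.1.1, hfx]
      have h1 : lab (tstAt S (pre zer C.n0)) (pre zer (C.n0 + (k + 2))) = 1 := by
        rw [pre_zer_add, lab_tstAt]
        unfold tstP
        rw [if_pos]
        rw [tst_zero, if_neg (by omega)]
      rw [h1]
      rfl
    rw [hh]
    exact C.good_sg (by rw [List.length_append, pre_length]; omega) (hs i) (g := ⟨_, hgA⟩) hfi
  have e4 : (if k ∈ S then (-1 : ℤˣ) else 1) = if k ∈ S' then -1 else 1 := by
    rw [← q1, ← q2]
    exact e1.symm.trans (e3.symm.trans e2)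
  by_cases h1 : k ∈ S <;> by_cases h2 : k ∈ S'
  · exact ⟨fun _ => h2, fun _ => h1⟩
  · rw [if_pos h1, if_neg h2] at e4
    exact absurd e4 (by decide)
  · rw [if_neg h1, if_pos h2] at e4
    exact absurd e4 (by decide)
  · exact ⟨fun h => absurd h h1, fun h => absurd h h2⟩

/-! ### Definitions -/

/-- two topological groups are commensurable: some open subgroups are topologically isomorphic -/
def Commensurable (A B : Type) [Group A] [TopologicalSpace A] [Group B] [TopologicalSpace B] :
    Prop :=
  ∃ (O : Subgroup A) (O' : Subgroup B), IsOpen (O : Set A) ∧ IsOpen (O' : Set B) ∧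
    Nonempty (O ≃ₜ* O')

/-- `U` is a profinite branch group on the ternary rooted tree -/
structure IsProfiniteBranch (U : Subgroup (Equiv.Perm X)) : Prop where
  /-- it acts by automorphisms of the rooted tree -/
  le : U ≤ AutT
  /-- it is closed -/
  closed : IsClosed (U : Set (Equiv.Perm X))
  /-- it is transitive on every level -/
  trans : ∀ v w : X, v.length = w.length → ∃ g ∈ U, g v = w
  /-- all rigid level stabilisers have finite index -/
  branch : ∀ m : ℕ, ((ristLevel U m).subgroupOf U).index ≠ 0

/-- `G` is a compactly generated expansive t.d.l.c. group -/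
structure IsExpansive (G : Type) [Group G] [TopologicalSpace G] : Prop where
  /-- it is a topological group -/
  topological : IsTopologicalGroup G
  /-- it is Hausdorff -/
  hausdorff : T2Space G
  /-- it is locally compact -/
  locallyCompact : LocallyCompactSpace G
  /-- it is totally disconnected -/
  disconnected : TotallyDisconnectedSpace G
  /-- it is compactly generated -/
  generated : ∃ C : Set G, IsCompact C ∧ Subgroup.closure C = ⊤
  /-- some compact open subgroup has trivial normal core -/
  expansive : ∃ V : Subgroup G, IsCompact (V : Set G) ∧ IsOpen (V : Set G) ∧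
    ⨅ g : G, V.map (MulAut.conj g).toMonoidHom = ⊥

/-- `U` is isomorphic to an open subgroup of a compactly generated expansive t.d.l.c. group -/
def ExpansivelyEmbeddable (U : Type) [Group U] [TopologicalSpace U] : Prop :=
  ∃ (G : Type) (_ : Group G) (_ : TopologicalSpace G), IsExpansive G ∧
    ∃ V : Subgroup G, IsOpen (V : Set G) ∧ Nonempty (U ≃ₜ* V)

/-! ### Assembly -/

theorem exists_fix_of_open {Y : Type} [TopologicalSpace Y] {e : Y → Equiv.Perm X}
    (he : Topology.IsInducing e) {W : Set Y} (hW : IsOpen W) {y0 : Y} (h0 : e y0 = 1)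
    (hy : y0 ∈ W) : ∃ m, ∀ y, Fix m (e y) → y ∈ W := by
  obtain ⟨O, hO, rfl⟩ := he.isOpen_iff.1 hW
  obtain ⟨n, hn⟩ := exists_agree hO (h := e y0) hy
  refine ⟨n, fun y hy' => hn _ (fun v hv => ?_)⟩
  rw [hy' v hv, h0]
  rfl

theorem isOpen_Fix (n : ℕ) : IsOpen {g : Equiv.Perm X | Fix n g} := isOpen_agree 1 n

theorem fix_mono' {g : Equiv.Perm X} {m n : ℕ} (h : Fix n g) (hmn : m ≤ n) : Fix m g :=
  fun v hv => h v (hv.trans hmn)

theorem exists_cont {S S' : Set ℕ} {O : Subgroup (U S)} {O' : Subgroup (U S')} (e : O ≃ₜ* O')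
    (n : ℕ) : ∃ m, ∀ g : O, Fix m g.1.1 → Fix n (e g).1.1 := by
  have hind : Topology.IsInducing (fun g : O => g.1.1) :=
    Topology.IsInducing.subtypeVal.comp Topology.IsInducing.subtypeVal
  have hc : Continuous (fun g : O => (e g).1.1) :=
    continuous_subtype_val.comp (continuous_subtype_val.comp e.continuous_toFun)
  refine exists_fix_of_open hind ((isOpen_Fix n).preimage hc) (y0 := 1) rfl ?_
  change Fix n (e 1).1.1
  rw [map_one]
  exact fun _ _ => rfl

theorem exists_open {S : Set ℕ} {O : Subgroup (U S)} (hO : IsOpen (O : Set (U S))) :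
    ∃ n, ∀ g (hg : g ∈ U S), Fix n g → (⟨g, hg⟩ : U S) ∈ O := by
  obtain ⟨n, hn⟩ := exists_fix_of_open (e := fun g : U S => g.1)
    Topology.IsInducing.subtypeVal hO (y0 := 1) rfl O.one_mem
  exact ⟨n, fun g hg hf => hn ⟨g, hg⟩ hf⟩

theorem not_commensurable {S S' : Set ℕ} (h : Commensurable (U S) (U S')) : S = S' := by
  obtain ⟨O, O', hO, hO', ⟨e⟩⟩ := h
  obtain ⟨n, hn⟩ := exists_open hO
  obtain ⟨n', hn'⟩ := exists_open hO'
  let i : O ≃* O.map (U S).subtype := O.equivMapOfInjective _ (U S).subtype_injective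
  let i' : O' ≃* O'.map (U S').subtype := O'.equivMapOfInjective _ (U S').subtype_injective
  have hi : ∀ g : O.map (U S).subtype, (i.symm g).1.1 = g.1 := by
    intro g
    obtain ⟨a, rfl⟩ := i.surjective g
    rw [MulEquiv.symm_apply_apply]
    rfl
  have hi' : ∀ g : O'.map (U S').subtype, (i'.symm g).1.1 = g.1 := by
    intro g
    obtain ⟨a, rfl⟩ := i'.surjective g
    rw [MulEquiv.symm_apply_apply]
    rfl
  exact eq_of_cor
    { A := O.map (U S).subtype
      A' := O'.map (U S').subtype
      le := by
        rintro _ ⟨a, _, rfl⟩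
        exact a.2
      le' := by
        rintro _ ⟨a, _, rfl⟩
        exact a.2
      n0 := max n n'
      opn := fun g hg hf => ⟨⟨g, hg⟩, hn g hg (fix_mono' hf (le_max_left _ _)), rfl⟩
      opn' := fun g hg hf => ⟨⟨g, hg⟩, hn' g hg (fix_mono' hf (le_max_right _ _)), rfl⟩
      φ := i.symm.trans (e.toMulEquiv.trans i')
      cont := by
        intro n
        obtain ⟨m, hm⟩ := exists_cont e n
        refine ⟨m, fun g hg => ?_⟩
        change Fix n (e (i.symm g)).1.1
        exact hm _ (by rw [hi]; exact hg)
      cont' := by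
        intro n
        obtain ⟨m, hm⟩ := exists_cont e.symm n
        refine ⟨m, fun g hg => ?_⟩
        change Fix n (e.symm (i'.symm g)).1.1
        exact hm _ (by rw [hi']; exact hg) }

theorem isBranch (S : Set ℕ) : IsProfiniteBranch (U S) where
  le := U_le S
  closed := isClosed_U S
  trans := U_trans S
  branch := finite_index S

theorem embeddable (S : Set ℕ) : ExpansivelyEmbeddable (U S) :=
  ⟨G S, inferInstance, inferInstance,
    ⟨inferInstance, inferInstance, inferInstance, inferInstance, closure_eq S,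
      ⟨V S, isCompact_V S, isOpen_V S, core_trivial S⟩⟩, V S, isOpen_V S, ⟨embIso S⟩⟩

end Pool.Agent.U747.Twist
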