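import Pool.Agent.U747.TwistB

/-!
# Rigidity: the groups `U S` are pairwise non-commensurable
-/

set_option autoImplicit false

namespace Pool.Agent.U747.Twist

/-! ### The test element -/

open Classical in
/-- the contribution of the history `t` (signs of the proper ancestors, nearest first) -/
noncomputable def R (S : Set ℕ) : ℕ → List ℤˣ → ℤˣ
  | _, [] => 1
  | n, a :: t => (if n ∈ S then a else 1) * R S (n + 1) t

/-- signs below a vertex with history `t` and sign `c` -/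
noncomputable def par (S : Set ℕ) : List ℤˣ → ℤˣ → X → ℤˣ
  | _, c, [] => c
  | t, c, i :: w => par S (c :: t) (if i = 2 then R S 0 t else 1) w

open Classical in
theorem par_rel (S : Set ℕ) (w : X) : ∀ (t : List ℤˣ) (c : ℤˣ),
    ∏ j : Fin 3, par S t c (w ++ [j]) =
      (∏ k ∈ Finset.range w.length, if w.length - 1 - k ∈ S then par S t c (w.take k) else 1) *
        R S w.length t := by
  induction w with
  | nil =>
    intro t c
    simp [par]
  | cons i w ih =>
    intro t c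
    simp only [par, List.cons_append]
    rw [ih, List.length_cons, Finset.prod_range_succ']
    simp only [List.take_zero, List.take_succ_cons, par, R]
    have h1 : ∀ k ∈ Finset.range w.length,
        (if w.length + 1 - 1 - (k + 1) ∈ S then
          par S (c :: t) (if i = 2 then R S 0 t else 1) (w.take k) else 1) =
        (if w.length - 1 - k ∈ S then
          par S (c :: t) (if i = 2 then R S 0 t else 1) (w.take k) else 1) := by
      intro k _
      have : w.length + 1 - 1 - (k + 1) = w.length - 1 - k := by omega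
      rw [this]
    rw [Finset.prod_congr rfl h1]
    have h2 : w.length + 1 - 1 - 0 = w.length := by omega
    rw [h2, mul_assoc]

/-- the signs of the test element -/
noncomputable def tst (S : Set ℕ) : X → ℤˣ
  | [] => 1
  | i :: w => par S [1] (if i = 1 then 1 else -1) w

theorem R_one (S : Set ℕ) (n : ℕ) : R S n [1] = 1 := by
  simp [R]

theorem tst_rel (S : Set ℕ) (v : X) : Rel S (tst S) v := by
  classical
  rcases v with _ | ⟨i, w⟩
  · unfold Rel
    simp [tst, par, Fin.prod_univ_three]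
  · have h0 := rel_append (S := S) (p := tst S) [i] w (by
      intro k hk
      have : k = 0 := by simpa using hk
      subst this
      rfl)
    refine h0.2 ?_
    have h1 := par_rel S w [1] (if i = 1 then 1 else -1)
    rw [R_one, mul_one] at h1
    exact h1

theorem par_zero (S : Set ℕ) (k : ℕ) : ∀ t : List ℤˣ, par S t 1 (List.replicate k 0) = 1 := by
  induction k with
  | zero => intro t; rfl
  | succ k ih =>
    intro t
    rw [List.replicate_succ]
    simp only [par]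
    rw [if_neg (by decide)]
    exact ih _

theorem tst_zero (S : Set ℕ) (k : ℕ) : tst S (List.replicate k 0) = if k = 1 then -1 else 1 := by
  rcases k with _ | _ | k
  · rfl
  · simp [tst, par]
  · rw [List.replicate_succ, List.replicate_succ]
    simp only [tst, par]
    rw [if_neg (by decide), if_neg (by omega)]
    exact par_zero S k _

open Classical in
/-- the portrait of the test element -/
noncomputable def tstP (S : Set ℕ) : X → Equiv.Perm (Fin 3) :=
  fun u => if tst S u = 1 then 1 else Equiv.swap 1 2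

theorem sign_tstP (S : Set ℕ) (u : X) : Equiv.Perm.sign (tstP S u) = tst S u := by
  unfold tstP
  rcases Int.units_eq_one_or (tst S u) with h | h
  · rw [if_pos h, map_one, h]
  · rw [if_neg (by rw [h]; decide), h]
    exact Equiv.Perm.sign_swap (by decide)

/-- the test element below `v` -/
noncomputable def tstAt (S : Set ℕ) (v : X) : Equiv.Perm X := act (gft v (tstP S))

theorem tstAt_rist (S : Set ℕ) (v : X) : tstAt S v ∈ rist (U S) v := by
  refine gft_mem_rist (fun w => ?_) ?_ v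
  · simp only [sign_tstP]
    exact tst_rel S w
  · rw [sign_tstP]
    rfl

theorem lab_tstAt (S : Set ℕ) (v r : X) : lab (tstAt S v) (v ++ r) = tstP S r := by
  unfold tstAt
  rw [lab_act, gft_below]

theorem tstP_zero (S : Set ℕ) (u : X) : tstP S u 0 = 0 := by
  unfold tstP
  split_ifs
  · rfl
  · decide

/-! ### Commutators -/

theorem rist_bd {S : Set ℕ} {u : X} {g : Equiv.Perm X} (hg : g ∈ rist (U S) u) {y : B}
    (hy : pre y u.length ≠ u) : bd g y = y := by
  refine pre_inj (fun n => ?_)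
  rw [pre_bd (U_le S hg.1)]
  exact hg.2 _ (fun h => hy (pre_of_prefix h))

theorem rist_self {S : Set ℕ} {u : X} {g : Equiv.Perm X} (hg : g ∈ rist (U S) u) : g u = u :=
  fix_of_rist (U_le S) hg u le_rfl

theorem trick {M : Subgroup (Equiv.Perm X)} {a g : Equiv.Perm X} (hA : a ∈ AutT) (hgA : g ∈ AutT)
    {v : X} (hv : a v ≠ v) (hgv : g v = v) (hg : ∀ x, ¬ v <+: x → g x = x) (ha : a ∈ M)
    (hc : g⁻¹ * a⁻¹ * g ∈ M) :
    ∃ a' ∈ M, ∀ x, v <+: x → a' x = g x := by
  refine ⟨a * (g⁻¹ * a⁻¹ * g), M.mul_mem ha hc, fun x hx => ?_⟩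
  have h1 : v <+: g x := by
    have := (hgA.1 v x).1 hx
    rwa [hgv] at this
  change a (g⁻¹ (a⁻¹ (g x))) = g x
  have h2 : ¬ v <+: a⁻¹ (g x) := by
    intro hp
    have h3 := (hA.1 _ _).1 hp
    have h4 : a (a⁻¹ (g x)) = g x := a.apply_symm_apply _
    rw [h4] at h3
    apply hv
    have h5 := hA.2 v
    exact (List.prefix_of_prefix_length_le h3 h1 h5.le).eq_of_length h5
  have h3 : g⁻¹ (a⁻¹ (g x)) = a⁻¹ (g x) := by
    rw [Equiv.Perm.inv_eq_iff_eq, hg _ h2]
  rw [h3]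
  exact a.apply_symm_apply _

theorem no_two {S : Set ℕ} {M N : Subgroup (Equiv.Perm X)} (hM : M ≤ AutT) (hN : N ≤ AutT)
    (hcomm : ∀ a ∈ M, ∀ b ∈ N, a * b = b * a) {v : X}
    (hMn : ∀ g ∈ rist (U S) v, ∀ a ∈ M, g⁻¹ * a⁻¹ * g ∈ M)
    (hNn : ∀ g ∈ rist (U S) v, ∀ a ∈ N, g⁻¹ * a⁻¹ * g ∈ N)
    {a b : Equiv.Perm X} (ha : a ∈ M) (hb : b ∈ N) (hav : a v ≠ v) (hbv : b v ≠ v) : False := by
  have hg := rotAt_rist S v 1
  have hg' := rist_mono (U := U S) (List.prefix_append v [0]) (rotAt_rist S (v ++ [0]) 1)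
  obtain ⟨a1, ha1, e1⟩ := trick (hM ha) hg.1.1 hav (rist_self hg) hg.2 ha (hMn _ hg _ ha)
  obtain ⟨b1, hb1, e2⟩ := trick (hN hb) hg'.1.1 hbv (rist_self hg') hg'.2 hb (hNn _ hg' _ hb)
  have h1 := congrArg (fun g : Equiv.Perm X => g (v ++ [0, 0])) (hcomm a1 ha1 b1 hb1)
  change a1 (b1 (v ++ [0, 0])) = b1 (a1 (v ++ [0, 0])) at h1
  have h2 : rotAt (v ++ [0]) 1 (v ++ [0, 0]) = v ++ [0, 1] := by
    have := rotAt_app (v ++ [0]) 1 0 []
    simpa using this
  have h3 : rotAt v 1 (v ++ [0, 0]) = v ++ [1, 0] := by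
    have := rotAt_app v 1 0 [0]
    simpa using this
  have h4 : rotAt v 1 (v ++ [0, 1]) = v ++ [1, 1] := by
    have := rotAt_app v 1 0 [1]
    simpa using this
  have h5 : rotAt (v ++ [0]) 1 (v ++ [1, 0]) = v ++ [1, 0] := by
    refine rotAt_out 1 ?_
    intro h
    rw [List.prefix_append_right_inj] at h
    simp at h
  rw [e2 _ (List.prefix_append _ _), h2, e1 _ (List.prefix_append _ _), h4,
    e1 _ (List.prefix_append _ _), h3, e2 _ (List.prefix_append _ _), h5] at h1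
  have h6 := List.append_cancel_left h1
  simp at h6

theorem fix_of_comm {S : Set ℕ} {h : Equiv.Perm X} (hh : h ∈ AutT) {w : X}
    (hc : ∀ k ∈ rist (U S) w, h * k = k * h) {x : X} (hx : w <+: x) : h x = x := by
  by_contra hne
  have h1 := hc _ (rist_mono hx (rotAt_rist S x 1))
  have h2 := congrArg (fun g : Equiv.Perm X => g (x ++ [0])) h1
  change h (rotAt x 1 (x ++ [0])) = rotAt x 1 (h (x ++ [0])) at h2
  have h3 : ¬ x <+: h (x ++ [0]) := by
    intro hp
    have h4 : h x <+: h (x ++ [0]) := (hh.1 _ _).1 (List.prefix_append _ _)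
    have h5 := hh.2 x
    exact hne ((List.prefix_of_prefix_length_le h4 hp h5.le).eq_of_length h5)
  rw [rotAt_out 1 h3] at h2
  have h4 := h.injective h2
  have h5 := rotAt_app x 1 0 []
  rw [h5] at h4
  have h6 := List.append_cancel_left h4
  simp at h6

/-! ### Commensurations -/

/-- a topological isomorphism between open subgroups, in concrete form -/
structure Cor (S S' : Set ℕ) where
  A : Subgroup (Equiv.Perm X)
  A' : Subgroup (Equiv.Perm X)
  le : A ≤ U S
  le' : A' ≤ U S'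
  n0 : ℕ
  opn : ∀ g ∈ U S, Fix n0 g → g ∈ A
  opn' : ∀ g ∈ U S', Fix n0 g → g ∈ A'
  φ : A ≃* A'
  cont : ∀ n, ∃ m, ∀ g : A, Fix m g.1 → Fix n (φ g).1
  cont' : ∀ n, ∃ m, ∀ g : A', Fix m g.1 → Fix n (φ.symm g).1

/-- the inverse commensuration -/
def Cor.symm {S S' : Set ℕ} (C : Cor S S') : Cor S' S where
  A := C.A'
  A' := C.A
  le := C.le'
  le' := C.le
  n0 := C.n0
  opn := C.opn'
  opn' := C.opn
  φ := C.φ.symm
  cont := C.cont'
  cont' := C.cont

namespace Cor

variable {S S' : Set ℕ} (C : Cor S S')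

theorem mem_of_rist {v : X} (hv : C.n0 ≤ v.length) {g : Equiv.Perm X} (hg : g ∈ rist (U S) v) :
    g ∈ C.A :=
  C.opn g hg.1 (fun w hw => fix_of_rist (U_le S) hg w (hw.trans hv))

/-- the rigid stabiliser of `v` is mapped into that of `w` -/
def P (v w : X) : Prop := ∀ g : C.A, g.1 ∈ rist (U S) v → (C.φ g).1 ∈ rist (U S') w

/-- the preimage of the rigid stabiliser of `w` -/
def M (w : X) : Subgroup (Equiv.Perm X) :=
  ((rist (U S') w).comap (C.A'.subtype.comp C.φ.toMonoidHom)).map C.A.subtype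

theorem mem_M {w : X} {g : Equiv.Perm X} :
    g ∈ C.M w ↔ ∃ h : g ∈ C.A, (C.φ ⟨g, h⟩).1 ∈ rist (U S') w := by
  constructor
  · rintro ⟨a, ha, rfl⟩
    exact ⟨a.2, ha⟩
  · rintro ⟨h, h'⟩
    exact ⟨⟨g, h⟩, h', rfl⟩

theorem M_le (w : X) : C.M w ≤ AutT := fun g hg => by
  obtain ⟨h, _⟩ := C.mem_M.1 hg
  exact (C.le h).1

theorem disjoint_comm {U : Subgroup (Equiv.Perm X)} (hU : U ≤ AutT) {w w' : X}
    (h : ¬ w <+: w') (h' : ¬ w' <+: w) {a b : Equiv.Perm X} (ha : a ∈ rist U w)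
    (hb : b ∈ rist U w') : a * b = b * a := by
  have haw : a w = w := fix_of_rist hU ha w le_rfl
  have hbw : b w' = w' := fix_of_rist hU hb w' le_rfl
  ext1 x
  rw [Equiv.Perm.mul_apply, Equiv.Perm.mul_apply]
  by_cases h1 : w <+: x
  · have h2 : ¬ w' <+: x := by
      intro h2
      rcases List.prefix_or_prefix_of_prefix h1 h2 with h3 | h3
      · exact h h3
      · exact h' h3
    have h3 : ¬ w' <+: a x := by
      intro h3
      have h4 := ((hU ha.1).1 _ _).1 h1
      rw [haw] at h4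
      rcases List.prefix_or_prefix_of_prefix h3 h4 with h5 | h5
      · exact h' h5
      · exact h h5
    rw [hb.2 _ h2, hb.2 _ h3]
  · rw [ha.2 _ h1]
    refine ha.2 _ ?_
    intro h2
    by_cases h3 : w' <+: x
    · have h4 := ((hU hb.1).1 _ _).1 h3
      rw [hbw] at h4
      rcases List.prefix_or_prefix_of_prefix h2 h4 with h5 | h5
      · exact h h5
      · exact h' h5
    · rw [hb.2 _ h3] at h2
      exact h1 h2

theorem eq_of_prefix_of_length {w w' : X} (h : w <+: w') (hl : w.length = w'.length) : w = w' :=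
  h.eq_of_length hl

theorem small_aux {l : ℕ} (hl : C.n0 ≤ l) :
    ∃ J, ∀ v : X, J ≤ v.length → ∃ w : X, w.length = l ∧ C.P v w := by
  obtain ⟨m, hm⟩ := C.cont (l + 1)
  have hA : ∀ {v : X}, max m C.n0 ≤ v.length → ∀ {g}, g ∈ rist (U S) v → g ∈ C.A :=
    fun hv => C.mem_of_rist ((le_max_right _ _).trans hv)
  have hFix : ∀ {v : X}, max m C.n0 ≤ v.length → ∀ {g : C.A}, g.1 ∈ rist (U S) v →
      Fix (l + 1) (C.φ g).1 := fun {v} hv {g} hg =>
    hm g (fun w hw => fix_of_rist (U_le S) hg w (hw.trans ((le_max_left _ _).trans hv)))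
  have hA' : ∀ {w : X}, w.length = l → ∀ {h}, h ∈ rist (U S') w → h ∈ C.A' :=
    fun hw => C.symm.mem_of_rist (by rw [hw]; exact hl)
  -- normalisation
  have hnorm : ∀ {x : X}, max m C.n0 ≤ x.length → ∀ {w : X}, w.length = l →
      ∀ g ∈ rist (U S) x, ∀ a ∈ C.M w, g⁻¹ * a⁻¹ * g ∈ C.M w := by
    intro x hx w hw g hg a ha
    obtain ⟨ha1, ha2⟩ := C.mem_M.1 ha
    have hg1 := hA hx hg
    rw [C.mem_M]
    refine ⟨C.A.mul_mem (C.A.mul_mem (C.A.inv_mem hg1) (C.A.inv_mem ha1)) hg1, ?_⟩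
    have h1 : (⟨g⁻¹ * a⁻¹ * g, C.A.mul_mem (C.A.mul_mem (C.A.inv_mem hg1) (C.A.inv_mem ha1)) hg1⟩ :
        C.A) = (⟨g, hg1⟩ : C.A)⁻¹ * (⟨a, ha1⟩ : C.A)⁻¹ * (⟨g, hg1⟩ : C.A) := rfl
    rw [h1, map_mul, map_mul, map_inv, map_inv]
    have h2 : Fix (l + 1) (C.φ ⟨g, hg1⟩).1 := hFix hx (g := ⟨g, hg1⟩) hg
    have h3 : (C.φ ⟨g, hg1⟩)⁻¹.1 ∈ U S' := C.le' (C.φ ⟨g, hg1⟩)⁻¹.2
    have h4 := rist_conj (U_le S') ((rist (U S') w).inv_mem ha2) h3
    have h5 : (C.φ ⟨g, hg1⟩)⁻¹.1 w = w := by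
      change ((C.φ ⟨g, hg1⟩).1)⁻¹ w = w
      rw [Equiv.Perm.inv_eq_iff_eq]
      exact (h2 w (by omega)).symm
    rw [h5] at h4
    have h6 : ((C.φ ⟨g, hg1⟩)⁻¹.1)⁻¹ = (C.φ ⟨g, hg1⟩).1 := by
      simp
    rw [h6] at h4
    exact h4
  have hcomm : ∀ {w w' : X}, w.length = l → w'.length = l → w ≠ w' →
      ∀ a ∈ C.M w, ∀ b ∈ C.M w', a * b = b * a := by
    intro w w' hw hw' hne a ha b hb
    obtain ⟨ha1, ha2⟩ := C.mem_M.1 ha
    obtain ⟨hb1, hb2⟩ := C.mem_M.1 hb
    have h1 := disjoint_comm (U_le S')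
      (fun h => hne (h.eq_of_length (hw.trans hw'.symm)))
      (fun h => hne (h.eq_of_length (hw'.trans hw.symm)).symm) ha2 hb2
    have h2 : C.φ (⟨a, ha1⟩ * ⟨b, hb1⟩) = C.φ (⟨b, hb1⟩ * ⟨a, ha1⟩) := by
      rw [map_mul, map_mul]
      exact Subtype.ext h1
    exact congrArg Subtype.val (C.φ.injective h2)
  have huniq : ∀ {x : X}, max m C.n0 ≤ x.length → ∀ {w w' : X}, w.length = l → w'.length = l →
      w ≠ w' → ∀ a ∈ C.M w, a x ≠ x → ∀ b ∈ C.M w', b x = x := by
    intro x hx w w' hw hw' hne a ha hax b hb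
    by_contra hbx
    exact no_two (S := S) (C.M_le w) (C.M_le w') (hcomm hw hw' hne)
      (hnorm hx hw) (hnorm hx hw') ha hb hax hbx
  refine ⟨max m C.n0 + 1, fun v hv => ?_⟩
  have hvne : v ≠ [] := by
    rintro rfl
    simp at hv
  obtain ⟨v', i, rfl⟩ : ∃ v' i, v = v' ++ [i] :=
    ⟨v.dropLast, v.getLast hvne, (List.dropLast_append_getLast hvne).symm⟩
  have hv' : max m C.n0 ≤ v'.length := by
    rw [List.length_append, List.length_singleton] at hv
    omega
  have hvv : max m C.n0 ≤ (v' ++ [i]).length := by omega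
  -- some `M w` moves `v`
  have hex : ∃ w : X, w.length = l ∧ ∃ a ∈ C.M w, a (v' ++ [i]) ≠ v' ++ [i] := by
    by_contra hc
    push Not at hc
    have hg := rotAt_rist S v' 1
    have hgA := hA hv' hg
    have h1 : (C.φ ⟨_, hgA⟩).1 ∈ ristLevel (U S') l :=
      fix_le_ristLevel (C.le' (C.φ ⟨_, hgA⟩).2) (hFix hv' (g := ⟨_, hgA⟩) hg)
    let Q : Subgroup (Equiv.Perm X) :=
      ((MulAction.stabilizer (Equiv.Perm X) (v' ++ [i])).comap
        (C.A.subtype.comp C.φ.symm.toMonoidHom)).map C.A'.subtype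
    have h2 : ristLevel (U S') l ≤ Q := by
      refine iSup_le (fun w h hh => ?_)
      refine ⟨⟨h, hA' w.2 hh⟩, ?_, rfl⟩
      change (C.φ.symm ⟨h, hA' w.2 hh⟩).1 (v' ++ [i]) = v' ++ [i]
      refine hc w.1 w.2 _ (C.mem_M.2 ⟨(C.φ.symm ⟨h, hA' w.2 hh⟩).2, ?_⟩)
      have h3 : C.φ ⟨(C.φ.symm ⟨h, hA' w.2 hh⟩).1, (C.φ.symm ⟨h, hA' w.2 hh⟩).2⟩ =
          ⟨h, hA' w.2 hh⟩ := C.φ.apply_symm_apply _
      rw [h3]
      exact hh
    obtain ⟨b, hb, hb'⟩ := h2 h1
    have h3 : b = C.φ ⟨_, hgA⟩ := Subtype.ext hb'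
    rw [h3] at hb
    have h4 : (C.φ.symm (C.φ ⟨_, hgA⟩)).1 (v' ++ [i]) = v' ++ [i] := hb
    rw [MulEquiv.symm_apply_apply] at h4
    have h5 := rotAt_app v' 1 i []
    rw [h5] at h4
    have h6 := List.append_cancel_left h4
    have h7 : i + 1 = i := (List.cons.inj h6).1
    have h8 : ∀ i : Fin 3, i + 1 ≠ i := by decide
    exact h8 i h7
  obtain ⟨w0, hw0, a, ha, hav⟩ := hex
  refine ⟨w0, hw0, fun g hg => ⟨C.le' (C.φ g).2, fun x hx => ?_⟩⟩
  have hF : Fix (l + 1) (C.φ g).1 := hFix hvv hg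
  by_cases hxl : x.length ≤ l
  · exact hF x (by omega)
  · push Not at hxl
    have hw' : (x.take l).length = l := by rw [List.length_take]; omega
    have hne : w0 ≠ x.take l := by
      intro h
      apply hx
      rw [h]
      exact List.take_prefix _ _
    refine fix_of_comm (S := S') (C.le' (C.φ g).2).1 (w := x.take l) ?_ (List.take_prefix _ _)
    intro k hk
    have hkA := hA' hw' hk
    have hbM : (C.φ.symm ⟨k, hkA⟩).1 ∈ C.M (x.take l) := by
      refine C.mem_M.2 ⟨(C.φ.symm ⟨k, hkA⟩).2, ?_⟩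
      have h3 : C.φ ⟨(C.φ.symm ⟨k, hkA⟩).1, (C.φ.symm ⟨k, hkA⟩).2⟩ = ⟨k, hkA⟩ :=
        C.φ.apply_symm_apply _
      rw [h3]
      exact hk
    -- `b` fixes everything below `v`
    have hbfix : ∀ y, v' ++ [i] <+: y → (C.φ.symm ⟨k, hkA⟩).1 y = y := by
      intro y hy
      refine huniq (x := y) (hvv.trans hy.length_le) hw0 hw' hne a ha ?_ _ hbM
      intro h
      exact hav (fix_prefix (C.M_le _ ha) h hy)
    have hbA : (C.φ.symm ⟨k, hkA⟩).1 ∈ AutT := C.M_le _ hbM
    have hgb : g * C.φ.symm ⟨k, hkA⟩ = C.φ.symm ⟨k, hkA⟩ * g := by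
      apply Subtype.ext
      ext1 y
      change g.1 ((C.φ.symm ⟨k, hkA⟩).1 y) = (C.φ.symm ⟨k, hkA⟩).1 (g.1 y)
      by_cases hy : v' ++ [i] <+: y
      · rw [hbfix y hy]
        have h1 := (hg.1.1.1 _ _).1 hy
        rw [rist_self hg] at h1
        rw [hbfix _ h1]
      · rw [hg.2 y hy]
        refine hg.2 _ ?_
        intro h1
        apply hy
        rw [hbA.1 (v' ++ [i]) y, hbfix _ (List.prefix_refl _)]
        exact h1
    have h2 := congrArg (fun z => (C.φ z).1) hgb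
    rw [map_mul, map_mul, MulEquiv.apply_symm_apply] at h2
    exact h2

end Cor

end Pool.Agent.U747.Twist
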