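import Pool.Agent.U747.TwistR

/-!
# The boundary homeomorphism of a commensuration
-/

set_option autoImplicit false

namespace Pool.Agent.U747.Twist

namespace Cor

variable {S S' : Set ℕ} (C : Cor S S')

theorem P_mono {v v' w w' : X} (h : C.P v w) (hv : v <+: v') (hw : w' <+: w) : C.P v' w' :=
  fun g hg => rist_mono hw (h g (rist_mono hv hg))

theorem small (l : ℕ) : ∃ J, ∀ v : X, J ≤ v.length → ∃ w : X, w.length = l ∧ C.P v w := by
  obtain ⟨J, hJ⟩ := C.small_aux (l := max l C.n0) (le_max_right _ _)
  refine ⟨J, fun v hv => ?_⟩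
  obtain ⟨w, hw, hP⟩ := hJ v hv
  refine ⟨w.take l, ?_, C.P_mono hP (List.prefix_refl _) (List.take_prefix _ _)⟩
  rw [List.length_take, hw]
  exact min_eq_left (le_max_left _ _)

theorem rotAt_ne (v : X) : rotAt v 1 ≠ 1 := by
  intro h
  have h1 := rotAt_app v 1 0 []
  rw [h] at h1
  have h2 := List.append_cancel_left h1
  simp at h2

/-- comparability of targets -/
theorem P_comparable {v w w' : X} (hv : C.n0 ≤ v.length) (h : C.P v w) (h' : C.P v w') :
    w <+: w' ∨ w' <+: w := by
  have hg := rotAt_rist S v 1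
  have hgA := C.mem_of_rist hv hg
  have h1 := h ⟨_, hgA⟩ hg
  have h2 := h' ⟨_, hgA⟩ hg
  have h3 : ∃ z, (C.φ ⟨_, hgA⟩).1 z ≠ z := by
    by_contra hc
    push Not at hc
    have h4 : C.φ ⟨_, hgA⟩ = 1 := Subtype.ext (Equiv.ext hc)
    rw [map_eq_one_iff C.φ C.φ.injective] at h4
    exact rotAt_ne v (congrArg Subtype.val h4)
  obtain ⟨z, hz⟩ := h3
  have h4 : w <+: z := by
    by_contra hc
    exact hz (h1.2 z hc)
  have h5 : w' <+: z := by
    by_contra hc
    exact hz (h2.2 z hc)
  exact List.prefix_or_prefix_of_prefix h4 h5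

/-- the relation between boundary points -/
def Th (x y : B) : Prop := ∀ l, ∃ n, C.P (pre x n) (pre y l)

theorem exists_Th (x : B) : ∃ y, C.Th x y := by
  choose J hJ using C.small
  choose w hw hP using fun l => hJ l (pre x (J l)) (by rw [pre_length])
  have hstep : ∀ l, w l <+: w (l + 1) := by
    intro l
    have h1 : C.P (pre x (max (max (J l) (J (l + 1))) C.n0)) (w l) :=
      C.P_mono (hP l) (pre_prefix x ((le_max_left _ _).trans (le_max_left _ _))) (List.prefix_refl _)
    have h2 : C.P (pre x (max (max (J l) (J (l + 1))) C.n0)) (w (l + 1)) :=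
      C.P_mono (hP (l + 1)) (pre_prefix x ((le_max_right _ _).trans (le_max_left _ _)))
        (List.prefix_refl _)
    rcases C.P_comparable (by rw [pre_length]; exact le_max_right _ _) h1 h2 with h3 | h3
    · exact h3
    · have := h3.length_le
      rw [hw, hw] at this
      omega
  let y : B := fun i => (w (i + 1)).getD i 0
  have hy : ∀ l, pre y l = w l := by
    intro l
    induction l with
    | zero => exact (List.eq_nil_of_length_eq_zero (hw 0)).symm
    | succ l ih =>
      rw [pre_succ, ih]
      obtain ⟨s, hs⟩ := hstep l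
      have h1 : s.length = 1 := by
        have := congrArg List.length hs
        rw [List.length_append, hw, hw] at this
        omega
      obtain ⟨c, rfl⟩ := List.length_eq_one_iff.1 h1
      have h2 : y l = c := by
        change (w (l + 1)).getD l 0 = c
        rw [← hs]
        have h3 : (w l ++ [c]).getD (w l).length 0 = c := by simp
        rw [hw l] at h3
        exact h3
      rw [h2, hs]
  exact ⟨y, fun l => ⟨J l, by rw [hy]; exact hP l⟩⟩

theorem Th_inv {x y x' : B} (h : C.Th x y) (h' : C.symm.Th y x') : x = x' := by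
  refine pre_inj (fun j => ?_)
  obtain ⟨l, hl⟩ := h' j
  obtain ⟨n, hn⟩ := h l
  have hg := rotAt_rist S (pre x (max (max n C.n0) j)) 1
  have hgA := C.mem_of_rist (by rw [pre_length]; exact (le_max_right _ _).trans (le_max_left _ _)) hg
  have h1 := hn ⟨_, hgA⟩ (rist_mono (pre_prefix x ((le_max_left _ _).trans (le_max_left _ _))) hg)
  have h2 : (C.φ.symm (C.φ ⟨_, hgA⟩)).1 ∈ rist (U S) (pre x' j) := hl (C.φ ⟨_, hgA⟩) h1
  rw [MulEquiv.symm_apply_apply] at h2
  have h3 : pre x' j <+: pre x (max (max n C.n0) j) ++ [0] := by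
    by_contra hc
    have h4 := h2.2 _ hc
    have h5 := rotAt_app (pre x (max (max n C.n0) j)) 1 0 []
    change rotAt (pre x (max (max n C.n0) j)) 1 (pre x (max (max n C.n0) j) ++ [0]) = _ at h4
    rw [h5] at h4
    have h6 := List.append_cancel_left h4
    simp at h6
  have h4 : pre x j <+: pre x (max (max n C.n0) j) ++ [0] :=
    (pre_prefix x (le_max_right _ _)).trans (List.prefix_append _ _)
  exact (List.prefix_of_prefix_length_le h4 h3 (by rw [pre_length, pre_length])).eq_of_length
    (by rw [pre_length, pre_length])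

theorem Th_unique {x y y' : B} (h : C.Th x y) (h' : C.Th x y') : y = y' := by
  refine pre_inj (fun l => ?_)
  obtain ⟨n, hn⟩ := h l
  obtain ⟨n', hn'⟩ := h' l
  have h1 : C.P (pre x (max (max n n') C.n0)) (pre y l) :=
    C.P_mono hn (pre_prefix x ((le_max_left _ _).trans (le_max_left _ _))) (List.prefix_refl _)
  have h2 : C.P (pre x (max (max n n') C.n0)) (pre y' l) :=
    C.P_mono hn' (pre_prefix x ((le_max_right _ _).trans (le_max_left _ _))) (List.prefix_refl _)
  rcases C.P_comparable (by rw [pre_length]; exact le_max_right _ _) h1 h2 with h3 | h3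
  · exact h3.eq_of_length (by rw [pre_length, pre_length])
  · exact (h3.eq_of_length (by rw [pre_length, pre_length])).symm

theorem Th_equiv {x y : B} (h : C.Th x y) (g : C.A) : C.Th (bd g.1 x) (bd (C.φ g).1 y) := by
  have hg : g.1 ∈ AutT := (C.le g.2).1
  have hg' : (C.φ g).1 ∈ AutT := (C.le' (C.φ g).2).1
  intro l
  obtain ⟨n, hn⟩ := h l
  refine ⟨n, fun k hk => ?_⟩
  rw [pre_bd hg] at hk
  rw [pre_bd hg']
  have h1 : (g⁻¹ * k * g).1 ∈ rist (U S) (pre x n) := by
    have := rist_conj (U_le S) hk ((U S).inv_mem (C.le g.2))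
    have h2 : (g.1)⁻¹ (g.1 (pre x n)) = pre x n := g.1.symm_apply_apply _
    rw [h2, inv_inv] at this
    exact this
  have h2 := hn _ h1
  have h3 := rist_conj (U_le S') h2 (C.le' (C.φ g).2)
  have h4 : (C.φ g).1 * (C.φ (g⁻¹ * k * g)).1 * ((C.φ g).1)⁻¹ = (C.φ k).1 := by
    have h5 : C.φ g * C.φ (g⁻¹ * k * g) * (C.φ g)⁻¹ = C.φ k := by
      rw [← map_inv, ← map_mul, ← map_mul]
      congr 1
      group
    rw [← h5]
    rfl
  rw [h4] at h3
  exact h3

/-- the boundary map -/
noncomputable def th (x : B) : B := (C.exists_Th x).choose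

theorem th_spec (x : B) : C.Th x (C.th x) := (C.exists_Th x).choose_spec

theorem th_inj : Function.Injective C.th := by
  intro x x' h
  have h1 := C.Th_inv (C.th_spec x) (C.symm.th_spec _)
  have h2 := C.Th_inv (C.th_spec x') (C.symm.th_spec _)
  rw [h1, h2, h]

theorem th_surj : Function.Surjective C.th := by
  intro y
  refine ⟨C.symm.th y, ?_⟩
  exact (C.symm.Th_inv (C.symm.th_spec y) (C.th_spec _)).symm

theorem th_equiv (g : C.A) (x : B) : C.th (bd g.1 x) = bd (C.φ g).1 (C.th x) :=
  C.Th_unique (C.th_spec _) (C.Th_equiv (C.th_spec x) g)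

/-! ### Balls are mapped to balls -/

theorem three : ∀ a b c d : Fin 3, a ≠ b → c ≠ a → c ≠ b → d ≠ a → d ≠ b → c = d := by decide

theorem inj_of_shift {s ρ : Fin 3 → Fin 3} (h : ∀ i, s (i + 1) = ρ (s i))
    (hne : ∃ i j, s i ≠ s j) : Function.Injective s := by
  have h0 : s 1 = ρ (s 0) := h 0
  have h1 : s 2 = ρ (s 1) := h 1
  have h2 : s 0 = ρ (s 2) := h 2
  have key : s 0 ≠ s 1 ∧ s 1 ≠ s 2 ∧ s 0 ≠ s 2 := by
    have hall : s 0 = s 1 → s 1 = s 2 → False := by
      intro e1 e2
      obtain ⟨i, j, hij⟩ := hne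
      apply hij
      have : ∀ k, s k = s 0 := by
        intro k
        fin_cases k
        · rfl
        · exact e1.symm
        · exact (e1.trans e2).symm
      rw [this i, this j]
    refine ⟨fun e => hall e ?_, fun e => hall ?_ e, fun e => ?_⟩
    · calc s 1 = ρ (s 0) := h0
        _ = ρ (s 1) := by rw [e]
        _ = s 2 := h1.symm
    · calc s 0 = ρ (s 2) := h2
        _ = ρ (s 1) := by rw [e]
        _ = s 2 := h1.symm
        _ = s 1 := e.symm
    · have e1 : s 0 = s 1 := by
        calc s 0 = ρ (s 2) := h2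
          _ = ρ (s 0) := by rw [e]
          _ = s 1 := h0.symm
      exact hall e1 (e1.symm.trans e)
  obtain ⟨k1, k2, k3⟩ := key
  intro i j
  fin_cases i <;> fin_cases j <;> intro h <;>
    first
    | rfl
    | exact absurd h k1
    | exact absurd h.symm k1
    | exact absurd h k2
    | exact absurd h.symm k2
    | exact absurd h k3
    | exact absurd h.symm k3

/-- the core argument -/
theorem core {v : X} (hv : C.n0 ≤ v.length) {w : X}
    (h1 : ∀ x, pre x v.length = v → pre (C.th x) w.length = w)
    (h2 : ∃ x x', pre x v.length = v ∧ pre x' v.length = v ∧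
      C.th x w.length ≠ C.th x' w.length) :
    ∃ s : Equiv.Perm (Fin 3), (∀ x, pre x v.length = v → C.th x w.length = s (x v.length)) ∧
      ∀ x, pre (C.th x) w.length = w → pre x v.length = v := by
  have hA : ∀ g ∈ rist (U S) v, g ∈ C.A := fun g hg => C.mem_of_rist hv hg
  have hin : ∀ g ∈ rist (U S) v, ∀ x, pre x v.length = v → pre (bd g x) v.length = v := by
    intro g hg x hx
    rw [pre_bd hg.1.1, hx, rist_self hg]
  have hact : ∀ (g : Equiv.Perm X) (hg : g ∈ rist (U S) v) (x : B), pre x v.length = v →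
      C.th (bd g x) w.length = lab (C.φ ⟨g, hA g hg⟩).1 w (C.th x w.length) := by
    intro g hg x hx
    have := C.th_equiv ⟨g, hA g hg⟩ x
    change C.th (bd g x) = _ at this
    rw [this]
    unfold bd
    rw [h1 x hx]
  -- constancy on the children
  have hconst : ∀ x x', pre x v.length = v → pre x' v.length = v → x v.length = x' v.length →
      C.th x w.length = C.th x' w.length := by
    intro x x' hx hx' hxx
    by_contra hne
    have hgen : ∀ y, pre y v.length = v → y v.length ≠ x v.length →
        C.th y w.length ≠ C.th x w.length ∧ C.th y w.length ≠ C.th x' w.length := by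
      intro y hy hyx
      have hpx : pre x (v ++ [x v.length]).length = v ++ [x v.length] := by
        rw [List.length_append, List.length_singleton, pre_succ, hx]
      have hpx' : pre x' (v ++ [x v.length]).length = v ++ [x v.length] := by
        rw [List.length_append, List.length_singleton, pre_succ, hx', hxx]
      obtain ⟨g, hg, hgx⟩ := rist_trans S hpx hpx'
      have hgy : bd g y = y := by
        refine rist_bd hg ?_
        rw [List.length_append, List.length_singleton, pre_succ, hy]
        intro h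
        have := List.append_cancel_left h
        exact hyx (List.cons.inj this).1
      have hg' := rist_mono (U := U S) (List.prefix_append v [x v.length]) hg
      have e1 := hact g hg' x hx
      have e2 := hact g hg' y hy
      rw [hgx] at e1
      rw [hgy] at e2
      constructor
      · intro h
        rw [h] at e2
        rw [← e2] at e1
        exact hne e1.symm
      · intro h
        rw [h] at e2
        exact hne ((lab (C.φ ⟨g, hA g hg'⟩).1 w).injective (e1.symm.trans e2))
    have hr := rotAt_rist S v 1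
    have hk : ∀ z, pre z v.length = v → z v.length = x v.length →
        bd (rotAt v 1) z v.length ≠ x v.length := by
      intro z hz hzx
      rw [rotAt_bd hz, hzx]
      have h8 : ∀ i : Fin 3, i + 1 ≠ i := by decide
      exact h8 _
    have g1 := hgen _ (hin _ hr x hx) (hk x hx rfl)
    have g2 := hgen _ (hin _ hr x' hx') (hk x' hx' hxx.symm)
    have h3 := three _ _ _ _ hne g1.1 g1.2 g2.1 g2.2
    rw [hact _ hr x hx, hact _ hr x' hx'] at h3
    exact hne ((lab _ w).injective h3)
  -- the letter map
  let xi : Fin 3 → B := fun i => bd (rotAt v i) (ext0 v)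
  have hxi : ∀ i, pre (xi i) v.length = v := fun i => hin _ (rotAt_rist S v i) _ (pre_ext0 v)
  have hxi' : ∀ i, xi i v.length = i := by
    intro i
    change bd (rotAt v i) (ext0 v) v.length = i
    rw [rotAt_bd (pre_ext0 v)]
    have : ext0 v v.length = 0 := by simp [ext0]
    rw [this, zero_add]
  let s : Fin 3 → Fin 3 := fun i => C.th (xi i) w.length
  have hs : ∀ x, pre x v.length = v → C.th x w.length = s (x v.length) := fun x hx =>
    hconst x _ hx (hxi _) (hxi' _).symm
  have hshift : ∀ i, s (i + 1) = lab (C.φ ⟨_, hA _ (rotAt_rist S v 1)⟩).1 w (s i) := by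
    intro i
    have e1 := hact _ (rotAt_rist S v 1) (xi i) (hxi i)
    rw [hs _ (hin _ (rotAt_rist S v 1) _ (hxi i)), rotAt_bd (hxi i), hxi'] at e1
    exact e1
  have hinj : Function.Injective s := by
    refine inj_of_shift hshift ?_
    obtain ⟨x, x', hx, hx', hne⟩ := h2
    rw [hs x hx, hs x' hx'] at hne
    exact ⟨_, _, hne⟩
  have hbij : Function.Bijective s := Finite.injective_iff_bijective.1 hinj
  refine ⟨Equiv.ofBijective s hbij, hs, fun x hx => ?_⟩
  by_contra hc
  obtain ⟨i, hi⟩ := hbij.2 (C.th x w.length)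
  have e1 := C.th_equiv ⟨_, hA _ (rotAt_rist S v 1)⟩ x
  change C.th (bd (rotAt v 1) x) = _ at e1
  rw [rist_bd (rotAt_rist S v 1) hc] at e1
  have e2 := congrFun e1 w.length
  unfold bd at e2
  rw [hx, ← hi, ← hshift] at e2
  have h3 := hinj e2
  have h8 : ∀ i : Fin 3, i ≠ i + 1 := by decide
  exact h8 _ h3

/-- `v` corresponds to `w` -/
def good (v w : X) : Prop := ∀ x, pre x v.length = v ↔ pre (C.th x) w.length = w

theorem pre_cons_iff {x : B} {v : X} {i : Fin 3} :
    pre x (v ++ [i]).length = v ++ [i] ↔ pre x v.length = v ∧ x v.length = i := by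
  rw [List.length_append, List.length_singleton, pre_succ]
  constructor
  · intro h
    have h1 := List.append_inj_left' h rfl
    have h2 := List.append_inj_right' h rfl
    exact ⟨h1, (List.cons.inj h2).1⟩
  · rintro ⟨h1, h2⟩
    rw [h1, h2]

theorem good_step {v w : X} (hv : C.n0 ≤ v.length) (h : C.good v w) :
    ∃ s : Equiv.Perm (Fin 3), (∀ x, pre x v.length = v → C.th x w.length = s (x v.length)) ∧
      ∀ i, C.good (v ++ [i]) (w ++ [s i]) := by
  have h2 : ∃ x x', pre x v.length = v ∧ pre x' v.length = v ∧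
      C.th x w.length ≠ C.th x' w.length := by
    obtain ⟨x, hx⟩ := C.th_surj (ext0 w)
    obtain ⟨x', hx'⟩ := C.th_surj (bd (rotAt w 1) (ext0 w))
    have hp : pre (bd (rotAt w 1) (ext0 w)) w.length = w := by
      rw [pre_bd (rotAt_rist S w 1).1.1, pre_ext0]
      exact rist_self (rotAt_rist S w 1)
    refine ⟨x, x', (h x).2 (by rw [hx, pre_ext0]), (h x').2 (by rw [hx', hp]), ?_⟩
    rw [hx, hx', rotAt_bd (pre_ext0 w)]
    have h8 : ∀ i : Fin 3, i ≠ i + 1 := by decide
    exact h8 _
  obtain ⟨s, hs, _⟩ := C.core hv (fun x hx => (h x).1 hx) h2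
  refine ⟨s, hs, fun i x => ?_⟩
  rw [pre_cons_iff, pre_cons_iff, ← h x]
  constructor
  · rintro ⟨h3, h4⟩
    exact ⟨h3, by rw [hs x h3, h4]⟩
  · rintro ⟨h3, h4⟩
    rw [hs x h3] at h4
    exact ⟨h3, s.injective h4⟩

theorem exists_good {v : X} (hv : C.n0 ≤ v.length) : ∃ w, C.good v w := by
  classical
  have hp : pre (bd (rotAt v 1) (ext0 v)) v.length = v := by
    rw [pre_bd (rotAt_rist S v 1).1.1, pre_ext0]
    exact rist_self (rotAt_rist S v 1)
  have hne : C.th (bd (rotAt v 1) (ext0 v)) ≠ C.th (ext0 v) := by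
    intro h
    have h1 := C.th_inj h
    have h2 := congrFun h1 v.length
    rw [rotAt_bd (pre_ext0 v)] at h2
    have h8 : ∀ i : Fin 3, i + 1 ≠ i := by decide
    exact h8 _ h2
  have hex : ∃ m, ∃ x, pre x v.length = v ∧ C.th x m ≠ C.th (ext0 v) m := by
    by_contra hc
    push Not at hc
    exact hne (funext (fun m => hc m _ hp))
  obtain ⟨x1, hx1, hm⟩ := Nat.find_spec hex
  have hmin : ∀ x, pre x v.length = v → ∀ k < Nat.find hex, C.th x k = C.th (ext0 v) k := by
    intro x hx k hk
    have := Nat.find_min hex hk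
    push Not at this
    exact this x hx
  have hlen : (pre (C.th (ext0 v)) (Nat.find hex)).length = Nat.find hex := pre_length _ _
  have h1 : ∀ x, pre x v.length = v →
      pre (C.th x) (pre (C.th (ext0 v)) (Nat.find hex)).length =
        pre (C.th (ext0 v)) (Nat.find hex) := by
    intro x hx
    rw [hlen]
    unfold pre
    refine List.map_congr_left (fun k hk => ?_)
    exact hmin x hx k (List.mem_range.1 hk)
  obtain ⟨s, hs, h3⟩ := C.core hv h1
    ⟨x1, ext0 v, hx1, pre_ext0 v, by rw [hlen]; exact hm⟩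
  exact ⟨_, fun x => ⟨h1 x, h3 x⟩⟩

theorem exists_below (v : X) : ∃ x : B, pre x v.length = v := ⟨ext0 v, pre_ext0 v⟩

theorem good_fix {v w : X} (h : C.good v w) {g : C.A} (hg : g.1 v = v) : (C.φ g).1 w = w := by
  obtain ⟨x, hx⟩ := exists_below v
  have h1 : pre (bd g.1 x) v.length = v := by
    rw [pre_bd (C.le g.2).1, hx, hg]
  have h2 := (h _).1 h1
  rw [C.th_equiv, pre_bd (C.le' (C.φ g).2).1, (h x).1 hx] at h2
  exact h2

theorem good_sg {v w : X} (hv : C.n0 ≤ v.length) (h : C.good v w) {g : C.A} (hg : g.1 v = v) :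
    sg (C.φ g).1 w = sg g.1 v := by
  obtain ⟨s, hs, _⟩ := C.good_step hv h
  have h1 : ∀ i, lab (C.φ g).1 w (s i) = s (lab g.1 v i) := by
    intro i
    have hx : pre (ext0 (v ++ [i])) (v ++ [i]).length = v ++ [i] := pre_ext0 _
    rw [pre_cons_iff] at hx
    have h2 := C.th_equiv g (ext0 (v ++ [i]))
    have h3 := congrFun h2 w.length
    have h4 : pre (bd g.1 (ext0 (v ++ [i]))) v.length = v := by
      rw [pre_bd (C.le g.2).1, hx.1, hg]
    rw [hs _ h4] at h3
    unfold bd at h3
    rw [hx.1, (h _).1 hx.1, hs _ hx.1, hx.2] at h3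
    exact h3.symm
  have h2 : lab (C.φ g).1 w = s * lab g.1 v * s⁻¹ := by
    ext1 j
    have := h1 (s⁻¹ j)
    rw [show s (s⁻¹ j) = j from s.apply_symm_apply j] at this
    rw [this]
    rfl
  unfold sg
  rw [h2, map_mul, map_mul, map_inv, mul_comm, inv_mul_cancel_left]

end Cor

end Pool.Agent.U747.Twist
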